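import Pool.Agent.Helper97.Hilb8.LemmaI

/-!
# Normal form of 8-dimensional algebras in characteristic 2: case B
-/

universe u

namespace Pool.Agent.Helper97.Hilb8

namespace LI2B

open LI

variable {κ : Type u} [Field κ] {A : Type u} [CommRing A] [Algebra κ A]

/-- The subspace `V1 + z V1`. -/
def Wz (V1 : Submodule κ A) (z : A) : Submodule κ A := V1 ⊔ V1.map (LinearMap.mulLeft κ z)

theorem le_Wz (V1 : Submodule κ A) (z : A) : V1 ≤ Wz V1 z := le_sup_left

theorem mul_mem_Wz (V1 : Submodule κ A) (z : A) : ∀ v ∈ V1, z * v ∈ Wz V1 z := fun v hv =>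
  Submodule.mem_sup_right ⟨v, hv, rfl⟩

theorem mem_Wz (V1 : Submodule κ A) (z a : A) (ha : a ∈ Wz V1 z) :
    ∃ v ∈ V1, ∃ w ∈ V1, a = v + z * w := by
  obtain ⟨v, hv, b, ⟨w, hw, rfl⟩, rfl⟩ := Submodule.mem_sup.mp ha
  exact ⟨v, hv, w, hw, rfl⟩

/-- A nonzero scalar avoiding a quadratic equation. -/
theorem exists_scalar [Infinite κ] (c : κ) : ∃ s : κ, s ≠ 0 ∧ 1 + s ^ 2 * c ≠ 0 := by
  classical
  obtain ⟨s, hs⟩ := Infinite.exists_notMem_finset ({0, 1, -1} : Finset κ)
  simp only [Finset.mem_insert, Finset.mem_singleton, not_or] at hs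
  obtain ⟨hs0, hs1, hs2⟩ := hs
  by_cases h : 1 + s ^ 2 * c = 0
  · refine ⟨1, one_ne_zero, fun h1 => ?_⟩
    have hc : c = -1 := by linear_combination h1
    rw [hc] at h
    have h3 : (s - 1) * (s + 1) = 0 := by linear_combination -h
    rcases mul_eq_zero.mp h3 with h4 | h4
    · exact hs1 (by linear_combination h4)
    · exact hs2 (by linear_combination h4)
  · exact ⟨s, hs0, h⟩

theorem finrank_sup_sing [FiniteDimensional κ A] {V : Submodule κ A} {a : A} (ha : a ∉ V) :
    Module.finrank κ (V ⊔ Submodule.span κ {a} : Submodule κ A) = Module.finrank κ V + 1 := by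
  have h1 := finrank_sup_sing_le V a
  have h2 : V < V ⊔ Submodule.span κ {a} := lt_of_le_of_ne le_sup_left fun h => ha (by
    rw [h]; exact Submodule.mem_sup_right (Submodule.mem_span_singleton_self a))
  have h3 := Submodule.finrank_lt_finrank_of_lt h2
  omega

/-- Squares of elements of `V1` lie in `W_z` for every maximal `z`. -/
theorem sq_mem_Wz [Infinite κ] [FiniteDimensional κ A] [Nontrivial A] {V1 : Submodule κ A}
    (h1V : (1 : A) ∈ V1)
    (hb : ¬ ∃ y z : A, LinearIndependent κ ![1, y, z, y * y, y * z, z * z])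
    {z : A} (hzV : z ∈ V1) (hzz : z * z ∉ V1)
    (hmax : ∀ z', z' ∈ V1 → z' * z' ∉ V1 →
      Module.finrank κ (Wz V1 z') ≤ Module.finrank κ (Wz V1 z)) :
    ∀ y ∈ V1, y * y ∈ Wz V1 z := by
  have h1ne : ∀ a : κ, algebraMap κ A a = 0 → a = 0 := fun a ha =>
    (map_eq_zero_iff _ (algebraMap κ A).injective).mp ha
  have hV1W : ∀ z, V1 ≤ Wz V1 z := le_Wz V1
  have hmW : ∀ z, ∀ v ∈ V1, z * v ∈ Wz V1 z := mul_mem_Wz V1
  have hWmem : ∀ z a, a ∈ Wz V1 z → ∃ v ∈ V1, ∃ w ∈ V1, a = v + z * w := mem_Wz V1
  set V2 := Wz V1 z with hV2def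
  have hV12 : V1 ≤ V2 := hV1W z
  have hzzV2 : z * z ∈ V2 := hmW z z hzV
  have hzV2 : ∀ v ∈ V1, z * v ∈ V2 := hmW z
  set U1 := V1 ⊔ Submodule.span κ {z * z} with hU1def
  have hzzU1 : z * z ∈ U1 := Submodule.mem_sup_right (Submodule.mem_span_singleton_self _)
  have hV1U1 : V1 ≤ U1 := le_sup_left
  intro y hy
  by_contra hyy
  have star : ∀ y' ∈ V1, y' * y' ∉ V2 → z * y' ∈ U1 := by
    intro y' hy' hyy'
    by_contra hcon
    apply hb
    refine ⟨y', z, li6 fun a b c d e f h => ?_⟩
    have hy'z : z * y' ∈ V2 := hzV2 y' hy'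
    have hd : d = 0 := by
      apply cz hyy'
      have e1 : algebraMap κ A d * (y' * y') = -(algebraMap κ A a * 1 + algebraMap κ A b * y' +
        algebraMap κ A c * z + algebraMap κ A e * (z * y') + algebraMap κ A f * (z * z)) := by
        linear_combination h
      rw [e1]
      exact V2.neg_mem (V2.add_mem (V2.add_mem (V2.add_mem (V2.add_mem (cm (hV12 h1V) a)
        (cm (hV12 hy') b)) (cm (hV12 hzV) c)) (cm hy'z e)) (cm hzzV2 f))
    subst hd
    have he : e = 0 := by
      apply cz hcon
      have e1 : algebraMap κ A e * (z * y') = -(algebraMap κ A a * 1 + algebraMap κ A b * y' +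
        algebraMap κ A c * z + algebraMap κ A f * (z * z)) := by
        rw [map_zero] at h
        linear_combination h
      rw [e1]
      exact U1.neg_mem (U1.add_mem (U1.add_mem (U1.add_mem (cm (hV1U1 h1V) a)
        (cm (hV1U1 hy') b)) (cm (hV1U1 hzV) c)) (cm hzzU1 f))
    subst he
    have hf : f = 0 := by
      apply cz hzz
      have e1 : algebraMap κ A f * (z * z) = -(algebraMap κ A a * 1 + algebraMap κ A b * y' +
        algebraMap κ A c * z) := by
        rw [map_zero] at h
        linear_combination h
      rw [e1]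
      exact V1.neg_mem (V1.add_mem (V1.add_mem (cm h1V a) (cm hy' b)) (cm hzV c))
    subst hf
    simp only [map_zero, zero_mul, add_zero, mul_one] at h
    have hb' : b = 0 := by
      apply cz hcon
      have e1 : algebraMap κ A b * (z * y') = -(algebraMap κ A a * z +
        algebraMap κ A c * (z * z)) := by linear_combination z * h
      rw [e1]
      exact U1.neg_mem (U1.add_mem (cm (hV1U1 hzV) a) (cm hzzU1 c))
    subst hb'
    have hc : c = 0 := by
      apply cz hzz
      have e1 : algebraMap κ A c * (z * z) = -(algebraMap κ A a * z) := by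
        rw [map_zero] at h
        linear_combination z * h
      rw [e1]
      exact V1.neg_mem (cm hzV a)
    subst hc
    simp only [map_zero, zero_mul, add_zero] at h
    exact ⟨h1ne a h, rfl, rfl, rfl, rfl, rfl⟩
  have hyz := star y hy hyy
  have hall : ∀ v ∈ V1, z * v ∈ U1 := by
    intro v hv
    -- find t ≠ 0 with (y + t v)^2 ∉ V2
    obtain ⟨t, ht0, ht⟩ : ∃ t : κ, t ≠ 0 ∧
        (y + algebraMap κ A t * v) * (y + algebraMap κ A t * v) ∉ V2 := by
      by_contra hcon
      push Not at hcon
      obtain ⟨l, hl1, hl2⟩ := Submodule.exists_le_ker_of_notMem hyy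
      let P : Polynomial κ := Polynomial.C (l (y * y)) + Polynomial.C (2 * l (y * v)) * Polynomial.X
        + Polynomial.C (l (v * v)) * Polynomial.X ^ 2
      have hP : Polynomial.X * P = 0 := by
        apply Polynomial.funext
        intro t
        by_cases ht : t = 0
        · subst ht; simp
        · have h3 := hl2 (hcon t ht)
          rw [LinearMap.mem_ker] at h3
          have h4 : (y + algebraMap κ A t * v) * (y + algebraMap κ A t * v) =
              y * y + (2 * t) • (y * v) + (t ^ 2) • (v * v) := by
            rw [Algebra.smul_def, Algebra.smul_def, map_mul, map_pow, map_ofNat]; ring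
          rw [h4, map_add, map_add, map_smul, map_smul, smul_eq_mul, smul_eq_mul] at h3
          simp only [P, Polynomial.eval_mul, Polynomial.eval_X, Polynomial.eval_add,
            Polynomial.eval_C, Polynomial.eval_pow, Polynomial.eval_zero]
          linear_combination t * h3
      rcases mul_eq_zero.mp hP with h3 | h3
      · exact Polynomial.X_ne_zero h3
      · have h4 := congrArg (fun p => Polynomial.eval 0 p) h3
        simp only [P, Polynomial.eval_add, Polynomial.eval_C, Polynomial.eval_mul,
          Polynomial.eval_X, Polynomial.eval_pow, Polynomial.eval_zero] at h4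
        apply hl1
        simpa using h4
    have h3 := star (y + algebraMap κ A t * v) (V1.add_mem hy (cm hv t)) ht
    have h4 : z * v = algebraMap κ A t⁻¹ * (z * (y + algebraMap κ A t * v) - z * y) := by
      have : algebraMap κ A t⁻¹ * algebraMap κ A t = 1 := by
        rw [← map_mul, inv_mul_cancel₀ ht0, map_one]
      linear_combination (-(z * v)) * this
    rw [h4]
    exact cm (U1.sub_mem h3 hyz) _
  have hV2U1 : V2 ≤ U1 := by
    intro a ha
    obtain ⟨v, hv, w, hw, rfl⟩ := hWmem z a ha
    exact U1.add_mem (hV1U1 hv) (hall w hw)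
  obtain ⟨c, w, hw, hyzc⟩ := mem_sup_sing.mp hyz
  -- y' = y - c z
  set y' := y - algebraMap κ A c * z with hy'def
  have hy'V : y' ∈ V1 := V1.sub_mem hy (cm hzV c)
  have hy'z : z * y' = w := by rw [hy'def]; linear_combination hyzc
  have hy'y' : y' * y' ∉ V2 := by
    intro hcon
    apply hyy
    have e1 : y * y = y' * y' + algebraMap κ A (2 * c) * (z * y) -
        algebraMap κ A (c ^ 2) * (z * z) := by
      rw [hy'def, map_mul, map_pow, map_ofNat]; ring
    rw [e1]
    exact V2.sub_mem (V2.add_mem hcon (cm (hzV2 y hy) _)) (cm hzzV2 _)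
  have hz'V : y' + z ∈ V1 := V1.add_mem hy'V hzV
  have hz'z' : (y' + z) * (y' + z) ∉ V1 := by
    intro hcon
    apply hy'y'
    have e1 : y' * y' = (y' + z) * (y' + z) - algebraMap κ A 2 * (z * y') - z * z := by
      rw [map_ofNat]; ring
    rw [e1]
    exact V2.sub_mem (V2.sub_mem (hV12 hcon) (cm (hzV2 y' hy'V) 2)) hzzV2
  have hm := hmax (y' + z) hz'V hz'z'
  have hwW : w ∈ Wz V1 (y' + z) := hV1W _ hw
  have hzzW : z * z ∈ Wz V1 (y' + z) := by
    have e1 : z * z = (y' + z) * z - w := by rw [← hy'z]; ring
    rw [e1]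
    exact (Wz V1 (y' + z)).sub_mem (hmW _ z hzV) hwW
  have hyyW : y' * y' ∈ Wz V1 (y' + z) := by
    have e1 : y' * y' = (y' + z) * y' - w := by rw [← hy'z]; ring
    rw [e1]
    exact (Wz V1 (y' + z)).sub_mem (hmW _ y' hy'V) hwW
  have hle : V2 ≤ Wz V1 (y' + z) := by
    refine hV2U1.trans ?_
    rw [hU1def]
    refine sup_le (hV1W _) ?_
    rw [Submodule.span_singleton_le_iff_mem]; exact hzzW
  have hlt : V2 < Wz V1 (y' + z) := lt_of_le_of_ne hle fun h => hy'y' (h ▸ hyyW)
  have := Submodule.finrank_lt_finrank_of_lt hlt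
  omega
/-- Products of elements of `V1` lie in `W_z` for every maximal `z` (characteristic 2). -/
theorem mul_mem_Wz_of_max [Infinite κ] [FiniteDimensional κ A] [Nontrivial A] (h2 : (2 : κ) = 0)
    {V1 : Submodule κ A} (hd : Module.finrank κ V1 = 5)
    (h1V : (1 : A) ∈ V1)
    (hb : ¬ ∃ y z : A, LinearIndependent κ ![1, y, z, y * y, y * z, z * z])
    {z : A} (hzV : z ∈ V1) (hzz : z * z ∉ V1)
    (hmax : ∀ z', z' ∈ V1 → z' * z' ∉ V1 →
      Module.finrank κ (Wz V1 z') ≤ Module.finrank κ (Wz V1 z))
    (h67 : Module.finrank κ (Wz V1 z) ≤ 7) :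
    ∀ u ∈ V1, ∀ v ∈ V1, u * v ∈ Wz V1 z := by
  have h2A : (2 : A) = 0 := by
    have := congrArg (algebraMap κ A) h2
    rwa [map_ofNat, map_zero] at this
  have hV1W : ∀ z, V1 ≤ Wz V1 z := le_Wz V1
  have hmW : ∀ z, ∀ v ∈ V1, z * v ∈ Wz V1 z := mul_mem_Wz V1
  have hWmem : ∀ z a, a ∈ Wz V1 z → ∃ v ∈ V1, ∃ w ∈ V1, a = v + z * w := mem_Wz V1
  have hsq : ∀ y ∈ V1, y * y ∈ Wz V1 z := sq_mem_Wz h1V hb hzV hzz hmax
  set V2 := Wz V1 z with hV2def
  have hV12 : V1 ≤ V2 := hV1W z
  have hzzV2 : z * z ∈ V2 := hmW z z hzV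
  have hzV2 : ∀ v ∈ V1, z * v ∈ V2 := hmW z
  set U1 := V1 ⊔ Submodule.span κ {z * z} with hU1def
  have hzzU1 : z * z ∈ U1 := Submodule.mem_sup_right (Submodule.mem_span_singleton_self _)
  have hV1U1 : V1 ≤ U1 := le_sup_left
  have hU1V2 : U1 ≤ V2 := by
    rw [hU1def]
    refine sup_le hV12 ?_
    rw [Submodule.span_singleton_le_iff_mem]; exact hzzV2
  have hdU1 : Module.finrank κ U1 = 6 := by
    rw [hU1def, finrank_sup_sing hzz, hd]
  have hd2' : 6 ≤ Module.finrank κ V2 := by rw [← hdU1]; exact Submodule.finrank_mono hU1V2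
  intro u hu v hv
  by_contra huv
  by_cases h7 : Module.finrank κ V2 = 7
  · -- r = 2
    obtain ⟨x, hxV, hx⟩ : ∃ x ∈ V1, z * x ∉ U1 := by
      by_contra hcon
      push Not at hcon
      have : V2 ≤ U1 := by
        intro a ha
        obtain ⟨v, hv, w, hw, rfl⟩ := hWmem z a ha
        exact U1.add_mem (hV1U1 hv) (hcon w hw)
      have := Submodule.finrank_mono this
      omega
    by_cases hal : ∃ a ∈ V1, a * a ∉ U1
    · -- (al)
      obtain ⟨a, haV, ha⟩ := hal
      have hV2eq : U1 ⊔ Submodule.span κ {a * a} = V2 := by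
        refine Submodule.eq_of_le_of_finrank_eq (sup_le hU1V2 ?_) ?_
        · rw [Submodule.span_singleton_le_iff_mem]; exact hsq a haV
        · rw [finrank_sup_sing ha, hdU1, h7]
      obtain ⟨l1, hl1, hl1'⟩ := Submodule.exists_le_ker_of_notMem hzz
      obtain ⟨l2, hl2, hl2'⟩ := Submodule.exists_le_ker_of_notMem hx
      have hl1V : ∀ v ∈ V1, l1 v = 0 := fun v hv => LinearMap.mem_ker.mp (hl1' hv)
      have hl2V : ∀ v ∈ V1, l2 v = 0 := fun v hv => LinearMap.mem_ker.mp (hl2' (hV1U1 hv))
      have hl2z : l2 (z * z) = 0 := LinearMap.mem_ker.mp (hl2' hzzU1)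
      -- a good value of t
      obtain ⟨t, ht0, htQ, htD⟩ : ∃ t : κ, t ≠ 0 ∧
          l1 ((z + algebraMap κ A t * u) * (z + algebraMap κ A t * u)) ≠ 0 ∧
          l1 ((z + algebraMap κ A t * u) * z) * l2 ((z + algebraMap κ A t * u) * x) -
          l1 ((z + algebraMap κ A t * u) * x) * l2 ((z + algebraMap κ A t * u) * z) ≠ 0 := by
        by_contra hcon
        push Not at hcon
        let Q : Polynomial κ := Polynomial.C (l1 (z * z)) +
          Polynomial.C (l1 (u * u)) * Polynomial.X ^ 2
        let D1 : Polynomial κ := Polynomial.C (l1 (z * z)) + Polynomial.C (l1 (u * z)) * Polynomial.X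
        let D2 : Polynomial κ := Polynomial.C (l2 (z * x)) + Polynomial.C (l2 (u * x)) * Polynomial.X
        let D3 : Polynomial κ := Polynomial.C (l1 (z * x)) + Polynomial.C (l1 (u * x)) * Polynomial.X
        let D4 : Polynomial κ := Polynomial.C (l2 (z * z)) + Polynomial.C (l2 (u * z)) * Polynomial.X
        have hP : Polynomial.X * (Q * (D1 * D2 - D3 * D4)) = 0 := by
          apply Polynomial.funext
          intro t
          have e0 : l1 ((z + algebraMap κ A t * u) * (z + algebraMap κ A t * u)) = Q.eval t := by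
            have e : (z + algebraMap κ A t * u) * (z + algebraMap κ A t * u) =
                z * z + (t ^ 2) • (u * u) := by
              rw [Algebra.smul_def, map_pow]
              linear_combination (algebraMap κ A t * z * u) * h2A
            rw [e, map_add, map_smul, smul_eq_mul]
            simp only [Q, Polynomial.eval_mul, Polynomial.eval_X, Polynomial.eval_add,
              Polynomial.eval_C, Polynomial.eval_pow]
            ring
          have elin : ∀ (l : A →ₗ[κ] κ) (b : A), l ((z + algebraMap κ A t * u) * b) =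
              l (z * b) + l (u * b) * t := by
            intro l b
            have e : (z + algebraMap κ A t * u) * b = z * b + t • (u * b) := by
              rw [Algebra.smul_def]; ring
            rw [e, map_add, map_smul, smul_eq_mul]; ring
          by_cases ht : t = 0
          · subst ht; simp
          · by_cases hq : Q.eval t = 0
            · simp [hq]
            · have h3 := hcon t ht (by rw [e0]; exact hq)
              rw [elin, elin, elin, elin] at h3
              simp only [D1, D2, D3, D4, Polynomial.eval_mul, Polynomial.eval_X,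
                Polynomial.eval_add, Polynomial.eval_sub, Polynomial.eval_C,
                Polynomial.eval_zero]
              rw [h3, mul_zero, mul_zero]
        rcases mul_eq_zero.mp hP with h3 | h3
        · exact Polynomial.X_ne_zero h3
        · have h4 := congrArg (fun p => Polynomial.eval 0 p) h3
          simp only [Q, D1, D2, D3, D4, Polynomial.eval_add, Polynomial.eval_C,
            Polynomial.eval_mul, Polynomial.eval_sub,
            Polynomial.eval_X, Polynomial.eval_pow, Polynomial.eval_zero] at h4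
          rw [hl2z] at h4
          have h5 : l1 (z * z) * (l1 (z * z) * l2 (z * x)) = 0 := by
            simpa using h4
          rcases mul_eq_zero.mp h5 with h6 | h6
          · exact hl1 h6
          · rcases mul_eq_zero.mp h6 with h6 | h6
            · exact hl1 h6
            · exact hl2 h6
      set zt := z + algebraMap κ A t * u with hztdef
      have hztV : zt ∈ V1 := V1.add_mem hzV (cm hu t)
      have hztzt : zt * zt ∉ V1 := fun h => htQ (hl1V _ h)
      have hz1 : zt * z ∉ V1 := by
        intro h
        apply htD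
        rw [hl1V _ h, hl2V _ h]; ring
      have hz2 : zt * x ∉ V1 ⊔ Submodule.span κ {zt * z} := by
        intro h
        obtain ⟨c, w, hw, he⟩ := mem_sup_sing.mp h
        apply htD
        rw [he, ← Algebra.smul_def, map_add, map_add, map_smul, map_smul, hl1V w hw, hl2V w hw,
          smul_eq_mul, smul_eq_mul]
        ring
      have hle7 : 7 ≤ Module.finrank κ (Wz V1 zt) := by
        have h3 : Module.finrank κ (V1 ⊔ Submodule.span κ {zt * z} ⊔ Submodule.span κ {zt * x} :
            Submodule κ A) = 7 := by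
          rw [finrank_sup_sing hz2, finrank_sup_sing hz1, hd]
        rw [← h3]
        refine Submodule.finrank_mono (sup_le (sup_le (hV1W _) ?_) ?_)
        · rw [Submodule.span_singleton_le_iff_mem]; exact hmW _ z hzV
        · rw [Submodule.span_singleton_le_iff_mem]; exact hmW _ x hxV
      have hle7' := hmax zt hztV hztzt
      have hmaxt : ∀ z', z' ∈ V1 → z' * z' ∉ V1 →
          Module.finrank κ (Wz V1 z') ≤ Module.finrank κ (Wz V1 zt) := by
        intro z' h3 h4
        have := hmax z' h3 h4
        omega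
      have hsqt := sq_mem_Wz h1V hb hztV hztzt hmaxt
      have hV2t : V2 = Wz V1 zt := by
        refine Submodule.eq_of_le_of_finrank_eq ?_ (by omega)
        rw [← hV2eq, hU1def]
        refine sup_le (sup_le (hV1W _) ?_) ?_
        · rw [Submodule.span_singleton_le_iff_mem]; exact hsqt z hzV
        · rw [Submodule.span_singleton_le_iff_mem]; exact hsqt a haV
      apply huv
      have h3 : zt * v ∈ V2 := by rw [hV2t]; exact hmW _ v hv
      have h4 : u * v = algebraMap κ A t⁻¹ * (zt * v - z * v) := by
        have : algebraMap κ A t⁻¹ * algebraMap κ A t = 1 := by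
          rw [← map_mul, inv_mul_cancel₀ ht0, map_one]
        rw [hztdef]
        linear_combination (-(u * v)) * this
      rw [h4]
      exact cm (V2.sub_mem h3 (hzV2 v hv)) _
    · -- (be)
      push Not at hal
      obtain ⟨x', u', hx'V, hu'V, hx', hxu'⟩ : ∃ x' u' : A, x' ∈ V1 ∧ u' ∈ V1 ∧ z * x' ∉ U1 ∧
          x' * u' ∉ V2 := by
        by_cases c1 : x * u ∈ V2
        · by_cases c2 : x * v ∈ V2
          · by_cases c3 : z * u ∈ U1
            · by_cases c4 : z * v ∈ U1
              · refine ⟨x + u, v, V1.add_mem hxV hu, hv, ?_, ?_⟩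
                · intro h
                  apply hx
                  have e : z * x = z * (x + u) - z * u := by ring
                  rw [e]
                  exact U1.sub_mem h c3
                · intro h
                  apply huv
                  have e : u * v = (x + u) * v - x * v := by ring
                  rw [e]
                  exact V2.sub_mem h c2
              · exact ⟨v, u, hv, hu, c4, by rw [mul_comm]; exact huv⟩
            · exact ⟨u, v, hu, hv, c3, huv⟩
          · exact ⟨x, v, hxV, hv, hx, c2⟩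
        · exact ⟨x, u, hxV, hu, hx, c1⟩
      obtain ⟨c0, w0, hw0, he0⟩ := mem_sup_sing.mp (hal x' hx'V)
      obtain ⟨s, hs0, hs⟩ := exists_scalar c0
      set zs := z + algebraMap κ A s * x' with hzsdef
      have hzsV : zs ∈ V1 := V1.add_mem hzV (cm hx'V s)
      have hsqs : zs * zs = algebraMap κ A (1 + s ^ 2 * c0) * (z * z) +
          algebraMap κ A (s ^ 2) * w0 := by
        rw [hzsdef, map_add, map_mul, map_pow, map_one]
        linear_combination (algebraMap κ A s) ^ 2 * he0 + (algebraMap κ A s * z * x') * h2A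
      have hsinv : algebraMap κ A (1 + s ^ 2 * c0)⁻¹ * algebraMap κ A (1 + s ^ 2 * c0) = 1 := by
        rw [← map_mul, inv_mul_cancel₀ hs, map_one]
      have hzz' : z * z = algebraMap κ A (1 + s ^ 2 * c0)⁻¹ *
          (zs * zs - algebraMap κ A (s ^ 2) * w0) := by
        rw [hsqs]
        linear_combination (-(z * z)) * hsinv
      have hzszs : zs * zs ∉ V1 := by
        intro h
        apply hzz
        rw [hzz']
        exact cm (V1.sub_mem h (cm hw0 _)) _
      have hV2eq : U1 ⊔ Submodule.span κ {z * x'} = V2 := by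
        refine Submodule.eq_of_le_of_finrank_eq (sup_le hU1V2 ?_) ?_
        · rw [Submodule.span_singleton_le_iff_mem]; exact hzV2 x' hx'V
        · rw [finrank_sup_sing hx', hdU1, h7]
      have hzzW : z * z ∈ Wz V1 zs := by
        rw [hzz']
        exact cm ((Wz V1 zs).sub_mem (hmW _ _ hzsV) (cm (hV1W _ hw0) _)) _
      have hzxW : z * x' ∈ Wz V1 zs := by
        have e : z * x' = zs * x' - algebraMap κ A s * w0 -
            algebraMap κ A s * (algebraMap κ A c0 * (z * z)) := by
          rw [hzsdef]
          linear_combination (-(algebraMap κ A s)) * he0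
        rw [e]
        exact (Wz V1 zs).sub_mem ((Wz V1 zs).sub_mem (hmW _ _ hx'V) (cm (hV1W _ hw0) _))
          (cm (cm hzzW _) _)
      have hle : V2 ≤ Wz V1 zs := by
        rw [← hV2eq, hU1def]
        refine sup_le (sup_le (hV1W _) ?_) ?_
        · rw [Submodule.span_singleton_le_iff_mem]; exact hzzW
        · rw [Submodule.span_singleton_le_iff_mem]; exact hzxW
      have hxuW : x' * u' ∈ Wz V1 zs := by
        have e : x' * u' = algebraMap κ A s⁻¹ * (zs * u' - z * u') := by
          have : algebraMap κ A s⁻¹ * algebraMap κ A s = 1 := by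
            rw [← map_mul, inv_mul_cancel₀ hs0, map_one]
          rw [hzsdef]
          linear_combination (-(x' * u')) * this
        rw [e]
        exact cm ((Wz V1 zs).sub_mem (hmW _ _ hu'V) (hle (hzV2 u' hu'V))) _
      have hlt : V2 < Wz V1 zs := lt_of_le_of_ne hle fun h => hxu' (h ▸ hxuW)
      have h3 := Submodule.finrank_lt_finrank_of_lt hlt
      have h4 := hmax zs hzsV hzszs
      omega
  · -- r = 1
    have hVU : U1 = V2 := Submodule.eq_of_le_of_finrank_eq hU1V2 (by omega)
    have hmem2 : ∀ a ∈ V2, ∃ c : κ, ∃ w ∈ V1, a = w + algebraMap κ A c * (z * z) := by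
      intro a ha
      rw [← hVU] at ha
      exact mem_sup_sing.mp ha
    obtain ⟨c1, w1, hw1, he1⟩ := hmem2 _ (hzV2 u hu)
    obtain ⟨c2, w2, hw2, he2⟩ := hmem2 _ (hzV2 v hv)
    set u' := u - algebraMap κ A c1 * z with hu'def
    set v' := v - algebraMap κ A c2 * z with hv'def
    have hu'V : u' ∈ V1 := V1.sub_mem hu (cm hzV c1)
    have hv'V : v' ∈ V1 := V1.sub_mem hv (cm hzV c2)
    have hzu' : z * u' = w1 := by rw [hu'def]; linear_combination he1
    have hzv' : z * v' = w2 := by rw [hv'def]; linear_combination he2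
    have huv' : u' * v' ∉ V2 := by
      intro h
      apply huv
      have e : u * v = u' * v' + algebraMap κ A c1 * (z * v) +
          algebraMap κ A c2 * (z * u) - algebraMap κ A c1 * (algebraMap κ A c2 * (z * z)) := by
        rw [hu'def, hv'def]; ring
      rw [e]
      exact V2.sub_mem (V2.add_mem (V2.add_mem h (cm (hzV2 v hv) _)) (cm (hzV2 u hu) _))
        (cm (cm hzzV2 _) _)
    obtain ⟨c3, w3, hw3, he3⟩ := hmem2 _ (hsq u' hu'V)
    obtain ⟨s, hs0, hs⟩ := exists_scalar c3
    set zs := z + algebraMap κ A s * u' with hzsdef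
    have hzsV : zs ∈ V1 := V1.add_mem hzV (cm hu'V s)
    have hsqs : zs * zs = algebraMap κ A (1 + s ^ 2 * c3) * (z * z) +
        algebraMap κ A (s ^ 2) * w3 := by
      rw [hzsdef, map_add, map_mul, map_pow, map_one]
      linear_combination (algebraMap κ A s) ^ 2 * he3 + (algebraMap κ A s * z * u') * h2A
    have hsinv : algebraMap κ A (1 + s ^ 2 * c3)⁻¹ * algebraMap κ A (1 + s ^ 2 * c3) = 1 := by
      rw [← map_mul, inv_mul_cancel₀ hs, map_one]
    have hzz' : z * z = algebraMap κ A (1 + s ^ 2 * c3)⁻¹ *
        (zs * zs - algebraMap κ A (s ^ 2) * w3) := by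
      rw [hsqs]
      linear_combination (-(z * z)) * hsinv
    have hzszs : zs * zs ∉ V1 := by
      intro h
      apply hzz
      rw [hzz']
      exact cm (V1.sub_mem h (cm hw3 _)) _
    have hzzW : z * z ∈ Wz V1 zs := by
      rw [hzz']
      exact cm ((Wz V1 zs).sub_mem (hmW _ _ hzsV) (cm (hV1W _ hw3) _)) _
    have hle : V2 ≤ Wz V1 zs := by
      rw [← hVU, hU1def]
      refine sup_le (hV1W _) ?_
      rw [Submodule.span_singleton_le_iff_mem]; exact hzzW
    have huvW : u' * v' ∈ Wz V1 zs := by
      have e : u' * v' = algebraMap κ A s⁻¹ * (zs * v' - z * v') := by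
        have : algebraMap κ A s⁻¹ * algebraMap κ A s = 1 := by
          rw [← map_mul, inv_mul_cancel₀ hs0, map_one]
        rw [hzsdef]
        linear_combination (-(u' * v')) * this
      rw [e]
      exact cm ((Wz V1 zs).sub_mem (hmW _ _ hv'V) (hle (hzV2 v' hv'V))) _
    have hlt : V2 < Wz V1 zs := lt_of_le_of_ne hle fun h => huv' (h ▸ huvW)
    have h3 := Submodule.finrank_lt_finrank_of_lt hlt
    have h4 := hmax zs hzsV hzszs
    omega

end LI2B

open LI LI2B in
/-- MODULE LI2-B (file L/LI2B.lean). -/
theorem li2_caseB {κ : Type u} [Field κ] [Infinite κ] (h2 : (2 : κ) = 0) {A : Type u} [CommRing A]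
    [Algebra κ A] (hA : Module.finrank κ A = 8) (V1 : Submodule κ A) (h1 : (1 : A) ∈ V1)
    (hd : Module.finrank κ V1 = 5)
    (hgen : ∀ W : Submodule κ A, (1 : A) ∈ W → (∀ v ∈ V1, ∀ w ∈ W, v * w ∈ W) → W = ⊤)
    (hsq : ∃ z ∈ V1, z * z ∉ V1) :
    (∃ y z : A, LinearIndependent κ ![1, y, z, y * y, y * z, z * z]) ∨
    (∃ x y z : A, LinearIndependent κ ![1, x, y, z, z * z, y * z, x * z]) := by
  have hfd : FiniteDimensional κ A := FiniteDimensional.of_finrank_pos (by omega)
  have hnt : Nontrivial A := by
    by_contra h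
    rw [not_nontrivial_iff_subsingleton] at h
    rw [Module.finrank_zero_of_subsingleton] at hA
    omega
  have h1V : (1 : A) ∈ V1 := h1
  have hd1 : Module.finrank κ V1 = 5 := hd
  have hclosed : ∀ W : Submodule κ A, (1 : A) ∈ W → Module.finrank κ W < 8 →
      ¬ ∀ v ∈ V1, ∀ w ∈ W, v * w ∈ W := by
    intro W h1W hW hc
    have := hgen W h1W hc
    rw [this, finrank_top] at hW
    omega
  have h1ne : ∀ a : κ, algebraMap κ A a = 0 → a = 0 := fun a ha =>
    (map_eq_zero_iff _ (algebraMap κ A).injective).mp ha
  have hV1W : ∀ z, V1 ≤ Wz V1 z := le_Wz V1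
  have hmW : ∀ z, ∀ v ∈ V1, z * v ∈ Wz V1 z := mul_mem_Wz V1
  have hWmem : ∀ z a, a ∈ Wz V1 z → ∃ v ∈ V1, ∃ w ∈ V1, a = v + z * w := mem_Wz V1
  -- maximal z
  obtain ⟨z, ⟨hzV, hzz⟩, hmax⟩ : ∃ z, (z ∈ V1 ∧ z * z ∉ V1) ∧ ∀ z', z' ∈ V1 → z' * z' ∉ V1 →
      Module.finrank κ (Wz V1 z') ≤ Module.finrank κ (Wz V1 z) := by
    obtain ⟨z0, hz0⟩ := hsq
    let S : Set ℕ := {n | ∃ z, (z ∈ V1 ∧ z * z ∉ V1) ∧ Module.finrank κ (Wz V1 z) = n}
    have hS : S.Nonempty := ⟨_, z0, hz0, rfl⟩
    have hb : BddAbove S := ⟨8, by
      rintro n ⟨z, -, rfl⟩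
      rw [← hA]; exact Submodule.finrank_le _⟩
    obtain ⟨z, hz, hz2⟩ := Nat.sSup_mem hS hb
    exact ⟨z, hz, fun z' h1 h2 => by rw [hz2]; exact le_csSup hb ⟨z', ⟨h1, h2⟩, rfl⟩⟩
  by_cases hb : ∃ y z : A, LinearIndependent κ ![1, y, z, y * y, y * z, z * z]
  · exact Or.inl hb
  right
  set V2 := Wz V1 z with hV2def
  have hV12 : V1 ≤ V2 := hV1W z
  have hzzV2 : z * z ∈ V2 := hmW z z hzV
  have hzV2 : ∀ v ∈ V1, z * v ∈ V2 := hmW z
  set U1 := V1 ⊔ Submodule.span κ {z * z} with hU1def
  have hU1V2 : U1 ≤ V2 := by
    rw [hU1def]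
    refine sup_le hV12 ?_
    rw [Submodule.span_singleton_le_iff_mem]; exact hzzV2
  have hzzU1 : z * z ∈ U1 := Submodule.mem_sup_right (Submodule.mem_span_singleton_self _)
  have hV1U1 : V1 ≤ U1 := le_sup_left
  have hdU1 : Module.finrank κ U1 = 6 := by
    have h3 : V1 < U1 := lt_of_le_of_ne hV1U1 fun h => hzz (h ▸ hzzU1)
    have h4 := Submodule.finrank_lt_finrank_of_lt h3
    have h5 : Module.finrank κ U1 ≤ Module.finrank κ V1 + 1 := finrank_sup_sing_le V1 (z * z)
    omega
  have hd2 : Module.finrank κ V2 ≤ 8 := by rw [← hA]; exact Submodule.finrank_le _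
  have hd2' : 6 ≤ Module.finrank κ V2 := by rw [← hdU1]; exact Submodule.finrank_mono hU1V2
  by_cases h8 : Module.finrank κ V2 = 8
  · -- r = 3
    obtain ⟨y, hyV, hy⟩ : ∃ y ∈ V1, z * y ∉ U1 := by
      by_contra hcon
      push Not at hcon
      have : V2 ≤ U1 := by
        intro a ha
        obtain ⟨v, hv, w, hw, rfl⟩ := hWmem z a ha
        exact U1.add_mem (hV1U1 hv) (hcon w hw)
      have := Submodule.finrank_mono this
      omega
    set U2 := U1 ⊔ Submodule.span κ {z * y} with hU2def
    have hdU2 : Module.finrank κ U2 ≤ 7 := by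
      have : Module.finrank κ U2 ≤ Module.finrank κ U1 + 1 := finrank_sup_sing_le U1 (z * y)
      omega
    obtain ⟨x', hxV', hx'⟩ : ∃ x' ∈ V1, z * x' ∉ U2 := by
      by_contra hcon
      push Not at hcon
      have : V2 ≤ U2 := by
        intro a ha
        obtain ⟨v, hv, w, hw, rfl⟩ := hWmem z a ha
        exact U2.add_mem ((le_sup_left : U1 ≤ U2) (hV1U1 hv)) (hcon w hw)
      have := Submodule.finrank_mono this
      omega
    -- independence mod V1
    have hind : ∀ e f g : κ, algebraMap κ A e * (z * z) + algebraMap κ A f * (y * z) +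
        algebraMap κ A g * (x' * z) ∈ V1 → e = 0 ∧ f = 0 ∧ g = 0 := by
      intro e f g h
      have hg : g = 0 := by
        apply cz hx'
        have e1 : algebraMap κ A g * (z * x') = (algebraMap κ A e * (z * z) +
          algebraMap κ A f * (y * z) + algebraMap κ A g * (x' * z)) -
          algebraMap κ A e * (z * z) - algebraMap κ A f * (z * y) := by ring
        rw [e1]
        refine U2.sub_mem (U2.sub_mem ((le_sup_left : U1 ≤ U2) (hV1U1 h))
          ((le_sup_left : U1 ≤ U2) (cm hzzU1 e))) (cm ?_ f)
        exact Submodule.mem_sup_right (Submodule.mem_span_singleton_self _)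
      subst hg
      have hf : f = 0 := by
        apply cz hy
        have e1 : algebraMap κ A f * (z * y) = (algebraMap κ A e * (z * z) +
          algebraMap κ A f * (y * z) + algebraMap κ A 0 * (x' * z)) -
          algebraMap κ A e * (z * z) := by rw [map_zero]; ring
        rw [e1]
        exact U1.sub_mem (hV1U1 h) (cm hzzU1 e)
      subst hf
      have he : e = 0 := by
        apply cz hzz
        simpa using h
      exact ⟨he, rfl, rfl⟩
    refine ⟨x', y, z, li7 fun a b c d e f g h => ?_⟩
    obtain ⟨he, hf, hg⟩ := hind e f g (by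
      have e1 : algebraMap κ A e * (z * z) + algebraMap κ A f * (y * z) +
        algebraMap κ A g * (x' * z) = -(algebraMap κ A a * 1 + algebraMap κ A b * x' +
          algebraMap κ A c * y + algebraMap κ A d * z) := by linear_combination h
      rw [e1]
      exact V1.neg_mem (V1.add_mem (V1.add_mem (V1.add_mem (cm h1V a) (cm hxV' b)) (cm hyV c))
        (cm hzV d)))
    subst he hf hg
    simp only [map_zero, zero_mul, add_zero, mul_one] at h
    obtain ⟨hd, hc, hb'⟩ := hind d c b (by
      have e1 : algebraMap κ A d * (z * z) + algebraMap κ A c * (y * z) +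
        algebraMap κ A b * (x' * z) = -(algebraMap κ A a * z) := by linear_combination z * h
      rw [e1]
      exact V1.neg_mem (cm hzV a))
    subst hd hc hb'
    simp only [map_zero, zero_mul, add_zero] at h
    exact ⟨h1ne a h, rfl, rfl, rfl, rfl, rfl, rfl⟩
  -- CLAIM
  have claim : ∀ u ∈ V1, ∀ v ∈ V1, u * v ∈ V2 :=
    mul_mem_Wz_of_max h2 hd h1V hb hzV hzz hmax (by rw [← hV2def]; omega)
  -- small linear algebra: y outside the span of 1, x, z
  have hspan : ∀ p q r : A, Module.finrank κ (Submodule.span κ ({p, q, r} : Set A)) ≤ 3 := by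
    intro p q r
    classical
    have h3 := finrank_span_finset_le_card (R := κ) ({p, q, r} : Finset A)
    have h4 : (({p, q, r} : Finset A)).card ≤ 3 := Finset.card_le_three
    have h5 : (↑({p, q, r} : Finset A) : Set A) = {p, q, r} := by simp
    rw [h5] at h3
    exact h3.trans h4
  have hnot : ∀ p q r s : A, s ∉ Submodule.span κ ({p, q, r} : Set A) → ∀ a b c d : κ,
      algebraMap κ A a * p + algebraMap κ A b * q + algebraMap κ A c * r +
        algebraMap κ A d * s = 0 → d = 0 := by
    intro p q r s hs a b c d h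
    apply cz hs
    have e1 : algebraMap κ A d * s = -(algebraMap κ A a * p + algebraMap κ A b * q +
      algebraMap κ A c * r) := by linear_combination h
    rw [e1]
    refine Submodule.neg_mem _ (Submodule.add_mem _ (Submodule.add_mem _ (cm ?_ a) (cm ?_ b))
      (cm ?_ c)) <;> apply Submodule.subset_span <;> simp
  by_cases h7 : Module.finrank κ V2 = 7
  · -- r = 2
    have hnz : ¬ ∀ v ∈ V1, z * z * v ∈ V2 := by
      intro hcon
      refine hclosed V2 (hV12 h1V) (by omega) ?_
      intro u hu a ha
      obtain ⟨v, hv, w, hw, rfl⟩ := hWmem z a ha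
      obtain ⟨v', hv', w', hw', he⟩ := hWmem z (u * w) (claim u hu w hw)
      have e1 : u * (v + z * w) = u * v + z * v' + z * z * w' := by
        linear_combination z * he
      rw [e1]
      exact V2.add_mem (V2.add_mem (claim u hu v hv) (hzV2 v' hv')) (hcon w' hw')
    by_cases hzzz : z * z * z ∉ V2
    · -- (i)
      obtain ⟨x', hxV', hx'⟩ : ∃ x' ∈ V1, z * x' ∉ U1 := by
        by_contra hcon
        push Not at hcon
        have : V2 ≤ U1 := by
          intro a ha
          obtain ⟨v, hv, w, hw, rfl⟩ := hWmem z a ha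
          exact U1.add_mem (hV1U1 hv) (hcon w hw)
        have := Submodule.finrank_mono this
        omega
      obtain ⟨y, hyV, hy⟩ : ∃ y ∈ V1, y ∉ Submodule.span κ ({1, x', z} : Set A) :=
        exists_notMem (lt_of_le_of_lt (hspan 1 x' z) (by omega))
      refine ⟨x', z * z + y, z, li7 fun a b c d e f g h => ?_⟩
      have hf : f = 0 := by
        apply cz hzzz
        have e1 : algebraMap κ A f * (z * z * z) = -(algebraMap κ A a * 1 +
            algebraMap κ A b * x' + algebraMap κ A c * (z * z + y) + algebraMap κ A d * z +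
            algebraMap κ A e * (z * z) + algebraMap κ A f * (z * y) +
            algebraMap κ A g * (z * x')) := by linear_combination h
        rw [e1]
        exact V2.neg_mem (V2.add_mem (V2.add_mem (V2.add_mem (V2.add_mem (V2.add_mem
          (V2.add_mem (cm (hV12 h1V) a) (cm (hV12 hxV') b)) (cm (V2.add_mem hzzV2 (hV12 hyV)) c))
          (cm (hV12 hzV) d)) (cm hzzV2 e)) (cm (hzV2 y hyV) f)) (cm (hzV2 x' hxV') g))
      subst hf
      simp only [map_zero, zero_mul, add_zero, mul_one] at h
      have hg : g = 0 := by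
        apply cz hx'
        have e1 : algebraMap κ A g * (z * x') = -(algebraMap κ A a * 1 +
            algebraMap κ A b * x' + algebraMap κ A c * (z * z + y) + algebraMap κ A d * z +
            algebraMap κ A e * (z * z)) := by linear_combination h
        rw [e1]
        exact U1.neg_mem (U1.add_mem (U1.add_mem (U1.add_mem (U1.add_mem (cm (hV1U1 h1V) a)
          (cm (hV1U1 hxV') b)) (cm (U1.add_mem hzzU1 (hV1U1 hyV)) c)) (cm (hV1U1 hzV) d))
          (cm hzzU1 e))
      subst hg
      simp only [map_zero, zero_mul, add_zero] at h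
      have hce : c + e = 0 := by
        apply cz hzz
        have e1 : algebraMap κ A (c + e) * (z * z) = -(algebraMap κ A a * 1 +
            algebraMap κ A b * x' + algebraMap κ A c * y + algebraMap κ A d * z) := by
          rw [map_add]; linear_combination h
        rw [e1]
        exact V1.neg_mem (V1.add_mem (V1.add_mem (V1.add_mem (cm h1V a) (cm hxV' b)) (cm hyV c))
          (cm hzV d))
      have hec : e = -c := by linear_combination hce
      subst hec
      rw [map_neg] at h
      have h3 : algebraMap κ A a * 1 + algebraMap κ A b * x' + algebraMap κ A d * z +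
        algebraMap κ A c * y = 0 := by linear_combination h
      have hc := hnot 1 x' z y hy a b d c h3
      subst hc
      simp only [map_zero, zero_mul, add_zero, mul_one] at h3
      have hb' : b = 0 := by
        apply cz hx'
        have e1 : algebraMap κ A b * (z * x') = -(algebraMap κ A a * z +
          algebraMap κ A d * (z * z)) := by linear_combination z * h3
        rw [e1]
        exact U1.neg_mem (U1.add_mem (cm (hV1U1 hzV) a) (cm hzzU1 d))
      subst hb'
      simp only [map_zero, zero_mul, add_zero] at h3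
      have hd : d = 0 := by
        apply cz hzz
        have e1 : algebraMap κ A d * (z * z) = -(algebraMap κ A a * z) := by
          linear_combination z * h3
        rw [e1]
        exact V1.neg_mem (cm hzV a)
      subst hd
      simp only [map_zero, zero_mul, add_zero] at h3
      exact ⟨h1ne a h3, rfl, rfl, rfl, by simp, rfl, rfl⟩
    · -- (ii)
      rw [not_not] at hzzz
      push Not at hnz
      obtain ⟨x', hxV', hx'⟩ := hnz
      have hind : ∀ e g : κ, algebraMap κ A e * (z * z) + algebraMap κ A g * (z * x') ∈ V1 →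
          e = 0 ∧ g = 0 := by
        intro e g h
        have hg : g = 0 := by
          apply cz hx'
          have e1 : algebraMap κ A g * (z * z * x') = z * (algebraMap κ A e * (z * z) +
            algebraMap κ A g * (z * x')) - algebraMap κ A e * (z * z * z) := by ring
          rw [e1]
          exact V2.sub_mem (hzV2 _ h) (cm hzzz e)
        subst hg
        refine ⟨cz hzz ?_, rfl⟩
        simpa using h
      obtain ⟨y, hyV, hy⟩ : ∃ y ∈ V1, y ∉ Submodule.span κ ({1, x', z} : Set A) :=
        exists_notMem (lt_of_le_of_lt (hspan 1 x' z) (by omega))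
      refine ⟨x', z * x' + y, z, li7 fun a b c d e f g h => ?_⟩
      have hf : f = 0 := by
        apply cz hx'
        have e1 : algebraMap κ A f * (z * z * x') = -(algebraMap κ A a * 1 +
            algebraMap κ A b * x' + algebraMap κ A c * (z * x' + y) + algebraMap κ A d * z +
            algebraMap κ A e * (z * z) + algebraMap κ A f * (z * y) +
            algebraMap κ A g * (z * x')) := by linear_combination h
        rw [e1]
        exact V2.neg_mem (V2.add_mem (V2.add_mem (V2.add_mem (V2.add_mem (V2.add_mem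
          (V2.add_mem (cm (hV12 h1V) a) (cm (hV12 hxV') b))
          (cm (V2.add_mem (hzV2 x' hxV') (hV12 hyV)) c))
          (cm (hV12 hzV) d)) (cm hzzV2 e)) (cm (hzV2 y hyV) f)) (cm (hzV2 x' hxV') g))
      subst hf
      simp only [map_zero, zero_mul, add_zero, mul_one] at h
      obtain ⟨he, hcg⟩ := hind e (c + g) (by
        have e1 : algebraMap κ A e * (z * z) + algebraMap κ A (c + g) * (z * x') =
            -(algebraMap κ A a * 1 + algebraMap κ A b * x' + algebraMap κ A c * y +
            algebraMap κ A d * z) := by rw [map_add]; linear_combination h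
        rw [e1]
        exact V1.neg_mem (V1.add_mem (V1.add_mem (V1.add_mem (cm h1V a) (cm hxV' b)) (cm hyV c))
          (cm hzV d)))
      subst he
      have hgc : g = -c := by linear_combination hcg
      subst hgc
      rw [map_neg] at h
      have h3 : algebraMap κ A a * 1 + algebraMap κ A b * x' + algebraMap κ A d * z +
        algebraMap κ A c * y = 0 := by
          rw [map_zero] at h
          linear_combination h
      have hc := hnot 1 x' z y hy a b d c h3
      subst hc
      simp only [map_zero, zero_mul, add_zero, mul_one] at h3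
      obtain ⟨hd, hb'⟩ := hind d b (by
        have e1 : algebraMap κ A d * (z * z) + algebraMap κ A b * (z * x') =
          -(algebraMap κ A a * z) := by linear_combination z * h3
        rw [e1]
        exact V1.neg_mem (cm hzV a))
      subst hd hb'
      simp only [map_zero, zero_mul, add_zero] at h3
      exact ⟨h1ne a h3, rfl, rfl, rfl, rfl, rfl, by simp⟩
  · -- r = 1
    have h6 : Module.finrank κ V2 = 6 := by omega
    have hVU : U1 = V2 := Submodule.eq_of_le_of_finrank_eq hU1V2 (by omega)
    have hzv : ∀ v ∈ V1, ∃ c : κ, ∃ w ∈ V1, z * v = w + algebraMap κ A c * (z * z) := by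
      intro v hv
      have := hzV2 v hv
      rw [← hVU] at this
      exact mem_sup_sing.mp this
    have hmem2 : ∀ a ∈ V2, ∃ c : κ, ∃ w ∈ V1, a = w + algebraMap κ A c * (z * z) := by
      intro a ha
      rw [← hVU] at ha
      exact mem_sup_sing.mp ha
    have hzzz : z * z * z ∉ V2 := by
      intro hcon
      refine hclosed V2 (hV12 h1V) (by omega) ?_
      intro u hu a ha
      obtain ⟨c, v, hv, rfl⟩ := hmem2 a ha
      obtain ⟨c', v', hv', he⟩ := hzv u hu
      have e1 : u * (v + algebraMap κ A c * (z * z)) = u * v + algebraMap κ A c * (z * v') +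
          algebraMap κ A (c * c') * (z * z * z) := by
        rw [map_mul]; linear_combination (algebraMap κ A c * z) * he
      rw [e1]
      exact V2.add_mem (V2.add_mem (claim u hu v hv) (cm (hzV2 v' hv') c)) (cm hcon _)
    set V3 := V2 ⊔ Submodule.span κ {z * z * z} with hV3def
    have hV23 : V2 ≤ V3 := le_sup_left
    have hzzzV3 : z * z * z ∈ V3 := Submodule.mem_sup_right (Submodule.mem_span_singleton_self _)
    have hd3 : Module.finrank κ V3 ≤ 7 := by
      have : Module.finrank κ V3 ≤ Module.finrank κ V2 + 1 := finrank_sup_sing_le V2 _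
      omega
    have hzzv : ∀ v ∈ V1, z * z * v ∈ V3 := by
      intro v hv
      obtain ⟨c, w, hw, he⟩ := hzv v hv
      have e1 : z * z * v = z * w + algebraMap κ A c * (z * z * z) := by
        linear_combination z * he
      rw [e1]
      exact V3.add_mem (hV23 (hzV2 w hw)) (cm hzzzV3 c)
    have hz4 : z * z * z * z ∉ V3 := by
      intro hcon
      refine hclosed V3 (hV23 (hV12 h1V)) (by omega) ?_
      intro u hu a ha
      obtain ⟨c, b, hb', rfl⟩ := mem_sup_sing.mp ha
      obtain ⟨c', v, hv, rfl⟩ := hmem2 b hb'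
      obtain ⟨c'', v', hv', he⟩ := hzv u hu
      have e1 : u * (v + algebraMap κ A c' * (z * z) + algebraMap κ A c * (z * z * z)) =
          u * v + algebraMap κ A c' * (z * z * u) + algebraMap κ A c * (z * z * v') +
          algebraMap κ A (c * c'') * (z * z * z * z) := by
        rw [map_mul]; linear_combination (algebraMap κ A c * z * z) * he
      rw [e1]
      exact V3.add_mem (V3.add_mem (V3.add_mem (hV23 (claim u hu v hv)) (cm (hzzv u hu) _))
        (cm (hzzv v' hv') _)) (cm hcon _)
    obtain ⟨x', hxV', hx'⟩ : ∃ x' ∈ V1, x' ∉ Submodule.span κ ({1, 1, z} : Set A) :=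
      exists_notMem (lt_of_le_of_lt (hspan 1 1 z) (by omega))
    obtain ⟨y, hyV, hy⟩ : ∃ y ∈ V1, y ∉ Submodule.span κ ({1, x', z} : Set A) :=
      exists_notMem (lt_of_le_of_lt (hspan 1 x' z) (by omega))
    obtain ⟨dd, w, hw, hxz⟩ := hzv x' hxV'
    obtain ⟨lam, hlam⟩ : ∃ lam : κ, algebraMap κ A lam * y - w ∉
        Submodule.span κ ({1, x', z} : Set A) := by
      by_cases hws : w ∈ Submodule.span κ ({1, x', z} : Set A)
      · refine ⟨1, fun hcon => hy ?_⟩
        have := Submodule.add_mem _ hcon hws
        simpa using this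
      · refine ⟨0, fun hcon => hws ?_⟩
        have := Submodule.neg_mem _ hcon
        simpa using this
    refine ⟨z * z + x', z * z * z + algebraMap κ A lam * y, z, li7 fun a b c e f g k h => ?_⟩
    have hzxV2 : z * x' ∈ V2 := hzV2 x' hxV'
    have hzyV2 : z * y ∈ V2 := hzV2 y hyV
    have hg : g = 0 := by
      apply cz hz4
      have e1 : algebraMap κ A g * (z * z * z * z) = -(algebraMap κ A a * 1 +
          algebraMap κ A b * (z * z + x') + algebraMap κ A c * (z * z * z + algebraMap κ A lam * y) +
          algebraMap κ A e * z + algebraMap κ A f * (z * z) +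
          algebraMap κ A g * (algebraMap κ A lam * (z * y)) +
          algebraMap κ A k * (z * z * z + z * x')) := by linear_combination h
      rw [e1]
      exact V3.neg_mem (V3.add_mem (V3.add_mem (V3.add_mem (V3.add_mem (V3.add_mem
        (V3.add_mem (cm (hV23 (hV12 h1V)) a) (cm (V3.add_mem (hV23 hzzV2) (hV23 (hV12 hxV'))) b))
        (cm (V3.add_mem hzzzV3 (cm (hV23 (hV12 hyV)) lam)) c)) (cm (hV23 (hV12 hzV)) e))
        (cm (hV23 hzzV2) f)) (cm (cm (hV23 hzyV2) lam) g)) (cm (V3.add_mem hzzzV3 (hV23 hzxV2)) k))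
    subst hg
    simp only [map_zero, zero_mul, add_zero, mul_one] at h
    have hck : c + k = 0 := by
      apply cz hzzz
      have e1 : algebraMap κ A (c + k) * (z * z * z) = -(algebraMap κ A a * 1 +
          algebraMap κ A b * (z * z + x') + algebraMap κ A c * (algebraMap κ A lam * y) +
          algebraMap κ A e * z + algebraMap κ A f * (z * z) +
          algebraMap κ A k * (z * x')) := by rw [map_add]; linear_combination h
      rw [e1]
      exact V2.neg_mem (V2.add_mem (V2.add_mem (V2.add_mem (V2.add_mem
        (V2.add_mem (cm (hV12 h1V) a) (cm (V2.add_mem hzzV2 (hV12 hxV')) b))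
        (cm (cm (hV12 hyV) lam) c)) (cm (hV12 hzV) e)) (cm hzzV2 f)) (cm hzxV2 k))
    have hkc : k = -c := by linear_combination hck
    subst hkc
    rw [map_neg] at h
    have hbf : b + f + -c * dd = 0 := by
      apply cz hzz
      have e1 : algebraMap κ A (b + f + -c * dd) * (z * z) = -(algebraMap κ A a * 1 +
          algebraMap κ A b * x' + algebraMap κ A c * (algebraMap κ A lam * y - w) +
          algebraMap κ A e * z) := by
        rw [map_add, map_add, map_mul, map_neg]
        linear_combination h + algebraMap κ A c * hxz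
      rw [e1]
      exact V1.neg_mem (V1.add_mem (V1.add_mem (V1.add_mem (cm h1V a) (cm hxV' b))
        (cm (V1.sub_mem (cm hyV lam) hw) c)) (cm hzV e))
    have h3 : algebraMap κ A a * 1 + algebraMap κ A b * x' + algebraMap κ A e * z +
        algebraMap κ A c * (algebraMap κ A lam * y - w) = 0 := by
      have h4 : algebraMap κ A (b + f + -c * dd) = 0 := by rw [hbf, map_zero]
      rw [map_add, map_add, map_mul, map_neg] at h4
      linear_combination h + algebraMap κ A c * hxz - z * z * h4
    have hc := hnot 1 x' z _ hlam a b e c h3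
    subst hc
    simp only [map_zero, zero_mul, add_zero, mul_one] at h3
    have hb' : b = 0 := by
      refine hnot 1 1 z x' hx' a 0 e b ?_
      rw [map_zero]; linear_combination h3
    subst hb'
    simp only [map_zero, zero_mul, add_zero] at h3
    have he : e = 0 := by
      apply cz hzz
      have e1 : algebraMap κ A e * (z * z) = -(algebraMap κ A a * z) := by
        linear_combination z * h3
      rw [e1]
      exact V1.neg_mem (cm hzV a)
    subst he
    simp only [map_zero, zero_mul, add_zero] at h3
    have hf : f = 0 := by linear_combination hbf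
    exact ⟨h1ne a h3, rfl, rfl, rfl, hf, rfl, by simp⟩

end Pool.Agent.Helper97.Hilb8
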