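import Pool.Agent.Helper97.Hilb8.L.LI2A
import Pool.Agent.Helper97.Hilb8.L.LI2B

/-!
# Normal form of 8-dimensional algebras in characteristic 2
-/

universe u

namespace Pool.Agent.Helper97.Hilb8

open LI in
/-- The normal form lemma in characteristic 2. -/
theorem lemmaI2 {κ : Type u} [Field κ] [Infinite κ] (h2 : (2 : κ) = 0)
    {A : Type u} [CommRing A] [Algebra κ A] (hA : Module.finrank κ A = 8)
    (x : Fin 4 → A) (hx : Algebra.adjoin κ (Set.range x) = ⊤) :
    (∃ y z : A, LinearIndependent κ ![1, y, z, y * y, y * z, z * z]) ∨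
    (∃ x y z : A, LinearIndependent κ ![1, x, y, z, z * z, y * z, x * z]) ∨
    (∃ x1 x2 x3 z : A, LinearIndependent κ ![1, x1, x2, x3, z, x1 * z, x2 * z, x3 * z] ∧
      z * z ∈ Submodule.span κ {1, x1, x2, x3, z}) ∨
    (∃ x1 x2 x3 w : A, LinearIndependent κ ![1, x1, x2, x3, w, x1 * x2, x1 * x3, x2 * x3] ∧
      x1 * x1 ∈ Submodule.span κ {1, x1, x2, x3, w} ∧
      x2 * x2 ∈ Submodule.span κ {1, x1, x2, x3, w} ∧
      x3 * x3 ∈ Submodule.span κ {1, x1, x2, x3, w}) := by
  have hfd : FiniteDimensional κ A := FiniteDimensional.of_finrank_pos (by omega)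
  have hnt : Nontrivial A := by
    by_contra h
    rw [not_nontrivial_iff_subsingleton] at h
    rw [Module.finrank_zero_of_subsingleton] at hA
    omega
  obtain ⟨V1, hV1, hd1⟩ := exists_finrank (Submodule.span κ (insert 1 (Set.range x))) 5 (by
    have h1 : (insert 1 (Set.range x) : Set A) = Set.range (Fin.cons (1 : A) x : Fin 5 → A) := by
      rw [Fin.range_cons]
    rw [h1]
    exact finrank_range_le_card _) (by omega)
  have h1V : (1 : A) ∈ V1 := hV1 (Submodule.subset_span (Set.mem_insert _ _))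
  have hxV : ∀ i, x i ∈ V1 := fun i =>
    hV1 (Submodule.subset_span (Set.mem_insert_of_mem _ ⟨i, rfl⟩))
  have hgen : ∀ W : Submodule κ A, (1 : A) ∈ W → (∀ v ∈ V1, ∀ w ∈ W, v * w ∈ W) → W = ⊤ :=
    fun W h1 hc => eq_top_of_closed hx hxV h1 hc
  by_cases hsq : ∀ v ∈ V1, v * v ∈ V1
  · exact Or.inr (Or.inr (li2_caseA h2 hA V1 h1V hd1 hgen hsq))
  · push Not at hsq
    obtain h | h := li2_caseB h2 hA V1 h1V hd1 hgen hsq
    · exact Or.inl h
    · exact Or.inr (Or.inl h)

end Pool.Agent.Helper97.Hilb8
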