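import Pool.Agent.Helper28.Hilb8.Loc

/-!
# Charts which are reduced near the origin: families contracted to the origin
-/

universe u

namespace Pool.Agent.Helper97.Hilb8

open MvPolynomial Pool.Agent.Helper28.Hilb8

theorem residue_coord_scale (C : Chart) {O : Type u} [CommRing O] [IsLocalRing O] {A : Type u}
    [CommRing A] [Algebra O A] (x : Fin 4 → A) (b : Module.Basis (Fin 8) O A)
    (lam : Fin 4 → ℕ) (s : O) (hs : IsUnit s) (v : ℕ)
    (h0 : pr C lam (8 + v / 8) ≤ pr C lam (v % 8) →
      IsLocalRing.residue O (C.coord b (fun i => LinearMap.mulLeft O (x i)) 1 v) = 0) :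
    IsLocalRing.residue O
        (C.coord (scaleB C b lam s hs) (fun i => LinearMap.mulLeft O (s ^ lam i • x i)) 1 v) =
      (IsLocalRing.residue O s) ^ (pr C lam (8 + v / 8) - pr C lam (v % 8)) *
        IsLocalRing.residue O (C.coord b (fun i => LinearMap.mulLeft O (x i)) 1 v) := by
  rcases Nat.lt_or_ge (pr C lam (v % 8)) (pr C lam (8 + v / 8)) with h | h
  · rw [coord_scale C x b lam s hs v h.le, map_mul, map_pow]
  · have h1 := h0 h
    rw [h1, mul_zero]
    rw [coord_eq] at h1 ⊢
    rw [monoEl_smul, map_smul]
    unfold scaleB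
    rw [Finsupp.smul_apply, Module.Basis.repr_isUnitSMul, smul_eq_mul, Units.smul_def, smul_eq_mul,
      map_mul, map_mul, h1, mul_zero, mul_zero]

/-- A chart that is reduced near the origin has versal lifts for all families over local rings
whose closed fibre is contracted to the origin by a torus (weights of any sign). -/
theorem versalLift_loc2 (C : Chart) (k : Type u) [Field k] [Infinite k] (hloc : LocRed C k)
    (lam : Fin 4 → ℕ)
    (O : Type u) [CommRing O] [IsLocalRing O] [Algebra k O] (A : Type u) [CommRing A] [Algebra O A]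
    (x : Fin 4 → A) (b : Module.Basis (Fin 8) O A) (hb : ∀ c : Fin 8, b c = C.monoEl x c)
    (h0 : ∀ v < 8 * C.nb, pr C lam (8 + v / 8) ≤ pr C lam (v % 8) →
      IsLocalRing.residue O (C.coord b (fun i => LinearMap.mulLeft O (x i)) 1 v) = 0) :
    VersalLift k O A := by
  classical
  obtain ⟨K, hK, hrad, h, hh, hhK⟩ := hloc
  set c : ℕ → O := C.coord b (fun i => LinearMap.mulLeft O (x i)) 1 with hc
  set ρ : ℕ → ℕ := fun v => pr C lam (8 + v / 8) - pr C lam (v % 8) with hρ
  let κ := IsLocalRing.ResidueField O
  let f : k →+* κ := (IsLocalRing.residue O).comp (algebraMap k O)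
  -- the polynomial in `t`
  let P : Polynomial κ := eval₂ (Polynomial.C.comp f)
    (fun v : Fin (8 * C.nb) => Polynomial.C (IsLocalRing.residue O (c v)) * Polynomial.X ^ ρ v) h
  have hP0 : P.eval 0 ≠ 0 := by
    have h1 : P.eval 0 = f (constantCoeff h) := by
      have h2 : P.eval 0 = eval₂ f (fun _ : Fin (8 * C.nb) => (0 : κ)) h := by
        change (Polynomial.evalRingHom 0) P = _
        rw [hom_eval₂]
        congr 1
        · ext r
          simp
        · funext v
          simp only [map_mul, Polynomial.coe_evalRingHom, Polynomial.eval_C, map_pow,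
            Polynomial.eval_X]
          by_cases hv : ρ v = 0
          · rw [hc, h0 v v.2 (by simp only [hρ] at hv; omega), zero_mul]
          · rw [zero_pow hv, mul_zero]
      rw [h2]
      have h3 : (eval₂Hom f (fun _ : Fin (8 * C.nb) => (0 : κ))) h = f (constantCoeff h) := by
        have : eval₂Hom f (fun _ : Fin (8 * C.nb) => (0 : κ)) = f.comp constantCoeff := by
          ext <;> simp
        rw [this]
        rfl
      exact h3
    rw [h1]
    exact (map_ne_zero f).mpr hh
  obtain ⟨t, ht0, ht⟩ : ∃ t : k, t ≠ 0 ∧ P.eval (f t) ≠ 0 := by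
    by_contra hne
    push Not at hne
    have h1 : (Polynomial.X * P).IsRoot (f 0) ∧ ∀ t : k, (Polynomial.X * P).IsRoot (f t) := by
      refine ⟨by simp [Polynomial.IsRoot], fun t => ?_⟩
      by_cases ht : t = 0
      · rw [ht]; simp [Polynomial.IsRoot]
      · rw [Polynomial.IsRoot, Polynomial.eval_mul, hne t ht, mul_zero]
    have h2 : Polynomial.X * P = 0 := by
      apply Polynomial.eq_zero_of_infinite_isRoot
      refine Set.Infinite.mono ?_ (Set.infinite_range_of_injective f.injective)
      rintro _ ⟨t, rfl⟩
      exact h1.2 t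
    have h3 : P = 0 := by
      rcases mul_eq_zero.mp h2 with h | h
      · exact absurd h Polynomial.X_ne_zero
      · exact h
    apply hP0
    rw [h3, Polynomial.eval_zero]
  set s : O := algebraMap k O t with hs
  have hsu : IsUnit s := (isUnit_iff_ne_zero.mpr ht0).map (algebraMap k O)
  have hc' : ∀ v < 8 * C.nb, IsLocalRing.residue O (C.coord (scaleB C b lam s hsu)
      (fun i => LinearMap.mulLeft O (s ^ lam i • x i)) 1 v) =
      (IsLocalRing.residue O s) ^ ρ v * IsLocalRing.residue O (c v) := fun v hv =>
    residue_coord_scale C x b lam s hsu v (h0 v hv)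
  have hunit : IsUnit (aeval (R := k) (fun v : Fin (8 * C.nb) =>
      C.coord (scaleB C b lam s hsu) (fun i => LinearMap.mulLeft O (s ^ lam i • x i)) 1 v) h) := by
    by_contra hnu
    have h1 : IsLocalRing.residue O (aeval (R := k) (fun v : Fin (8 * C.nb) =>
      C.coord (scaleB C b lam s hsu) (fun i => LinearMap.mulLeft O (s ^ lam i • x i)) 1 v) h) = 0 :=
      (IsLocalRing.residue_eq_zero_iff _).mpr ((IsLocalRing.mem_maximalIdeal _).mpr hnu)
    apply ht
    rw [← h1, aeval_def, hom_eval₂]
    change (Polynomial.evalRingHom (f t)) P = _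
    rw [hom_eval₂]
    congr 1
    · ext r
      simp [f]
    · funext v
      rw [hc' v v.2]
      simp only [map_mul, Polynomial.coe_evalRingHom, Polynomial.eval_C, map_pow,
        Polynomial.eval_X]
      rw [mul_comm]
      rfl
  refine versalLift_of_le C k K hK hrad O A (fun i => s ^ lam i • x i) (scaleB C b lam s hsu)
    (scaleB_apply C x b hb lam s hsu) ?_
  intro p hp
  have h1 := C.eval_ideal k _ (C.isPt_coord (scaleB C b lam s hsu)
    (fun i => LinearMap.mulLeft O (s ^ lam i • x i)) ?_ 1 ?_) (h * p) (hhK p hp)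
  · rw [map_mul] at h1
    exact (hunit.mul_right_eq_zero).mp h1
  · intro i j
    ext m
    simp only [Module.End.mul_apply, LinearMap.mulLeft_apply]
    ring
  · intro c
    have hmono : C.monoEl (fun i => LinearMap.mulLeft O (s ^ lam i • x i)) c =
        LinearMap.mulLeft O (C.monoEl (fun i => s ^ lam i • x i) c) :=
      (C.map_monoEl (Algebra.lmul O A) _ _).symm
    rw [hmono, LinearMap.mulLeft_apply, mul_one]
    exact scaleB_apply C x b hb lam s hsu c

end Pool.Agent.Helper97.Hilb8
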