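import Pool.Agent.Helper97.Hilb8.K.PtsDefs

/-!
# Kernel-evaluable certificates in characteristic 2: definitions

The types are those of `K/Defs.lean` and `K/RawDefs.lean`. The names ending in `U` are versions of
the checks in which all pivots are plus or minus one (valid over every field); in the checks whose
names end in `2` a coefficient `x - y` only counts modulo 2.
-/

noncomputable section

namespace Pool.Agent.Helper97.Hilb8.K

/-! ### Units -/

/-- `x - y` is plus or minus one. -/
def coefU (x y : Nat) : Bool := Nat.beq (Nat.add (Nat.sub x y) (Nat.sub y x)) 1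

/-- The leading survivor. -/
def relGoU (G LOW sh : Nat) (As : L) (Uc c : Nat) (p : P) : Bool :=
  P.rec false (fun k x y rest ih =>
    Bool.rec
      (Bool.rec false (Bool.rec false (Bool.rec false (relGo2 G sh As c k rest)
        (supp LOW (Nat.sub k c) Uc)) (coefU x y)) (dvdk G c k))
      ih (anyL (fun a => dvdk G a k) As)) p

/-- The rules, see `rule`. -/
def ruleU (G LOW sh : Nat) (M T R Y : Tr) (c : L) (t a b : Nat) : Bool :=
  parse M (fun Ub Uc As Ds =>
    Nat.rec (anyL (fun x => subs LOW x Ub) As)
    (fun t _ => Nat.rec (anyL (fun x => subs LOW x Uc) As)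
    (fun t _ => Nat.rec (anyL (fun x => subs LOW x Uc) Ds)
    (fun t _ => Nat.rec (En.rec false (fun k _ => subs LOW k Uc) (look T a))
    (fun t _ => Nat.rec
      (Bool.rec false (Bool.rec false (maxGo LOW (Nat.add 32 (Nat.mul 5 a)) Ds T)
        (anyL (fun d => subs LOW d (Nat.shiftLeft 1 (Nat.add 32 (Nat.mul 5 a)))) Ds))
        (Nat.ble (Nat.succ (Nat.add 32 (Nat.mul 5 a))) sh))
    (fun t _ => Nat.rec
      (Bool.rec false (Bool.rec false
        (En.rec false (fun _ p => relGoU G LOW sh As Uc b p) (look R a))
        (supp LOW b Ub)) (Nat.beq (Nat.land b G) 0))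
    (fun _ _ => En.rec false (fun k _ => subs LOW k Ub) (look Y a)) t) t) t) t) t) t)
    c 0 0 .e .e

/-- One elimination step, see `elimGo`. -/
def elimGoU (LOW A AU s : Nat) (p : P) : Bool → Bool :=
  P.rec (motive := fun _ => Bool → Bool) (fun b => b)
    (fun k x y _ ih b =>
      Bool.rec
        (Bool.rec
          (Bool.rec false (Bool.rec false (Bool.rec false (ih true)
            (Nat.beq (Nat.land (Nat.land (Nat.sub k (Nat.shiftLeft 1 s)) LOW) AU)
              (Nat.land (Nat.sub k (Nat.shiftLeft 1 s)) LOW)))
            (Nat.beq (Nat.land (Nat.shiftRight k s) 31) 1)) (coefU x y))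
          false b)
        (ih b)
        (Nat.beq (Nat.land (Nat.land k LOW) A) (Nat.land k LOW))) p

/-- Elimination list, see `elimL`. -/
def elimLU (LOW sh : Nat) (R : Tr) (U : Nat) (steps : P) : Nat → Bool :=
  P.rec (motive := fun _ => Nat → Bool) (fun A => Nat.beq A LOW)
    (fun st _ _ _ ih A =>
      (fun s => Bool.rec false
        (En.rec false (fun _ p => Bool.rec false (ih (Nat.lor A (Nat.shiftLeft 31 s)))
          (elimGoU LOW A (Nat.land A U) s p false)) (look R (Nat.shiftRight st 8)))
        (Nat.ble (Nat.succ s) sh))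
      (Nat.add 32 (Nat.mul 5 (Nat.land st 255)))) steps

/-- Check the elimination data, see `elims`. -/
def elimsU (n LOW SQ sh N0 : Nat) (R Y : Tr) : Bool :=
  Tr.rec true (fun _ _ u p _ ihl ihr => Bool.rec false (Bool.rec false
    (P.rec false (fun z _ _ steps _ =>
      Bool.rec false (Bool.rec false (Bool.rec false
        (elimLU LOW sh R (Nat.mul 31 (Nat.land u LOW)) steps (Nat.mul 31 (Nat.land z LOW)))
        (Nat.beq (Nat.land u SQ) 0)) (Nat.beq (Nat.land z SQ) 0)) (Nat.ble (popc n z) N0)) p)
    ihl) ihr) Y

/-- The list of the eliminated variables: `j` is the variable, see `chkV`. -/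
def chkVU (G LOW sh : Nat) (ws : W) (CT : Tr) (G' : Nat) (VP : V) (l : RL) : Nat → Bool :=
  RL.rec (motive := fun _ => Nat → Bool) (fun A => Nat.beq A LOW)
    (fun j d cl p _ ih A => (fun s =>
      Bool.rec false (Bool.rec false (Bool.rec false (Bool.rec false
        (ih (Nat.lor A (Nat.shiftLeft 31 s)))
        (sP G' VP isZero p .z))
        (elimGoU LOW A 0 s p false))
        (topC G sh ws CT d cl p))
        (Nat.ble (Nat.succ s) sh))
      (Nat.add 32 (Nat.mul 5 j))) l

/-- The sum of the coefficients of the terms supported in the mask `A` is plus or minus one. -/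
def sumMU (LOW A : Nat) (p : P) : Nat → Nat → Bool :=
  P.rec (motive := fun _ => Nat → Nat → Bool) (fun X Y => coefU X Y)
    (fun k x y _ ih X Y => Bool.rec (ih X Y) (ih (Nat.add X x) (Nat.add Y y))
      (Nat.beq (Nat.land (Nat.land k LOW) A) (Nat.land k LOW))) p

/-! ### Coefficients modulo 2 -/

/-- `x - y` is even. -/
def evn (x y : Nat) : Bool := Nat.beq (Nat.land (Nat.add x y) 1) 0

/-- `x - y` is odd. -/
def odd2 (x y : Nat) : Bool := Nat.beq (Nat.land (Nat.add x y) 1) 1

/-- All coefficients are even. -/
def isZero2 (p : P) : Bool := P.rec true (fun _ x y _ ih => Bool.rec false ih (evn x y)) p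

/-- Remove the even terms at the beginning. -/
def dropZ2 (p : P) : P :=
  P.rec .z (fun k x y r ih => Bool.rec (.t k x y r) ih (evn x y)) p

/-- Add the linear combination `l` of the entries of `T` (numbers `< N`) to `acc` (leaving out keys
`< cut`) and continue with `f`. -/
def comb2 (G cut : Nat) (T : Tr) (N : Nat) (f : P → Bool) (l : CL) : P → Bool :=
  CL.rec (motive := fun _ => P → Bool) f
    (fun x y m i _ ih acc => Bool.rec false (Bool.rec false
      (En.rec false (fun _ p => ih (addmT cut m x y p (dropZ2 acc))) (look T i))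
      (Nat.ble (Nat.succ i) N)) (Nat.beq (Nat.land m G) 0)) l

/-- `p` is a linear combination of the entries `< N`. -/
def inSpan2 (G : Nat) (D : Tr) (N : Nat) (l : CL) (p : P) : Bool :=
  comb2 G 0 D N isZero2 l (addm 0 0 1 p .z)

/-- Check of the justifications of the entries `i0, i0 + 1, …` of `D`. -/
def chkJ2 (G : Nat) (E D : Tr) (l : JL) : Nat → Bool :=
  JL.rec (motive := fun _ => Nat → Bool) (fun _ => true)
    (fun j _ ih i => Bool.rec false (ih (Nat.succ i))
      (En.rec false (fun _ p => En.rec false (fun _ q => isZero2 (addm 0 0 1 q p)) (look E j))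
        (look D i)))
    (fun x y cl _ ih i => Bool.rec false (Bool.rec false (ih (Nat.succ i))
      (En.rec false (fun _ p => comb2 G 0 D i isZero2 cl (addm 0 y x p .z)) (look D i)))
      (odd2 x y)) l

/-- Check that the entries `i0, i0 + 1, …` of `T` (with leading key) are linear combinations of the
entries `< N` of `D`. -/
def chkT2 (G : Nat) (D : Tr) (N : Nat) (T : Tr) (l : TL) : Nat → Bool :=
  TL.rec (motive := fun _ => Nat → Bool) (fun _ => true)
    (fun cl _ ih i => Bool.rec false (ih (Nat.succ i))
      (En.rec false (fun k p => inSpan2 G D N cl (.t k 1 0 p)) (look T i))) l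

/-- `p` is the initial form (weight `d`) of the linear combination `l` of the commutators. -/
def topC2 (G sh : Nat) (ws : W) (CT : Tr) (d : Nat) (l : CL) (p : P) : Bool :=
  Bool.rec false (Bool.rec false (Bool.rec false
    (comb2 G (Nat.shiftLeft d sh) CT 4096 isZero2 l (addm 0 0 1 p .z))
    (clW sh ws l)) (relOK G sh ws p)) (wtEq sh d p)

/-- The initial forms of the list, with the kept variables substituted, are the entries
`i, i + 1, …` of the table `E`. -/
def chkR2 (G sh : Nat) (ws : W) (CT : Tr) (G' : Nat) (VP : V) (E : Tr) (l : RL) : Nat → Bool :=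
  RL.rec (motive := fun _ => Nat → Bool) (fun _ => true)
    (fun _ d cl p _ ih i => Bool.rec false (Bool.rec false (ih (Nat.succ i))
      (En.rec false (fun _ q => sP G' VP isZero2 p (addm 0 0 1 q .z)) (look E i)))
      (topC2 G sh ws CT d cl p)) l

/-- For the kept variables `t, t + 1, …`: `f0 (X_t - j0 (θ0 X_t))` is a linear combination of the
entries of `D`. -/
def chkA2 (G : Nat) (VP JV V0 : V) (io : L) (f0 : P) (D : Tr) (ND : Nat) (l : TL) : Nat → Bool :=
  TL.rec (motive := fun _ => Nat → Bool) (fun _ => true)
    (fun cl _ ih t => Bool.rec false (ih (Nat.succ t))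
      (sP G JV (fun a =>
        (fun q => Bool.rec false (Bool.rec false (inSpan2 G D ND cl (mulAdd f0 q .z))
          (goodP G (mulAdd f0 q .z))) (goodP G q)) (addm 0 0 1 a (VP.get (io.get t))))
        (V0.get (io.get t)) .z)) l

end Pool.Agent.Helper97.Hilb8.K
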