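import Pool.Agent.Helper97.Hilb8.K.RawSem
import Pool.Agent.Helper97.Hilb8.L.KDefs

/-!
# The checks of the data of a chart in characteristic 2
-/

noncomputable section

namespace Pool.Agent.Helper97.Hilb8.K

/-- New data for characteristic 2: generators and derived elements. -/
structure Data2 where
  /-- generators -/
  NE : ℕ
  gE : Tr
  /-- derived elements -/
  ND : ℕ
  gD : Tr
  /-- elements derived with `f0k` -/
  ND2 : ℕ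
  D2 : Tr
  tA : TL

/-- The table of the generators and `f0k` (number 9999). -/
def Data2.E2 (Y : Data2) (X : Data) : Tr := .node Y.gE 9999 0 X.f0k .leaf

/-- The checks in characteristic 2. -/
structure Data.OK2 (X : Data) (Y : Data2) (Ch : Chart) : Prop where
  hC : (Cst.mk (8 * Ch.nb) X.sh X.G X.LOW X.SQ).ok
  hNX : ∀ (i : Fin 4) (c : Fin 8), Ch.nxt i c = X.NX.get (8 * i + c)
  hV : vkOK X.G X.LOW X.sh X.VK = true
  hV' : present X.VK (8 * Ch.nb) = true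
  hCT : commOK X.NX X.VK X.cT = true
  hAll : commAll X.NX X.VK X.cT = true
  hwr : posOK (8 * Ch.nb) X.wr 0 = true
  hwT : wtT X.G X.sh X.wr X.cT = true
  hC' : X.cK.ok
  hVP : X.VP.posOK (8 * Ch.nb) 0 = true
  hVg : X.VP.good X.cK.G = true
  hio : keptOK X.cK.G X.cK.LOW (8 * Ch.nb) X.VP X.io 0 = true
  hlen : X.io.len = X.cK.n
  hdist : distinct X.io 0 = true
  hve : chkVU X.G X.LOW X.sh X.wr X.cT X.cK.G X.VP X.ve (maskI X.io) = true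
  hE : goodT X.cK.G Y.NE Y.gE = true
  hR : ∀ i < Y.NE, ∃ l i0, i0 ≤ i ∧ i < i0 + l.len ∧
    chkR2 X.G X.sh X.wr X.cT X.cK.G X.VP Y.gE l i0 = true
  hD : goodT X.cK.G Y.ND Y.gD = true
  hJ : ∀ i < Y.ND, ∃ l i0, i0 ≤ i ∧ i < i0 + l.len ∧ chkJ2 X.cK.G Y.gE Y.gD l i0 = true
  hf : topF X.G X.sh X.wr X.d0 X.f X.f0 = true
  hf0 : sP X.cK.G X.VP isZero X.f0 (addm 0 0 1 X.f0k .z) = true
  hf0k : goodP X.cK.G X.f0k = true
  hxi : X.xi < X.cK.n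
  hxk : Nat.land X.xk X.G = 0 ∧
    Nat.land X.xk X.LOW = Nat.shiftLeft 1 (Nat.add 32 (Nat.mul 5 (X.io.get X.xi)))
  hfc : comb X.G 0 X.cT 4096 isZero X.fcl (addm X.xk 0 1 X.f .z) = true
  hD2 : goodT X.cK.G Y.ND2 Y.D2 = true
  hJ2 : ∀ i < Y.ND2, ∃ l i0, i0 ≤ i ∧ i < i0 + l.len ∧ chkJ2 X.cK.G (Y.E2 X) Y.D2 l i0 = true
  hT2 : ∀ i < X.N, ∃ l i0, i0 ≤ i ∧ i < i0 + l.len ∧ chkT2 X.cK.G Y.D2 Y.ND2 X.tT l i0 = true
  hwk : posOK X.cK.n X.wk 0 = true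
  hT : tabOK X.cK.G X.cK.SQ X.N X.wk X.tT = true
  hN : present X.tT X.N = true
  hrows : ∀ i < X.N, ∃ R i0, i0 ≤ i ∧ i < i0 + R.len ∧
    rows X.cK.G X.cK.LOW X.cK.sh X.tT R i0 = true
  hM : msOK X.cK.G X.cK.SQ X.tM = true
  hRel : relsOK X.cK.G X.cK.sh X.wk X.tT X.tR = true
  hY : elimsU X.cK.n X.cK.LOW X.cK.SQ X.cK.sh 32 X.tR X.tY = true
  hDC : chkC (ruleU X.cK.G X.cK.LOW X.cK.sh X.tM X.tT X.tR X.tY) X.DC X.DC = true
  hlast : ∃ i w, lookC X.DC i = .some .e w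
  hCD : X.cD.ok
  hwD : posOK X.cD.n X.wD 0 = true
  hVT : X.VT.posOK (8 * Ch.nb) 0 = true
  hVTg : X.VT.good X.cD.G = true
  hV0 : X.V0.posOK (8 * Ch.nb) 0 = true
  hV0g : X.V0.good X.cD.G = true
  hz : zeroT X.cD.G X.VT X.cT = true
  htV : topV X.wD X.VT X.V0 X.wr = true
  hmD : ∀ v < X.cD.n, dig X.mD v = 0 ∨ dig X.mD v = 31
  hs : sP X.cD.G X.V0 (fun a => sumMU X.cD.LOW X.mD a 0 0) X.f0 .z = true
  hjv : X.jv.len = X.cD.n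
  hjb : ∀ i < X.cD.n, X.jv.get i < 8 * Ch.nb
  hJVp : (mkJV X.VP X.jv 0).posOK X.cD.n 0 = true
  hJVg : (mkJV X.VP X.jv 0).good X.cK.G = true
  htA : Y.tA.len = X.cK.n
  hA : chkA2 X.cK.G X.VP (mkJV X.VP X.jv 0) X.V0 X.io X.f0k Y.gD Y.ND Y.tA 0 = true
  hMO : ∀ n < 8 + Ch.nb, ∀ i : Fin 4, Ch.mono n i = mo X.pMO n i
  hp1 : potOK X.pA X.pMO X.pS (fun c => c) X.p0 X.q0 X.pWO = true
  hp2 : optOK X.pA X.pB X.pMO X.pS X.pS2 (fun c => c) X.p0 X.q0 X.sg0 X.p02 X.q02 = true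
  hp3 : potsOK X.pA X.pMO X.pS X.pWO X.pT X.wr 0 = true
  hp4 : optsOK X.pA X.pB X.pMO X.pS X.pS2 X.pT X.io = true
  hp5 : indepOK X.pMO X.pG X.sg0 X.pT X.zl 0 = true
  hp6 : distinct X.zl 0 = true
  hp7 : zOK X.zl X.zk X.io X.cK.n = true

end Pool.Agent.Helper97.Hilb8.K
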