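import Pool.Agent.Helper97.Hilb8.L.Mod2
import Pool.Agent.Helper97.Hilb8.L.OKDefs
import Pool.Agent.Helper97.Hilb8.K.Final

/-!
# Soundness of the kernel-evaluable certificates in characteristic 2: assembly
-/

universe u

namespace Pool.Agent.Helper97.Hilb8.K

open MvPolynomial

theorem chkJ_all2 (C : Cst) (hC : C.ok) {k : Type*} [Field k] (h20 : (2 : k) = 0)
    (J : Ideal (MvPolynomial (Fin C.n) k)) (E D : Tr) (ND : ℕ)
    (hE : TAll (fun _ _ p => p.All (Good C.n) ∧ p.ev C.n k ∈ J) E)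
    (hD : TAll (fun _ _ p => p.All (Good C.n)) D)
    (h : ∀ i < ND, ∃ l i0, i0 ≤ i ∧ i < i0 + l.len ∧ chkJ2 C.G E D l i0 = true) :
    ∀ i < ND, ∀ key q, look D i = .some key q → q.ev C.n k ∈ J := by
  intro i
  induction i using Nat.strong_induction_on with
  | _ i ih =>
    intro hi
    obtain ⟨l, i0, h3, h4, h5⟩ := h i hi
    exact chkJ_sound2 C hC h20 J E D hE hD l i0 (fun j hj => ih j (by omega) (by omega)) h5 i h4

open K10

theorem isReduced_of_ok2 (Ch : Chart) (X : Data) (Y : Data2) (h : X.OK2 Y Ch) (k : Type u) [Field k]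
    (h20 : (2 : k) = 0) : IsReduced (MvPolynomial (Fin (8 * Ch.nb)) k ⧸ Ch.ideal k) := by
  classical
  have hC := h.hC
  have hC' := h.hC'
  have hCD := h.hCD
  have hio : ∀ t < X.cK.n, X.io.get t < 8 * Ch.nb := by
    intro t ht
    rw [← h.hlen] at ht
    exact kept_lt _ _ _ _ _ _ h.hio t ht
  let ι : Fin X.cK.n → Fin (8 * Ch.nb) := fun t => ⟨X.io.get t, hio t t.2⟩
  have hι : ∀ t, (ι t : ℕ) = X.io.get t := fun t => rfl
  have hI : Ch.ideal k = tabI (8 * Ch.nb) k X.cT :=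
    comm_span Ch X.sh X.G X.LOW X.SQ hC X.NX h.hNX X.VK X.cT h.hV h.hV' h.hCT h.hAll k
  obtain ⟨K, P, hK, hP, hIK, hKP, ⟨Z0, hZc, hZ⟩, hXP⟩ :=
    pts_of_checks Ch X.pA X.pB X.pMO X.pS X.pS2 X.pWO X.pG X.sg0 X.p0 X.q0 X.p02 X.q02 h.hMO
      h.hp1 h.hp2 X.pT X.wr h.hwr h.hp3 X.io h.hp4 X.zl X.zk h.hp5 h.hp6 h.hlen h.hp7 h.hdist
      ι hι k
  obtain ⟨ha, hb, hc⟩ := chkVU_sound (k := k) (Cst.mk (8 * Ch.nb) X.sh X.G X.LOW X.SQ) X.cK hC hC' X.wr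
    h.hwr X.cT h.hwT X.VP h.hVP h.hVg X.io h.hio X.ve h.hve h.hlen ι hι
  rw [hI] at hIK ⊢
  -- every polynomial is congruent to its image in the kept variables
  have hd : ∀ g : MvPolynomial (Fin (8 * Ch.nb)) k,
      g - rename ι (X.VP.hom (8 * Ch.nb) X.cK.n k g) ∈
        inI (fun v : Fin (8 * Ch.nb) => X.wr.get v) (tabI (8 * Ch.nb) k X.cT) := by
    intro g
    rw [← Ideal.Quotient.eq]
    have h1 : ((Ideal.Quotient.mkₐ k _).comp ((rename ι).comp (X.VP.hom (8 * Ch.nb) X.cK.n k))) =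
        Ideal.Quotient.mkₐ k
          (inI (fun v : Fin (8 * Ch.nb) => X.wr.get v) (tabI (8 * Ch.nb) k X.cT)) := by
      apply MvPolynomial.algHom_ext
      intro v
      have h3 := hb v
      rw [← Ideal.Quotient.eq] at h3
      exact h3.symm
    exact (DFunLike.congr_fun h1 g).symm
  set Ji := inI (fun v : Fin (8 * Ch.nb) => X.wr.get v) (tabI (8 * Ch.nb) k X.cT) with hJi
  let J' : Ideal (MvPolynomial (Fin X.cK.n) k) := Ideal.comap (rename ι) Ji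
  -- generators
  have hEg := goodT_sound X.cK hC' Y.NE Y.gE h.hE
  have hEJ : TAll (fun _ _ p => p.All (Good X.cK.n) ∧ p.ev X.cK.n k ∈ J') Y.gE := by
    intro i key q hq
    obtain ⟨hi, hg⟩ := hEg i key q hq
    obtain ⟨l, i0, h3, h4, h5⟩ := h.hR i hi
    refine ⟨hg, ?_⟩
    exact chkR_sound2 (Cst.mk (8 * Ch.nb) X.sh X.G X.LOW X.SQ) X.cK hC hC' X.wr h.hwr X.cT h.hwT
      X.VP h.hVP h.hVg Y.gE (fun i key q hq => (hEg i key q hq).2) l i0 h5 ι h20 hc i h3 h4 key q hq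
  -- derived elements
  have hDg := goodT_sound X.cK hC' Y.ND Y.gD h.hD
  have hDJ := chkJ_all2 X.cK hC' h20 J' Y.gE Y.gD Y.ND hEJ (fun i key q hq => (hDg i key q hq).2)
    h.hJ
  -- the polynomial `f`
  obtain ⟨hfg, hf0g, hfT⟩ := topF_sound (Cst.mk (8 * Ch.nb) X.sh X.G X.LOW X.SQ) hC X.wr h.hwr
    X.d0 X.f X.f0 h.hf k
  have hf0kg := goodP_sound X.cK hC' _ h.hf0k
  have hf0k : X.f0k.ev X.cK.n k = X.VP.hom (8 * Ch.nb) X.cK.n k (X.f0.ev (8 * Ch.nb) k) := by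
    obtain ⟨a, -, h3, h4⟩ := sP_sound (Cst.mk (8 * Ch.nb) X.sh X.G X.LOW X.SQ) X.cK hC hC'
      (k := k) X.VP h.hVP h.hVg isZero X.f0 _ (all_neg_addm _ hf0kg) h.hf0
    rw [ev_of_isZero h4, ev_neg_addm _ hf0kg] at h3
    linear_combination h3
  -- elements derived with `f0`
  let J'' : Ideal (MvPolynomial (Fin X.cK.n) k) :=
    Ideal.comap (rename ι) (Ji ⊔ Ideal.span {X.f0.ev (8 * Ch.nb) k})
  have hJJ : J' ≤ J'' := Ideal.comap_mono le_sup_left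
  have hf0J : X.f0k.ev X.cK.n k ∈ J'' := by
    rw [Ideal.mem_comap, hf0k]
    have h3 : rename ι (X.VP.hom (8 * Ch.nb) X.cK.n k (X.f0.ev (8 * Ch.nb) k)) =
        X.f0.ev (8 * Ch.nb) k - (X.f0.ev (8 * Ch.nb) k -
          rename ι (X.VP.hom (8 * Ch.nb) X.cK.n k (X.f0.ev (8 * Ch.nb) k))) := by ring
    rw [h3]
    exact Ideal.sub_mem _ (Ideal.mem_sup_right (Ideal.mem_span_singleton_self _))
      (Ideal.mem_sup_left (hd _))
  have hE2 : TAll (fun _ _ p => p.All (Good X.cK.n) ∧ p.ev X.cK.n k ∈ J'') (Y.E2 X) :=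
    TAll_node _ _ _ _ _ _ ⟨hf0kg, hf0J⟩ (fun i key q hq => ⟨(hEJ i key q hq).1,
      hJJ (hEJ i key q hq).2⟩) (TAll_leaf _)
  have hD2g := goodT_sound X.cK hC' Y.ND2 Y.D2 h.hD2
  have hD2J := chkJ_all2 X.cK hC' h20 J'' (Y.E2 X) Y.D2 Y.ND2 hE2
    (fun i key q hq => (hD2g i key q hq).2) h.hJ2
  have hTab := tab_of_check X.cK hC' X.wk h.hwk X.N X.tT h.hT
  have hTJ : ∀ i < X.N, (look X.tT i).ev X.cK.n k ∈ J'' := by
    intro i hi
    obtain ⟨l, i0, h3, h4, h5⟩ := h.hT2 i hi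
    exact chkT_sound2 X.cK hC' h20 J'' Y.D2 Y.ND2
      (fun i hi key q hq => ⟨(hD2g i key q hq).2, hD2J i hi key q hq⟩) X.tT
      (fun i key q hq => ⟨(hTab i key q hq).2.1,
        k2_All_mono (hTab i key q hq).2.2.2 fun _ h => h.1⟩) l i0 h5 i h3 h4
  -- `f` lies in `K`
  have hfK : X.f.ev (8 * Ch.nb) k ∈ K := by
    have hcT := wtT_all (Cst.mk (8 * Ch.nb) X.sh X.G X.LOW X.SQ) hC X.wr h.hwr X.cT h.hwT
    have h3 := comb_sound (Cst.mk (8 * Ch.nb) X.sh X.G X.LOW X.SQ) hC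
      (tabI (8 * Ch.nb) k X.cT) X.cT 4096 (fun i _ key q hq => ⟨hcT i key q hq,
        Ideal.subset_span ⟨i, key, q, hq, rfl⟩⟩) X.fcl _ h.hfc
    have hxg : Good (8 * Ch.nb) X.xk :=
      (good_iff (Cst.mk (8 * Ch.nb) X.sh X.G X.LOW X.SQ) hC _).1 h.hxk.1
    have hex : expo (8 * Ch.nb) X.xk = Finsupp.single (ι ⟨X.xi, h.hxi⟩) 1 :=
      expo_single (Cst.mk (8 * Ch.nb) X.sh X.G X.LOW X.SQ) hC X.xk (X.io.get X.xi)
        (hio X.xi h.hxi) h.hxk.2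
    have h4 : (addm X.xk 0 1 X.f .z).ev (8 * Ch.nb) k =
        -(MvPolynomial.X (ι ⟨X.xi, h.hxi⟩) * X.f.ev (8 * Ch.nb) k) := by
      rw [ev_addm hxg hfg, ev_z, hex, Nat.cast_zero, Nat.cast_one, zero_sub, zero_add,
        map_neg, neg_mul]
      rfl
    have h5 : -(MvPolynomial.X (ι ⟨X.xi, h.hxi⟩) * X.f.ev (8 * Ch.nb) k) ∈ K := by
      rw [← h4]
      exact hIK h3
    have h6 := (Ideal.neg_mem_iff K).1 h5
    rcases hK.mem_or_mem h6 with h7 | h7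
    · exact absurd (hKP _ h7 _ _ (isTop_X _ _)) (hXP _)
    · exact h7
  have hf0P : X.f0.ev (8 * Ch.nb) k ∈ P := hKP _ hfK _ _ hfT
  have hJP : Ji ⊔ Ideal.span {X.f0.ev (8 * Ch.nb) k} ≤ P := by
    rw [sup_le_iff, Ideal.span_singleton_le_iff_mem]
    refine ⟨Ideal.span_le.2 ?_, hf0P⟩
    rintro t ⟨g, hg, d, ht⟩
    exact hKP g (hIK hg) t d ht
  -- primality
  have hPp : (Ideal.comap (rename ι) P : Ideal (MvPolynomial (Fin X.cK.n) k)).IsPrime :=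
    Ideal.comap_isPrime _ _
  obtain ⟨ie, we, hie⟩ := h.hlast
  have hPQ := leU_of_checks X.cK hC' X.wk h.hwk X.N X.tT h.hT h.hN (by
      intro j hj Lj tj hl
      obtain ⟨R, i0, h3, h4, h5⟩ := h.hrows j hj
      exact rows_row _ _ _ _ R i0 h5 j h3 h4 Lj tj hl) X.tM X.tR X.tY h.hM h.hRel 32 h.hY X.DC
    h.hDC ie we hie (Ideal.comap (rename ι) P) (fun i => hJP (hTJ i i.2))
    (fun v hv => hXP v (by rw [Ideal.mem_comap, rename_X] at hv; exact hv)) Z0 hZc.ge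
    (fun p hp hpP => hZ p hp hpP)
  -- the second component
  let j0 : MvPolynomial (Fin X.cD.n) k →ₐ[k] MvPolynomial (Fin (8 * Ch.nb)) k :=
    aeval (fun i : Fin X.cD.n => MvPolynomial.X ⟨X.jv.get i, h.hjb i i.2⟩)
  refine isReduced_of_tops (fun v : Fin (8 * Ch.nb) => X.wr.get v)
    (fun v : Fin X.cD.n => X.wD.get v) (tabI (8 * Ch.nb) k X.cT) K P hIK hKP ι
    (X.VP.hom (8 * Ch.nb) X.cK.n k) ha hb (X.f.ev (8 * Ch.nb) k) (X.f0.ev (8 * Ch.nb) k) X.d0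
    hfK hfT (Ideal.span (Set.range fun i : Fin X.N => (look X.tT i).ev X.cK.n k)) ?_
    (fun q hq => hPQ hq) (X.VT.hom (8 * Ch.nb) X.cD.n k) (X.V0.hom (8 * Ch.nb) X.cD.n k) j0 ?_ ?_
    ?_ ?_
  · have h3 : Ideal.span (Set.range fun i : Fin X.N => (look X.tT i).ev X.cK.n k) ≤ J'' := by
      rw [Ideal.span_le]
      rintro _ ⟨i, rfl⟩
      exact hTJ i i.2
    exact fun q hq => h3 hq
  · exact zeroT_sound (Cst.mk (8 * Ch.nb) X.sh X.G X.LOW X.SQ) X.cD hC hCD X.VT h.hVT h.hVTg X.cT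
      h.hz k
  · exact topV_sound (Cst.mk (8 * Ch.nb) X.sh X.G X.LOW X.SQ) X.cD hCD X.VT X.V0 h.hVT h.hV0
      h.hVTg h.hV0g X.wr X.wD h.hwr h.hwD h.htV k
  · obtain ⟨a, -, h3, h4⟩ := sP_sound (Cst.mk (8 * Ch.nb) X.sh X.G X.LOW X.SQ) X.cD hC hCD
      (k := k) X.V0 h.hV0 h.hV0g (fun a => sumMU X.cD.LOW X.mD a 0 0) X.f0 .z trivial h.hs
    have h5 := sumMU_sound X.cD hCD X.mD h.hmD a h4 k
    rw [h3, ev_z, zero_add] at h5
    exact h5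
  · intro t
    have h3 := chkA_sound2 (Cst.mk (8 * Ch.nb) X.sh X.G X.LOW X.SQ) X.cK X.cD hC hC' hCD h20 X.VP X.V0
      h.hVP h.hVg h.hV0 X.jv h.hjv h.hJVp h.hJVg X.io h.hlen hio X.f0k hf0kg J' Y.gD Y.ND
      (fun i hi key q hq => ⟨(hDg i key q hq).2, hDJ i hi key q hq⟩) Y.tA h.htA.ge h.hA ι hι t
    have h4 := mkJV_hom (Cst.mk (8 * Ch.nb) X.sh X.G X.LOW X.SQ) X.cK X.cD X.VP X.jv h.hjv h.hjb
      (X.V0.hom (8 * Ch.nb) X.cD.n k (MvPolynomial.X (ι t)))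
    have h5 := hd (X.f0.ev (8 * Ch.nb) k * (MvPolynomial.X (ι t) -
      j0 (X.V0.hom (8 * Ch.nb) X.cD.n k (MvPolynomial.X (ι t)))))
    rw [← h4, hf0k] at h3
    have h6 : X.VP.hom (8 * Ch.nb) X.cK.n k (X.f0.ev (8 * Ch.nb) k * (MvPolynomial.X (ι t) -
      j0 (X.V0.hom (8 * Ch.nb) X.cD.n k (MvPolynomial.X (ι t))))) ∈ J' := by
      rw [map_mul, map_sub]
      exact h3
    have h7 := Ideal.add_mem _ h5 h6
    rwa [sub_add_cancel] at h7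

end Pool.Agent.Helper97.Hilb8.K
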