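import Pool.Agent.Helper97.Hilb8.LemmaI

/-!
# Normal form of 8-dimensional algebras in characteristic 2: all squares of `V1` in `V1`
-/

universe u

namespace Pool.Agent.Helper97.Hilb8

namespace LI2A

open LI

variable {κ : Type u} [Field κ] {A : Type u} [CommRing A] [Algebra κ A]

theorem li8 {v0 v1 v2 v3 v4 v5 v6 v7 : A}
    (h : ∀ a b c d e f g k : κ,
      algebraMap κ A a * v0 + algebraMap κ A b * v1 + algebraMap κ A c * v2 +
        algebraMap κ A d * v3 + algebraMap κ A e * v4 + algebraMap κ A f * v5 +
        algebraMap κ A g * v6 + algebraMap κ A k * v7 = 0 →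
      a = 0 ∧ b = 0 ∧ c = 0 ∧ d = 0 ∧ e = 0 ∧ f = 0 ∧ g = 0 ∧ k = 0) :
    LinearIndependent κ ![v0, v1, v2, v3, v4, v5, v6, v7] := by
  rw [Fintype.linearIndependent_iff]
  intro g hg
  rw [Fin.sum_univ_eight] at hg
  simp only [Algebra.smul_def] at hg
  obtain ⟨h0, h1, h2, h3, h4, h5, h6, h7⟩ := h _ _ _ _ _ _ _ _ hg
  intro i
  fin_cases i <;> assumption

theorem li5 {v0 v1 v2 v3 v4 : A}
    (h : ∀ a b c d e : κ, algebraMap κ A a * v0 + algebraMap κ A b * v1 +
        algebraMap κ A c * v2 + algebraMap κ A d * v3 + algebraMap κ A e * v4 = 0 →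
      a = 0 ∧ b = 0 ∧ c = 0 ∧ d = 0 ∧ e = 0) :
    LinearIndependent κ ![v0, v1, v2, v3, v4] := by
  rw [Fintype.linearIndependent_iff]
  intro g hg
  rw [Fin.sum_univ_five] at hg
  simp only [Algebra.smul_def] at hg
  obtain ⟨h0, h1, h2, h3, h4⟩ := h _ _ _ _ _ hg
  intro i
  fin_cases i <;> assumption

/-- five independent elements of a five-dimensional space span it -/
theorem span5 [FiniteDimensional κ A] {V : Submodule κ A} (hd : Module.finrank κ V = 5)
    {v0 v1 v2 v3 v4 : A} (h0 : v0 ∈ V) (h1 : v1 ∈ V) (h2 : v2 ∈ V) (h3 : v3 ∈ V) (h4 : v4 ∈ V)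
    (h : LinearIndependent κ ![v0, v1, v2, v3, v4]) :
    Submodule.span κ {v0, v1, v2, v3, v4} = V := by
  have hr : Set.range ![v0, v1, v2, v3, v4] = {v0, v1, v2, v3, v4} := by
    ext a
    simp only [Set.mem_range, Fin.exists_fin_succ, Set.mem_insert_iff, Set.mem_singleton_iff]
    simp [eq_comm]
  have h5 : Module.finrank κ (Submodule.span κ (Set.range ![v0, v1, v2, v3, v4])) = 5 := by
    rw [finrank_span_eq_card h]
    simp
  rw [hr] at h5
  refine Submodule.eq_of_le_of_finrank_eq ?_ (by rw [h5, hd])
  rw [Submodule.span_le]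
  rintro a (rfl | rfl | rfl | rfl | rfl) <;> assumption

/-- three elements independent modulo `V` -/
def I3 (V : Submodule κ A) (p q r : A) : Prop :=
  ∀ a b c : κ, algebraMap κ A a * p + algebraMap κ A b * q + algebraMap κ A c * r ∈ V →
    a = 0 ∧ b = 0 ∧ c = 0

/-- two elements independent modulo `V` -/
def I2 (V : Submodule κ A) (p q : A) : Prop :=
  ∀ a b : κ, algebraMap κ A a * p + algebraMap κ A b * q ∈ V → a = 0 ∧ b = 0

theorem I3.eq_top [FiniteDimensional κ A] {V M : Submodule κ A} {p q r : A} (h : I3 V p q r)
    (hd : Module.finrank κ V + 3 = Module.finrank κ A) (hV : V ≤ M) (hp : p ∈ M) (hq : q ∈ M)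
    (hr : r ∈ M) : M = ⊤ := by
  have h1 : p ∉ V := fun hp => by
    have := h 1 0 0 (by simpa using hp)
    exact one_ne_zero this.1
  have h2 : q ∉ V ⊔ Submodule.span κ {p} := fun hq => by
    obtain ⟨c, u, hu, e⟩ := mem_sup_sing.1 hq
    have := h (-c) 1 0 (by
      have : algebraMap κ A (-c) * p + algebraMap κ A 1 * q + algebraMap κ A 0 * r = u := by
        rw [e, map_neg, map_one, map_zero]; ring
      rw [this]; exact hu)
    exact one_ne_zero this.2.1
  have h3 : r ∉ V ⊔ Submodule.span κ {p} ⊔ Submodule.span κ {q} := fun hr => by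
    obtain ⟨c, u, hu, e⟩ := mem_sup_sing.1 hr
    obtain ⟨d, u', hu', rfl⟩ := mem_sup_sing.1 hu
    have := h (-d) (-c) 1 (by
      have : algebraMap κ A (-d) * p + algebraMap κ A (-c) * q + algebraMap κ A 1 * r = u' := by
        rw [e, map_neg, map_one, map_neg]; ring
      rw [this]; exact hu')
    exact one_ne_zero this.2.2
  have step : ∀ (W : Submodule κ A) (v : A), v ∉ W →
      Module.finrank κ W < Module.finrank κ (W ⊔ Submodule.span κ {v} : Submodule κ A) := by
    intro W v hv
    apply Submodule.finrank_lt_finrank_of_lt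
    refine lt_of_le_of_ne le_sup_left fun h => hv ?_
    rw [h]
    exact Submodule.mem_sup_right (Submodule.mem_span_singleton_self v)
  have s1 := step _ _ h1
  have s2 := step _ _ h2
  have s3 := step _ _ h3
  have hle : V ⊔ Submodule.span κ {p} ⊔ Submodule.span κ {q} ⊔ Submodule.span κ {r} ≤ M := by
    refine sup_le (sup_le (sup_le hV ?_) ?_) ?_ <;>
      rwa [Submodule.span_singleton_le_iff_mem]
  have s4 := Submodule.finrank_mono hle
  have s5 := Submodule.finrank_le M
  exact Submodule.eq_top_of_finrank_eq (by omega)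

/-- if `p, q` are independent and `p, q, r` dependent modulo `V`, then `r` is in
`V + κ p + κ q` -/
theorem mem_of_not_I3 {V : Submodule κ A} {p q r : A} (h2 : I2 V p q) (h3 : ¬ I3 V p q r) :
    r ∈ V ⊔ Submodule.span κ {p} ⊔ Submodule.span κ {q} := by
  unfold I3 at h3
  push Not at h3
  obtain ⟨a, b, c, hm, hne⟩ := h3
  have hc : c ≠ 0 := by
    rintro rfl
    have := h2 a b (by simpa using hm)
    exact hne this.1 this.2 rfl
  rw [mem_sup_sing]
  refine ⟨-(c⁻¹ * b), r + algebraMap κ A (c⁻¹ * b) * q, ?_, by rw [map_neg]; ring⟩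
  rw [mem_sup_sing]
  refine ⟨-(c⁻¹ * a), r + algebraMap κ A (c⁻¹ * b) * q + algebraMap κ A (c⁻¹ * a) * p, ?_,
    by rw [map_neg]; ring⟩
  have h4 := cm hm c⁻¹
  have h5 : algebraMap κ A c⁻¹ * (algebraMap κ A a * p + algebraMap κ A b * q +
      algebraMap κ A c * r) = r + algebraMap κ A (c⁻¹ * b) * q + algebraMap κ A (c⁻¹ * a) * p := by
    have h6 : algebraMap κ A c⁻¹ * algebraMap κ A c = 1 := by
      rw [← map_mul, inv_mul_cancel₀ hc, map_one]
    rw [map_mul, map_mul]
    linear_combination r * h6
  rwa [h5] at h4

/-- if `p` is not in `V` and `p, q` are dependent modulo `V`, then `q` is in `V + κ p` -/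
theorem mem_of_not_I2 {V : Submodule κ A} {p q : A} (h1 : p ∉ V) (h2 : ¬ I2 V p q) :
    q ∈ V ⊔ Submodule.span κ {p} := by
  unfold I2 at h2
  push Not at h2
  obtain ⟨a, b, hm, hne⟩ := h2
  have hb : b ≠ 0 := by
    rintro rfl
    exact hne (cz h1 (by simpa using hm)) rfl
  rw [mem_sup_sing]
  refine ⟨-(b⁻¹ * a), q + algebraMap κ A (b⁻¹ * a) * p, ?_, by rw [map_neg]; ring⟩
  have h4 := cm hm b⁻¹
  have h5 : algebraMap κ A b⁻¹ * (algebraMap κ A a * p + algebraMap κ A b * q) =
      q + algebraMap κ A (b⁻¹ * a) * p := by
    have h6 : algebraMap κ A b⁻¹ * algebraMap κ A b = 1 := by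
      rw [← map_mul, inv_mul_cancel₀ hb, map_one]
    rw [map_mul]
    linear_combination q * h6
  rwa [h5] at h4

/-- `q` outside `V + κ p`, `p` outside `V`: independent modulo `V` -/
theorem I2_of {V : Submodule κ A} {p q : A} (h1 : p ∉ V) (h2 : q ∉ V ⊔ Submodule.span κ {p}) :
    I2 V p q := by
  intro a b h
  have hb : b = 0 := by
    apply cz h2
    have e : algebraMap κ A b * q = (algebraMap κ A a * p + algebraMap κ A b * q) +
        algebraMap κ A (-a) * p := by rw [map_neg]; ring
    rw [e]
    exact Submodule.add_mem _ (Submodule.mem_sup_left h)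
      (cm (Submodule.mem_sup_right (Submodule.mem_span_singleton_self _)) _)
  subst hb
  exact ⟨cz h1 (by simpa using h), rfl⟩

/-- the intersection of `V + κ p` and `V + κ q` for independent `p, q` -/
theorem inter_of_I2 {V : Submodule κ A} {p q r : A} (h : I2 V p q)
    (h1 : r ∈ V ⊔ Submodule.span κ {p}) (h2 : r ∈ V ⊔ Submodule.span κ {q}) : r ∈ V := by
  obtain ⟨c, u, hu, rfl⟩ := mem_sup_sing.1 h1
  obtain ⟨d, u', hu', e⟩ := mem_sup_sing.1 h2
  have := h c (-d) (by
    have e1 : algebraMap κ A c * p + algebraMap κ A (-d) * q = u' - u := by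
      rw [map_neg]; linear_combination e
    rw [e1]; exact V.sub_mem hu' hu)
  rw [this.1, map_zero, zero_mul, add_zero]
  exact hu

end LI2A

open LI LI2A in
/-- MODULE LI2-A (file L/LI2A.lean). -/
theorem li2_caseA {κ : Type u} [Field κ] [Infinite κ] (h2 : (2 : κ) = 0) {A : Type u} [CommRing A]
    [Algebra κ A] (hA : Module.finrank κ A = 8) (V1 : Submodule κ A) (h1 : (1 : A) ∈ V1)
    (hd : Module.finrank κ V1 = 5)
    (hgen : ∀ W : Submodule κ A, (1 : A) ∈ W → (∀ v ∈ V1, ∀ w ∈ W, v * w ∈ W) → W = ⊤)
    (hsq : ∀ v ∈ V1, v * v ∈ V1) :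
    (∃ x1 x2 x3 z : A, LinearIndependent κ ![1, x1, x2, x3, z, x1 * z, x2 * z, x3 * z] ∧
      z * z ∈ Submodule.span κ {1, x1, x2, x3, z}) ∨
    (∃ x1 x2 x3 w : A, LinearIndependent κ ![1, x1, x2, x3, w, x1 * x2, x1 * x3, x2 * x3] ∧
      x1 * x1 ∈ Submodule.span κ {1, x1, x2, x3, w} ∧
      x2 * x2 ∈ Submodule.span κ {1, x1, x2, x3, w} ∧
      x3 * x3 ∈ Submodule.span κ {1, x1, x2, x3, w}) := by
  have hfd : FiniteDimensional κ A := FiniteDimensional.of_finrank_pos (by omega)
  have hnt : Nontrivial A := by
    by_contra h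
    rw [not_nontrivial_iff_subsingleton] at h
    rw [Module.finrank_zero_of_subsingleton] at hA
    omega
  have h1ne : ∀ a : κ, algebraMap κ A a = 0 → a = 0 := fun a ha =>
    (map_eq_zero_iff _ (algebraMap κ A).injective).mp ha
  have hdd : Module.finrank κ V1 + 3 = Module.finrank κ A := by omega
  have hmm : ∀ v ∈ V1, ∀ w ∈ V1, v * w ∈ V1 * V1 := fun v hv w hw =>
    Submodule.mul_mem_mul hv hw
  have hVM : V1 ≤ V1 * V1 := fun v hv => by simpa using hmm 1 h1 v hv
  -- A1: the products span everything
  have hM : V1 * V1 = ⊤ := by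
    by_contra hM
    obtain ⟨x, hx, y, hy, z, hz, hxyz⟩ : ∃ x ∈ V1, ∃ y ∈ V1, ∃ z ∈ V1,
        x * (y * z) ∉ V1 * V1 := by
      by_contra hcon
      push Not at hcon
      refine hM (hgen _ (hVM h1) fun v hv w hw => ?_)
      refine Submodule.mul_induction_on hw (fun y hy z hz => hcon v hv y hy z hz) fun a b ha hb => ?_
      rw [mul_add]
      exact Submodule.add_mem _ ha hb
    refine hM (I3.eq_top (p := x * y) (q := x * z) (r := y * z) ?_ hdd hVM (hmm x hx y hy)
      (hmm x hx z hz) (hmm y hy z hz))
    intro a b c h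
    have hc : c = 0 := by
      apply cz hxyz
      have e : algebraMap κ A c * (x * (y * z)) = x * (algebraMap κ A a * (x * y) +
          algebraMap κ A b * (x * z) + algebraMap κ A c * (y * z)) -
          algebraMap κ A a * ((x * x) * y) - algebraMap κ A b * ((x * x) * z) := by ring
      rw [e]
      exact Submodule.sub_mem _ (Submodule.sub_mem _ (hmm _ hx _ h)
        (cm (hmm _ (hsq x hx) _ hy) _)) (cm (hmm _ (hsq x hx) _ hz) _)
    have hb : b = 0 := by
      apply cz hxyz
      have e : algebraMap κ A b * (x * (y * z)) = y * (algebraMap κ A a * (x * y) +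
          algebraMap κ A b * (x * z) + algebraMap κ A c * (y * z)) -
          algebraMap κ A a * ((y * y) * x) - algebraMap κ A c * ((y * y) * z) := by ring
      rw [e]
      exact Submodule.sub_mem _ (Submodule.sub_mem _ (hmm _ hy _ h)
        (cm (hmm _ (hsq y hy) _ hx) _)) (cm (hmm _ (hsq y hy) _ hz) _)
    have ha : a = 0 := by
      apply cz hxyz
      have e : algebraMap κ A a * (x * (y * z)) = z * (algebraMap κ A a * (x * y) +
          algebraMap κ A b * (x * z) + algebraMap κ A c * (y * z)) -
          algebraMap κ A b * ((z * z) * x) - algebraMap κ A c * ((z * z) * y) := by ring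
      rw [e]
      exact Submodule.sub_mem _ (Submodule.sub_mem _ (hmm _ hz _ h)
        (cm (hmm _ (hsq z hz) _ hx) _)) (cm (hmm _ (hsq z hz) _ hy) _)
    exact ⟨ha, hb, hc⟩
  -- a subspace containing all products is everything
  have htop : ∀ E : Submodule κ A, (∀ u ∈ V1, ∀ v ∈ V1, u * v ∈ E) → E = ⊤ := by
    intro E hE
    rw [eq_top_iff, ← hM, Submodule.mul_le]
    exact hE
  -- A2
  by_cases hst : ∃ z ∈ V1, ∃ x1 ∈ V1, ∃ x2 ∈ V1, ∃ x3 ∈ V1, I3 V1 (x1 * z) (x2 * z) (x3 * z)
  · left
    obtain ⟨z, hz, x1, hx1, x2, hx2, x3, hx3, hI⟩ := hst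
    have hli : ∀ a b c d e : κ, algebraMap κ A a * 1 + algebraMap κ A b * x1 +
        algebraMap κ A c * x2 + algebraMap κ A d * x3 + algebraMap κ A e * z = 0 →
      a = 0 ∧ b = 0 ∧ c = 0 ∧ d = 0 ∧ e = 0 := by
      intro a b c d e h
      obtain ⟨hb, hc, hd'⟩ := hI b c d (by
        have e1 : algebraMap κ A b * (x1 * z) + algebraMap κ A c * (x2 * z) +
            algebraMap κ A d * (x3 * z) = -(algebraMap κ A a * z + algebraMap κ A e * (z * z)) := by
          linear_combination z * h
        rw [e1]
        exact V1.neg_mem (V1.add_mem (cm hz a) (cm (hsq z hz) e)))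
      subst hb hc hd'
      simp only [map_zero, zero_mul, add_zero, mul_one] at h
      obtain ⟨he, -, -⟩ := hI e 0 0 (by
        have e1 : algebraMap κ A e * (x1 * z) + algebraMap κ A 0 * (x2 * z) +
            algebraMap κ A 0 * (x3 * z) = -(algebraMap κ A a * x1) := by
          rw [map_zero]
          linear_combination x1 * h
        rw [e1]
        exact V1.neg_mem (cm hx1 a))
      subst he
      simp only [map_zero, zero_mul, add_zero] at h
      exact ⟨h1ne a h, rfl, rfl, rfl, rfl⟩
    refine ⟨x1, x2, x3, z, li8 fun a b c d e f g k h => ?_, ?_⟩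
    · obtain ⟨hf, hg, hk⟩ := hI f g k (by
        have e1 : algebraMap κ A f * (x1 * z) + algebraMap κ A g * (x2 * z) +
            algebraMap κ A k * (x3 * z) = -(algebraMap κ A a * 1 + algebraMap κ A b * x1 +
            algebraMap κ A c * x2 + algebraMap κ A d * x3 + algebraMap κ A e * z) := by
          linear_combination h
        rw [e1]
        exact V1.neg_mem (V1.add_mem (V1.add_mem (V1.add_mem (V1.add_mem (cm h1 a) (cm hx1 b))
          (cm hx2 c)) (cm hx3 d)) (cm hz e)))
      subst hf hg hk
      obtain ⟨ha, hb, hc, hd', he⟩ := hli a b c d e (by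
        rw [map_zero] at h
        linear_combination h)
      exact ⟨ha, hb, hc, hd', he, rfl, rfl, rfl⟩
    · rw [span5 hd h1 hx1 hx2 hx3 hz (li5 hli)]
      exact hsq z hz
  · push Not at hst
    right
    -- A3
    obtain ⟨z, hz, x, hx, y, hy, hI⟩ : ∃ z ∈ V1, ∃ x ∈ V1, ∃ y ∈ V1, I2 V1 (z * x) (z * y) := by
      by_contra hcon
      push Not at hcon
      obtain ⟨u1, hu1, v1, hv1, hp⟩ : ∃ u ∈ V1, ∃ v ∈ V1, u * v ∉ V1 := by
        by_contra hc
        push Not at hc
        have := htop V1 hc
        rw [this, finrank_top] at hd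
        omega
      obtain ⟨u2, hu2, v2, hv2, hq⟩ : ∃ u ∈ V1, ∃ v ∈ V1,
          u * v ∉ V1 ⊔ Submodule.span κ {u1 * v1} := by
        by_contra hc
        push Not at hc
        have h3 := htop _ hc
        have h4 := finrank_sup_sing_le V1 (u1 * v1)
        rw [h3, finrank_top] at h4
        omega
      have hq' : u2 * v2 ∉ V1 := fun h => hq (Submodule.mem_sup_left h)
      have hpq : I2 V1 (u1 * v1) (u2 * v2) := I2_of hp hq
      have a1 : ∀ w ∈ V1, u1 * w ∈ V1 ⊔ Submodule.span κ {u1 * v1} := fun w hw =>
        mem_of_not_I2 hp (hcon u1 hu1 v1 hv1 w hw)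
      have a2 : ∀ w ∈ V1, v1 * w ∈ V1 ⊔ Submodule.span κ {u1 * v1} := fun w hw =>
        mem_of_not_I2 hp (by rw [mul_comm u1 v1]; exact hcon v1 hv1 u1 hu1 w hw)
      have a3 : ∀ w ∈ V1, u2 * w ∈ V1 ⊔ Submodule.span κ {u2 * v2} := fun w hw =>
        mem_of_not_I2 hq' (hcon u2 hu2 v2 hv2 w hw)
      have a4 : ∀ w ∈ V1, v2 * w ∈ V1 ⊔ Submodule.span κ {u2 * v2} := fun w hw =>
        mem_of_not_I2 hq' (by rw [mul_comm u2 v2]; exact hcon v2 hv2 u2 hu2 w hw)
      have b1 : u1 * v2 ∈ V1 := inter_of_I2 hpq (a1 v2 hv2) (by
        rw [mul_comm u1 v2]; exact a4 u1 hu1)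
      have b2 : u2 * v1 ∈ V1 := inter_of_I2 hpq (by rw [mul_comm u2 v1]; exact a2 u2 hu2)
        (a3 v1 hv1)
      refine hcon (u1 + u2) (V1.add_mem hu1 hu2) v1 hv1 v2 hv2 fun a b h => hpq a b ?_
      have e : algebraMap κ A a * (u1 * v1) + algebraMap κ A b * (u2 * v2) =
          (algebraMap κ A a * ((u1 + u2) * v1) + algebraMap κ A b * ((u1 + u2) * v2)) -
          algebraMap κ A a * (u2 * v1) - algebraMap κ A b * (u1 * v2) := by ring
      rw [e]
      exact V1.sub_mem (V1.sub_mem h (cm b2 a)) (cm b1 b)
    -- the basis of V1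
    have hli4 : ∀ a b c d : κ, algebraMap κ A a * 1 + algebraMap κ A b * z +
        algebraMap κ A c * x + algebraMap κ A d * y = 0 → a = 0 ∧ b = 0 ∧ c = 0 ∧ d = 0 := by
      intro a b c d h
      obtain ⟨hc, hd'⟩ := hI c d (by
        have e1 : algebraMap κ A c * (z * x) + algebraMap κ A d * (z * y) =
            -(algebraMap κ A a * z + algebraMap κ A b * (z * z)) := by
          linear_combination z * h
        rw [e1]
        exact V1.neg_mem (V1.add_mem (cm hz a) (cm (hsq z hz) b)))
      subst hc hd'
      simp only [map_zero, zero_mul, add_zero, mul_one] at h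
      obtain ⟨hb, -⟩ := hI b 0 (by
        have e1 : algebraMap κ A b * (z * x) + algebraMap κ A 0 * (z * y) =
            -(algebraMap κ A a * x) := by
          rw [map_zero]
          linear_combination x * h
        rw [e1]
        exact V1.neg_mem (cm hx a))
      subst hb
      simp only [map_zero, zero_mul, add_zero] at h
      exact ⟨h1ne a h, rfl, rfl, rfl⟩
    have hd4 : Module.finrank κ (Submodule.span κ ({1, z, x, y} : Set A)) ≤ 4 := by
      have h3 : ({1, z, x, y} : Set A) = Set.range ![1, z, x, y] := by
        ext a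
        simp only [Set.mem_range, Fin.exists_fin_succ, Set.mem_insert_iff, Set.mem_singleton_iff]
        simp [eq_comm]
      rw [h3]
      exact finrank_range_le_card _
    obtain ⟨w0, hw0, hw0'⟩ := exists_notMem (V := V1)
      (W := Submodule.span κ ({1, z, x, y} : Set A)) (by omega)
    have hli5 : ∀ w : A, w ∉ Submodule.span κ ({1, z, x, y} : Set A) →
        ∀ a b c d e : κ, algebraMap κ A a * 1 + algebraMap κ A b * z +
        algebraMap κ A c * x + algebraMap κ A d * y + algebraMap κ A e * w = 0 →
        a = 0 ∧ b = 0 ∧ c = 0 ∧ d = 0 ∧ e = 0 := by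
      intro w hw a b c d e h
      have he : e = 0 := by
        apply cz hw
        have e1 : algebraMap κ A e * w = -(algebraMap κ A a * 1 + algebraMap κ A b * z +
            algebraMap κ A c * x + algebraMap κ A d * y) := by linear_combination h
        rw [e1]
        exact Submodule.neg_mem _ (Submodule.add_mem _ (Submodule.add_mem _ (Submodule.add_mem _
          (cm (Submodule.subset_span (by simp)) a) (cm (Submodule.subset_span (by simp)) b))
          (cm (Submodule.subset_span (by simp)) c)) (cm (Submodule.subset_span (by simp)) d))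
      subst he
      obtain ⟨ha, hb, hc, hd'⟩ := hli4 a b c d (by
        rw [map_zero] at h
        linear_combination h)
      exact ⟨ha, hb, hc, hd', rfl⟩
    by_cases hf : I3 V1 (z * x) (z * y) (x * y)
    · -- second alternative
      have hs := span5 hd h1 hz hx hy hw0 (li5 (hli5 w0 hw0'))
      refine ⟨z, x, y, w0, li8 fun a b c d e f g k h => ?_, ?_, ?_, ?_⟩
      · obtain ⟨hf', hg, hk⟩ := hf f g k (by
          have e1 : algebraMap κ A f * (z * x) + algebraMap κ A g * (z * y) +
              algebraMap κ A k * (x * y) = -(algebraMap κ A a * 1 + algebraMap κ A b * z +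
              algebraMap κ A c * x + algebraMap κ A d * y + algebraMap κ A e * w0) := by
            linear_combination h
          rw [e1]
          exact V1.neg_mem (V1.add_mem (V1.add_mem (V1.add_mem (V1.add_mem (cm h1 a) (cm hz b))
            (cm hx c)) (cm hy d)) (cm hw0 e)))
        subst hf' hg hk
        obtain ⟨ha, hb, hc, hd', he⟩ := hli5 w0 hw0' a b c d e (by
          rw [map_zero] at h
          linear_combination h)
        exact ⟨ha, hb, hc, hd', he, rfl, rfl, rfl⟩
      · rw [hs]; exact hsq z hz
      · rw [hs]; exact hsq x hx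
      · rw [hs]; exact hsq y hy
    · -- impossible
      exfalso
      set E := V1 ⊔ Submodule.span κ {z * x} ⊔ Submodule.span κ {z * y} with hE
      have hVE : V1 ≤ E := le_sup_left.trans le_sup_left
      have hzxE : z * x ∈ E := Submodule.mem_sup_left
        (Submodule.mem_sup_right (Submodule.mem_span_singleton_self _))
      have hzyE : z * y ∈ E := Submodule.mem_sup_right (Submodule.mem_span_singleton_self _)
      have hdE : Module.finrank κ E ≤ 7 := by
        have h3 := finrank_sup_sing_le V1 (z * x)
        have h4 := finrank_sup_sing_le (V1 ⊔ Submodule.span κ {z * x}) (z * y)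
        rw [← hE] at h4
        omega
      have hfE : x * y ∈ E := mem_of_not_I3 hI hf
      obtain ⟨b, u, hu, efe⟩ := mem_sup_sing.1 hfE
      obtain ⟨a, u', hu', efe'⟩ := mem_sup_sing.1 hu
      -- x * y = u' + a zx + b zy
      have efx : x * y = u' + algebraMap κ A a * (z * x) + algebraMap κ A b * (z * y) := by
        rw [efe, efe']
      -- the element w
      have hzw0 : z * w0 ∈ E := mem_of_not_I3 hI (by
        have := hst z hz x hx y hy w0 hw0
        rwa [mul_comm x z, mul_comm y z, mul_comm w0 z] at this)
      obtain ⟨β, s, hs, es⟩ := mem_sup_sing.1 hzw0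
      obtain ⟨α, s', hs', es'⟩ := mem_sup_sing.1 hs
      obtain ⟨w, hw, hzw, hwn⟩ : ∃ w ∈ V1, z * w ∈ V1 ∧
          w ∉ Submodule.span κ ({1, z, x, y} : Set A) := by
        refine ⟨w0 - algebraMap κ A α * x - algebraMap κ A β * y,
          V1.sub_mem (V1.sub_mem hw0 (cm hx α)) (cm hy β), ?_, fun hc => hw0' ?_⟩
        · have e1 : z * (w0 - algebraMap κ A α * x - algebraMap κ A β * y) = s' := by
            linear_combination es + es'
          rw [e1]; exact hs'
        · have e1 : w0 = (w0 - algebraMap κ A α * x - algebraMap κ A β * y) +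
              algebraMap κ A α * x + algebraMap κ A β * y := by ring
          rw [e1]
          exact Submodule.add_mem _ (Submodule.add_mem _ hc
            (cm (Submodule.subset_span (by simp)) α)) (cm (Submodule.subset_span (by simp)) β)
      have hsw := span5 hd h1 hz hx hy hw (li5 (hli5 w hwn))
      -- a good t
      have hgood : ∀ c : κ, ∃ t : κ, t ≠ 0 ∧ 1 + t * c ≠ 0 := by
        intro c
        classical
        obtain ⟨t, ht⟩ := Infinite.exists_notMem_finset ({0, -c⁻¹} : Finset κ)
        simp only [Finset.mem_insert, Finset.mem_singleton, not_or] at ht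
        refine ⟨t, ht.1, fun h => ?_⟩
        have hc : c ≠ 0 := by
          rintro rfl
          simp at h
        apply ht.2
        field_simp
        linear_combination h
      have hxwE : x * w ∈ E := by
        obtain ⟨t, ht, htb⟩ := hgood b
        have hv : z + algebraMap κ A t * x ∈ V1 := V1.add_mem hz (cm hx t)
        have i2 : I2 V1 ((z + algebraMap κ A t * x) * x) ((z + algebraMap κ A t * x) * y) := by
          intro c d h
          obtain ⟨h3, h4⟩ := hI (c + d * t * a) (d * (1 + t * b)) (by
            have e1 : algebraMap κ A (c + d * t * a) * (z * x) +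
                algebraMap κ A (d * (1 + t * b)) * (z * y) =
                (algebraMap κ A c * ((z + algebraMap κ A t * x) * x) +
                algebraMap κ A d * ((z + algebraMap κ A t * x) * y)) -
                algebraMap κ A (c * t) * (x * x) - algebraMap κ A (d * t) * u' := by
              simp only [map_add, map_mul, map_one]
              linear_combination (algebraMap κ A d * algebraMap κ A t) * (-efx)
            rw [e1]
            exact V1.sub_mem (V1.sub_mem h (cm (hsq x hx) _)) (cm hu' _))
          have hd' : d = 0 := by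
            rcases mul_eq_zero.1 h4 with h | h
            · exact h
            · exact absurd h htb
          subst hd'
          exact ⟨by simpa using h3, rfl⟩
        have h3 := mem_of_not_I3 i2 (r := (z + algebraMap κ A t * x) * w) (by
          have := hst _ hv x hx y hy w hw
          rwa [mul_comm x, mul_comm y, mul_comm w] at this)
        have h4 : V1 ⊔ Submodule.span κ {(z + algebraMap κ A t * x) * x} ⊔
            Submodule.span κ {(z + algebraMap κ A t * x) * y} ≤ E := by
          refine sup_le (sup_le hVE ?_) ?_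
          · rw [Submodule.span_singleton_le_iff_mem]
            have e1 : (z + algebraMap κ A t * x) * x = z * x + algebraMap κ A t * (x * x) := by ring
            rw [e1]
            exact E.add_mem hzxE (cm (hVE (hsq x hx)) t)
          · rw [Submodule.span_singleton_le_iff_mem]
            have e1 : (z + algebraMap κ A t * x) * y = z * y + algebraMap κ A t * (x * y) := by ring
            rw [e1]
            exact E.add_mem hzyE (cm hfE t)
        have h5 := h4 h3
        by_contra hcon
        apply ht
        apply cz hcon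
        have e1 : algebraMap κ A t * (x * w) = (z + algebraMap κ A t * x) * w - z * w := by ring
        rw [e1]
        exact E.sub_mem h5 (hVE hzw)
      have hywE : y * w ∈ E := by
        obtain ⟨t, ht, hta⟩ := hgood a
        have hv : z + algebraMap κ A t * y ∈ V1 := V1.add_mem hz (cm hy t)
        have i2 : I2 V1 ((z + algebraMap κ A t * y) * x) ((z + algebraMap κ A t * y) * y) := by
          intro c d h
          obtain ⟨h3, h4⟩ := hI (c * (1 + t * a)) (d + c * t * b) (by
            have e1 : algebraMap κ A (c * (1 + t * a)) * (z * x) +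
                algebraMap κ A (d + c * t * b) * (z * y) =
                (algebraMap κ A c * ((z + algebraMap κ A t * y) * x) +
                algebraMap κ A d * ((z + algebraMap κ A t * y) * y)) -
                algebraMap κ A (d * t) * (y * y) - algebraMap κ A (c * t) * u' := by
              simp only [map_add, map_mul, map_one]
              linear_combination (algebraMap κ A c * algebraMap κ A t) * (-efx)
            rw [e1]
            exact V1.sub_mem (V1.sub_mem h (cm (hsq y hy) _)) (cm hu' _))
          have hc' : c = 0 := by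
            rcases mul_eq_zero.1 h3 with h | h
            · exact h
            · exact absurd h hta
          subst hc'
          exact ⟨rfl, by simpa using h4⟩
        have h3 := mem_of_not_I3 i2 (r := (z + algebraMap κ A t * y) * w) (by
          have := hst _ hv x hx y hy w hw
          rwa [mul_comm x, mul_comm y, mul_comm w] at this)
        have h4 : V1 ⊔ Submodule.span κ {(z + algebraMap κ A t * y) * x} ⊔
            Submodule.span κ {(z + algebraMap κ A t * y) * y} ≤ E := by
          refine sup_le (sup_le hVE ?_) ?_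
          · rw [Submodule.span_singleton_le_iff_mem]
            have e1 : (z + algebraMap κ A t * y) * x = z * x + algebraMap κ A t * (x * y) := by ring
            rw [e1]
            exact E.add_mem hzxE (cm hfE t)
          · rw [Submodule.span_singleton_le_iff_mem]
            have e1 : (z + algebraMap κ A t * y) * y = z * y + algebraMap κ A t * (y * y) := by ring
            rw [e1]
            exact E.add_mem hzyE (cm (hVE (hsq y hy)) t)
        have h5 := h4 h3
        by_contra hcon
        apply ht
        apply cz hcon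
        have e1 : algebraMap κ A t * (y * w) = (z + algebraMap κ A t * y) * w - z * w := by ring
        rw [e1]
        exact E.sub_mem h5 (hVE hzw)
      -- all products are in E
      have hEtop : E = ⊤ := by
        apply htop
        have h3 : Submodule.span κ ({1, z, x, y, w} : Set A) *
            Submodule.span κ ({1, z, x, y, w} : Set A) ≤ E := by
          rw [Submodule.span_mul_span, Submodule.span_le]
          rintro _ ⟨p, hp, q, hq, rfl⟩
          simp only [Set.mem_insert_iff, Set.mem_singleton_iff] at hp hq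
          show p * q ∈ E
          rcases hp with rfl | rfl | rfl | rfl | rfl <;>
            rcases hq with rfl | rfl | rfl | rfl | rfl <;>
            first
            | (rw [one_mul]; exact hVE (by assumption))
            | (rw [mul_one]; exact hVE (by assumption))
            | exact hVE (hsq _ (by assumption))
            | assumption
            | (rw [mul_comm]; assumption)
            | exact hVE (by assumption)
            | (rw [mul_comm]; exact hVE (by assumption))
        rw [hsw] at h3
        intro u hu v hv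
        exact h3 (hmm u hu v hv)
      rw [hEtop, finrank_top] at hdE
      omega

end Pool.Agent.Helper97.Hilb8
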