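import Pool.Agent.Helper97.Hilb8.L.Units
import Pool.Agent.Helper97.Hilb8.K.Comb
import Pool.Agent.Helper97.Hilb8.K.TopC
import Pool.Agent.Helper97.Hilb8.K.Kept
import Pool.Agent.Helper97.Hilb8.K.Theta

/-!
# Soundness of the kernel-evaluable certificates in characteristic 2
-/

namespace Pool.Agent.Helper97.Hilb8.K

open MvPolynomial

section basic

variable {n : ℕ} {k : Type*} [Field k]

theorem evn_sound (h2 : (2 : k) = 0) {x y : ℕ} (h : evn x y = true) : (x : k) - (y : k) = 0 := by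
  have h1 : (x + y) &&& 1 = 0 := Nat.eq_of_beq_eq_true h
  rw [Nat.and_one_is_mod] at h1
  obtain ⟨m, hm⟩ := Nat.dvd_of_mod_eq_zero h1
  have h3 : (x : k) + (y : k) = 2 * m := by
    rw [← Nat.cast_add, hm]
    push_cast
    ring
  linear_combination h3 + ((m : k) - y) * h2

theorem odd2_sound (h2 : (2 : k) = 0) {x y : ℕ} (h : odd2 x y = true) :
    (x : k) - (y : k) = 1 := by
  have h1 : (x + y) &&& 1 = 1 := Nat.eq_of_beq_eq_true h
  rw [Nat.and_one_is_mod] at h1
  have hm : x + y = 2 * ((x + y) / 2) + 1 := by omega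
  have h3 : (x : k) + (y : k) = 2 * (((x + y) / 2 : ℕ) : k) + 1 := by
    rw [← Nat.cast_add]
    nth_rewrite 1 [hm]
    push_cast
    ring
  linear_combination h3 + ((((x + y) / 2 : ℕ) : k) - y) * h2

theorem ev_of_isZero2 (h2 : (2 : k) = 0) {p : P} (h : isZero2 p = true) : p.ev n k = 0 := by
  induction p with
  | z => rfl
  | t kk x y r ih =>
    have h' : Bool.rec (motive := fun _ => Bool) false (isZero2 r) (evn x y) = true := h
    obtain ⟨h3, h4⟩ := k4d_rec_iff.1 h'
    rw [ev_t, evn_sound h2 h3, ih h4, map_zero, add_zero]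

theorem ev_dropZ2 (h2 : (2 : k) = 0) (p : P) : (dropZ2 p).ev n k = p.ev n k := by
  induction p with
  | z => rfl
  | t kk x y r ih =>
    have h1 : dropZ2 (.t kk x y r) = Bool.rec (.t kk x y r) (dropZ2 r) (evn x y) := rfl
    rw [h1]
    cases h : evn x y with
    | false => rfl
    | true =>
      change (dropZ2 r).ev n k = _
      rw [ih, ev_t, evn_sound h2 h, map_zero, zero_add]

end basic

theorem comb2_e (G cut : ℕ) (T : Tr) (N : ℕ) (f : P → Bool) (acc : P) :
    comb2 G cut T N f .e acc = f acc := rfl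

theorem comb2_c (G cut : ℕ) (T : Tr) (N : ℕ) (f : P → Bool) (x y m i : ℕ) (l : CL) (acc : P) :
    comb2 G cut T N f (.c x y m i l) acc = (Bool.rec false (Bool.rec false
      (En.rec false (fun _ p => comb2 G cut T N f l (addmT cut m x y p (dropZ2 acc))) (look T i))
      (Nat.ble (Nat.succ i) N)) (Nat.beq (Nat.land m G) 0) : Bool) := rfl

theorem comb_gen2 (C : Cst) (hC : C.ok) {k : Type*} [Field k] (h20 : (2 : k) = 0)
    (J : Ideal (MvPolynomial (Fin C.n) k)) (cut : ℕ) (T : Tr) (N : ℕ)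
    (A B : ℕ → Prop) (hA : ∀ t, A t → Good C.n t)
    (hT : ∀ i < N, ∀ key q, look T i = .some key q → q.All A ∧ q.ev C.n k ∈ J)
    (f : P → Bool) (l : CL) (hl : l.All B) (acc : P) (h : comb2 C.G cut T N f l acc = true) :
    ∃ (a : P) (q r : MvPolynomial (Fin C.n) k), f a = true ∧ q ∈ J ∧
      a.ev C.n k = acc.ev C.n k + q - r ∧
      ∀ e ∈ r.support, ∃ K1 m, A K1 ∧ Good C.n m ∧ B m ∧ e = expo C.n (K1 + m) ∧
        K1 + m < cut := by
  induction l generalizing acc with
  | e =>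
    refine ⟨acc, 0, 0, h, J.zero_mem, by ring, fun e he => ?_⟩
    simp at he
  | c x y m i l ih =>
    rw [comb2_c] at h
    obtain ⟨h1, h⟩ := k4d_rec_iff.1 h
    obtain ⟨h2, h⟩ := k4d_rec_iff.1 h
    have hm : Good C.n m := (good_iff C hC m).1 (Nat.eq_of_beq_eq_true h1)
    have hi : i < N := Nat.le_of_ble_eq_true h2
    rw [CL.All_c] at hl
    cases hlk : look T i with
    | none => rw [hlk] at h; exact absurd h (by simp)
    | some key p =>
      rw [hlk] at h
      change comb2 C.G cut T N f l (addmT cut m x y p (dropZ2 acc)) = true at h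
      obtain ⟨hp, hpJ⟩ := hT i hi key p hlk
      obtain ⟨a, q, r, ha, hq, hev, hr⟩ := ih hl.2 _ h
      obtain ⟨r1, hr1, hr1'⟩ := ev_addmT (n := C.n) (R := k) cut m x y p A hA hm hp
      refine ⟨a, q + monomial (expo C.n m) ((x : k) - (y : k)) * p.ev C.n k, r + r1, ha,
        J.add_mem hq (J.mul_mem_left _ hpJ), ?_, fun e he => ?_⟩
      · rw [hev, hr1, ev_dropZ2 h20]
        ring
      · rcases Finset.mem_union.1 (support_add he) with he | he
        · exact hr e he
        · obtain ⟨K1, h3, h4, h5⟩ := hr1' e he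
          exact ⟨K1, m, h3, hm, hl.1, h4, h5⟩

theorem comb_zero2 (C : Cst) (hC : C.ok) {k : Type*} [Field k] (h20 : (2 : k) = 0)
    (J : Ideal (MvPolynomial (Fin C.n) k)) (D : Tr) (N : ℕ)
    (hD : ∀ i < N, ∀ key q, look D i = .some key q → q.All (Good C.n) ∧ q.ev C.n k ∈ J)
    (f : P → Bool) (l : CL) (acc : P) (h : comb2 C.G 0 D N f l acc = true) :
    ∃ a : P, f a = true ∧ acc.ev C.n k - a.ev C.n k ∈ J := by
  obtain ⟨a, q, r, ha, hq, hev, hr⟩ := comb_gen2 C hC h20 J 0 D N (Good C.n) (fun _ => True)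
    (fun _ h => h) hD f l l.all_true acc h
  have hr0 : r = 0 := by
    rw [← MvPolynomial.support_eq_empty, Finset.eq_empty_iff_forall_notMem]
    intro e he
    obtain ⟨K1, m, -, -, -, -, h6⟩ := hr e he
    exact Nat.not_lt_zero _ h6
  refine ⟨a, ha, ?_⟩
  rw [hev, hr0]
  have : acc.ev C.n k - (acc.ev C.n k + q - 0) = -q := by ring
  rw [this]
  exact J.neg_mem hq

theorem comb_sound2 (C : Cst) (hC : C.ok) {k : Type*} [Field k] (h20 : (2 : k) = 0)
    (J : Ideal (MvPolynomial (Fin C.n) k)) (D : Tr) (N : ℕ)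
    (hD : ∀ i < N, ∀ key q, look D i = .some key q → q.All (Good C.n) ∧ q.ev C.n k ∈ J)
    (l : CL) (acc : P) (h : comb2 C.G 0 D N isZero2 l acc = true) : acc.ev C.n k ∈ J := by
  obtain ⟨a, ha, h1⟩ := comb_zero2 C hC h20 J D N hD isZero2 l acc h
  rwa [ev_of_isZero2 h20 ha, sub_zero] at h1

theorem inSpan_sound2 (C : Cst) (hC : C.ok) {k : Type*} [Field k] (h20 : (2 : k) = 0)
    (J : Ideal (MvPolynomial (Fin C.n) k)) (D : Tr) (N : ℕ)
    (hD : ∀ i < N, ∀ key q, look D i = .some key q → q.All (Good C.n) ∧ q.ev C.n k ∈ J)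
    (l : CL) (p : P) (hp : p.All (Good C.n)) (h : inSpan2 C.G D N l p = true) :
    p.ev C.n k ∈ J := by
  have h1 := comb_sound2 C hC h20 J D N hD l _ h
  rw [k7b_ev_addm0 0 1 p .z hp, ev_z] at h1
  have h2 : (0 : MvPolynomial (Fin C.n) k) + MvPolynomial.C (((0 : ℕ) : k) - ((1 : ℕ) : k)) *
      p.ev C.n k = -p.ev C.n k := by
    push_cast
    rw [zero_sub, map_neg, map_one]
    ring
  rw [h2] at h1
  exact (Submodule.neg_mem_iff J).1 h1

theorem chkJ2_x (G : ℕ) (E D : Tr) (j : ℕ) (l : JL) (i : ℕ) :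
    chkJ2 G E D (.x j l) i = Bool.rec false (chkJ2 G E D l (Nat.succ i))
      (En.rec false (fun _ p => En.rec false (fun _ q => isZero2 (addm 0 0 1 q p)) (look E j))
        (look D i)) := rfl

theorem chkJ2_d (G : ℕ) (E D : Tr) (x y : ℕ) (cl : CL) (l : JL) (i : ℕ) :
    chkJ2 G E D (.d x y cl l) i =
      Bool.rec false (Bool.rec false (chkJ2 G E D l (Nat.succ i))
        (En.rec false (fun _ p => comb2 G 0 D i isZero2 cl (addm 0 y x p .z)) (look D i)))
      (odd2 x y) := rfl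

theorem chkJ_sound2 (C : Cst) (hC : C.ok) {k : Type*} [Field k] (h20 : (2 : k) = 0)
    (J : Ideal (MvPolynomial (Fin C.n) k)) (E D : Tr)
    (hE : TAll (fun _ _ p => p.All (Good C.n) ∧ p.ev C.n k ∈ J) E)
    (hD : TAll (fun _ _ p => p.All (Good C.n)) D) (l : JL) (i0 : ℕ)
    (h0 : ∀ i < i0, ∀ key q, look D i = .some key q → q.ev C.n k ∈ J)
    (h : chkJ2 C.G E D l i0 = true) :
    ∀ i < i0 + l.len, ∀ key q, look D i = .some key q → q.ev C.n k ∈ J := by
  induction l generalizing i0 with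
  | e =>
    intro i hi
    exact h0 i hi
  | x j l ih =>
    rw [chkJ2_x] at h
    obtain ⟨h1, h⟩ := k4d_rec_iff.1 h
    have hlen : i0 + (JL.x j l).len = i0 + 1 + l.len := by
      change i0 + (l.len + 1) = _
      omega
    rw [hlen]
    refine ih (i0 + 1) (fun i hi key q hq => ?_) h
    rcases Nat.lt_succ_iff_lt_or_eq.1 hi with hi | rfl
    · exact h0 i hi key q hq
    · rw [hq] at h1
      cases hj : look E j with
      | none => rw [hj] at h1; exact absurd h1 (by simp)
      | some key' q' =>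
        rw [hj] at h1
        obtain ⟨h3, h4⟩ := hE j key' q' hj
        have h5 := ev_of_isZero2 h20 (n := C.n) (show isZero2 (addm 0 0 1 q' q) = true from h1)
        rw [k7b_ev_addm0 0 1 q' q h3] at h5
        have h6 : q.ev C.n k = q'.ev C.n k := by
          have h7 : MvPolynomial.C (σ := Fin C.n) (((0 : ℕ) : k) - ((1 : ℕ) : k)) = -1 := by
            push_cast
            rw [zero_sub, map_neg, map_one]
          rw [h7] at h5
          linear_combination h5
        rw [h6]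
        exact h4
  | d x y cl l ih =>
    rw [chkJ2_d] at h
    obtain ⟨hc, h⟩ := k4d_rec_iff.1 h
    obtain ⟨h1, h⟩ := k4d_rec_iff.1 h
    have hlen : i0 + (JL.d x y cl l).len = i0 + 1 + l.len := by
      change i0 + (l.len + 1) = _
      omega
    rw [hlen]
    refine ih (i0 + 1) (fun i hi key q hq => ?_) h
    rcases Nat.lt_succ_iff_lt_or_eq.1 hi with hi | rfl
    · exact h0 i hi key q hq
    · rw [hq] at h1
      have h3 := comb_sound2 C hC h20 J D i (fun t ht key' q' hq' => ⟨hD t key' q' hq',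
        h0 t ht key' q' hq'⟩) cl _ (show comb2 C.G 0 D i isZero2 cl (addm 0 y x q .z) = true from h1)
      rw [k7b_ev_addm0 y x q .z (hD i key q hq), ev_z, zero_add] at h3
      have h4 : (y : k) - (x : k) ≠ 0 := by
        have := odd2_sound h20 hc
        intro h5
        apply one_ne_zero (α := k)
        linear_combination -this - h5
      have h5 := J.mul_mem_left (MvPolynomial.C ((y : k) - (x : k))⁻¹) h3
      rwa [← mul_assoc, ← map_mul, inv_mul_cancel₀ h4, map_one, one_mul] at h5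

theorem chkT2_c (G : ℕ) (D : Tr) (N : ℕ) (T : Tr) (cl : CL) (l : TL) (i : ℕ) :
    chkT2 G D N T (.c cl l) i = Bool.rec false (chkT2 G D N T l (Nat.succ i))
      (En.rec false (fun k p => inSpan2 G D N cl (.t k 1 0 p)) (look T i)) := rfl

theorem chkT_sound2 (C : Cst) (hC : C.ok) {k : Type*} [Field k] (h20 : (2 : k) = 0)
    (J : Ideal (MvPolynomial (Fin C.n) k)) (D : Tr) (N : ℕ)
    (hD : ∀ i < N, ∀ key q, look D i = .some key q → q.All (Good C.n) ∧ q.ev C.n k ∈ J)
    (T : Tr) (hT : TAll (fun _ key p => Good C.n key ∧ p.All (Good C.n)) T) (l : TL) (i0 : ℕ)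
    (h : chkT2 C.G D N T l i0 = true) (i : ℕ) (h1 : i0 ≤ i) (h2 : i < i0 + l.len) :
    (look T i).ev C.n k ∈ J := by
  induction l generalizing i0 with
  | e =>
    have h3 : i < i0 := h2
    omega
  | c cl l ih =>
    rw [chkT2_c] at h
    obtain ⟨h3, h⟩ := k4d_rec_iff.1 h
    have hlen : i0 + (TL.c cl l).len = i0 + 1 + l.len := by
      change i0 + (l.len + 1) = _
      omega
    rw [hlen] at h2
    rcases Nat.lt_or_ge i0 i with h4 | h4
    · exact ih (i0 + 1) h h4 h2
    · have h5 : i = i0 := le_antisymm h4 h1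
      subst h5
      cases hj : look T i with
      | none => rw [hj] at h3; exact absurd h3 (by simp)
      | some key p =>
        rw [hj] at h3
        have h6 := inSpan_sound2 C hC h20 J D N hD cl (.t key 1 0 p) (hT i key p hj) h3
        rw [ev_t] at h6
        have h7 : (((1 : ℕ) : k) - ((0 : ℕ) : k)) = 1 := by
          push_cast
          ring
        rw [h7] at h6
        exact h6

theorem topC_sound2 (C : Cst) (hC : C.ok) (ws : W) (hw : posOK C.n ws 0 = true) (CT : Tr)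
    (hCT : wtT C.G C.sh ws CT = true) (d : ℕ) (l : CL) (p : P)
    (h : topC2 C.G C.sh ws CT d l p = true) {k : Type*} [Field k] (h20 : (2 : k) = 0) :
    p.All (Good C.n) ∧ ∃ q ∈ tabI C.n k CT, IsTop (fun v : Fin C.n => ws.get v) q (p.ev C.n k) d := by
  change (Bool.rec false (Bool.rec false (Bool.rec false
    (comb2 C.G (Nat.shiftLeft d C.sh) CT 4096 isZero2 l (addm 0 0 1 p .z))
    (clW C.sh ws l)) (relOK C.G C.sh ws p)) (wtEq C.sh d p) : Bool) = true at h
  obtain ⟨h1, h⟩ := k4d_rec_iff.1 h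
  obtain ⟨h2, h⟩ := k4d_rec_iff.1 h
  obtain ⟨h3, h⟩ := k4d_rec_iff.1 h
  have hp : p.All (K7dA C ws) := k4d_all_of_relOK C hC ws hw p h2
  have hpg : p.All (Good C.n) := k7d_all_mono (fun _ h => h.1) hp
  refine ⟨hpg, ?_⟩
  obtain ⟨a, q, r, ha, hq, hev, hr⟩ := comb_gen2 C hC h20 (tabI C.n k CT) (Nat.shiftLeft d C.sh) CT 4096
    (K7dA C ws) (fun m => wtk ws m = m / 2 ^ C.sh) (fun _ h => h.1)
    (fun i _ key q hlk => ⟨k7d_wtT C hC ws hw CT hCT i key q hlk,
      Ideal.subset_span ⟨i, key, q, hlk, rfl⟩⟩) isZero2 l (k7d_clW C.sh ws l h3) _ h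
  rw [ev_of_isZero2 h20 ha, k7b_ev_addm0 0 1 p .z hpg, ev_z] at hev
  have hpq : p.ev C.n k = q - r := by
    have h5 : (MvPolynomial.C (((0 : ℕ) : k) - ((1 : ℕ) : k)) : MvPolynomial (Fin C.n) k) = -1 := by
      push_cast
      rw [zero_sub, map_neg, map_one]
    rw [h5] at hev
    linear_combination hev
  refine ⟨q, hq, k7d_wtEq C ws d p hp h1 k, fun e he => ?_⟩
  have hqr : q - p.ev C.n k = r := by rw [hpq]; ring
  rw [hqr] at he
  obtain ⟨K1, m, hK, hm, hmB, rfl, hlt⟩ := hr e he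
  have hcut : Nat.shiftLeft d C.sh = d * 2 ^ C.sh := Nat.shiftLeft_eq d C.sh
  rw [hcut] at hlt
  have h6 : (K1 + m) / 2 ^ C.sh < d := Nat.div_lt_of_lt_mul (by rwa [mul_comm])
  rw [k7d_div_add C hC hK.1 hm, hK.2, ← hmB, wtk_eq ws hw] at h6
  rw [expo_add hK.1 hm, TopAux.wt_add]
  exact h6

theorem chkVU_e (G LOW sh : ℕ) (ws : W) (CT : Tr) (G' : ℕ) (VP : V) (A : ℕ) :
    chkVU G LOW sh ws CT G' VP .e A = Nat.beq A LOW := rfl

theorem chkVU_c (G LOW sh : ℕ) (ws : W) (CT : Tr) (G' : ℕ) (VP : V) (j d : ℕ) (cl : CL) (p : P)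
    (r : RL) (A : ℕ) :
    chkVU G LOW sh ws CT G' VP (.c j d cl p r) A =
      Bool.rec false (Bool.rec false (Bool.rec false (Bool.rec false
        (chkVU G LOW sh ws CT G' VP r (Nat.lor A (Nat.shiftLeft 31 (Nat.add 32 (Nat.mul 5 j)))))
        (sP G' VP isZero p .z))
        (elimGoU LOW A 0 (Nat.add 32 (Nat.mul 5 j)) p false))
        (topC G sh ws CT d cl p))
        (Nat.ble (Nat.succ (Nat.add 32 (Nat.mul 5 j))) sh) := rfl

theorem chkVU_list (C C' : Cst) (hC : C.ok) (hC' : C'.ok) (ws : W) (hw : posOK C.n ws 0 = true)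
    (CT : Tr) (hCT : wtT C.G C.sh ws CT = true) (VP : V) (hVP : VP.posOK C.n 0 = true)
    (hVg : VP.good C'.G = true) {k : Type*} [Field k] (l : RL) :
    ∀ A, chkVU C.G C.LOW C.sh ws CT C'.G VP l A = true →
      ∃ l' : List (Fin C.n), (∀ v : Fin C.n, dig A v ≠ 0 ∨ v ∈ l') ∧
        ∀ i (hi : i < l'.length), ∃ (c : k) (q : MvPolynomial (Fin C.n) k), c ≠ 0 ∧
          q ∈ supported k (k4e_S C.n A ∪ {v | v ∈ l'.take i}) ∧
          MvPolynomial.C c * X l'[i] + q ∈ inI (fun v : Fin C.n => ws.get v) (tabI C.n k CT) ∧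
          VP.hom C.n C'.n k (MvPolynomial.C c * X l'[i] + q) = 0 := by
  induction l with
  | e =>
    intro A h
    rw [chkVU_e] at h
    have hA : A = C.LOW := Nat.eq_of_beq_eq_true h
    refine ⟨[], ?_, ?_⟩
    · intro v
      left
      obtain ⟨_, _, _, hL, _⟩ := hC
      rw [hA, hL, k4e_dig_low C.n v v.2]
      norm_num
    · intro i hi
      exact absurd hi (by simp)
  | c x d cl p r ih =>
    intro A h
    rw [chkVU_c] at h
    obtain ⟨hs, h⟩ := k2_brec_false h
    obtain ⟨htop, h⟩ := k2_brec_false h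
    obtain ⟨hgo, h⟩ := k2_brec_false h
    obtain ⟨hsP, h⟩ := k2_brec_false h
    have hs := Nat.le_of_ble_eq_true hs
    have hs' : Nat.succ (32 + 5 * x) ≤ C.sh := hs
    have hx : x < C.n := by
      obtain ⟨_, hsh, _, _, _⟩ := hC
      rw [hsh] at hs'
      omega
    obtain ⟨l, hl1, hl2⟩ := ih _ h
    have hor : ∀ v : Fin C.n, dig (Nat.lor A (Nat.shiftLeft 31 (32 + 5 * x))) v ≠ 0 →
        dig A v ≠ 0 ∨ v = ⟨x, hx⟩ := by
      intro v hv
      have e : Nat.lor A (Nat.shiftLeft 31 (32 + 5 * x))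
        = A ||| Nat.shiftLeft 31 (32 + 5 * x) := rfl
      rw [e, dig_or] at hv
      by_cases h0 : dig A v = 0
      · right
        rw [h0, Nat.zero_or] at hv
        exact Fin.ext (k4e_dig_shift hv)
      · exact Or.inl h0
    have hgo' : elimGoU C.LOW A (Nat.land A 0) (32 + 5 * x) p false = true := by
      have e : Nat.land A 0 = 0 := Nat.and_zero A
      rw [e]
      exact hgo
    obtain ⟨M0, c0, hc0, hM0, R0, hR0, he0⟩ := elimGoU_false (k := k) C hC hx p hgo'
    have hM : M0 = 0 := by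
      rw [← Finsupp.support_eq_empty, Finset.eq_empty_iff_forall_notMem]
      intro u hu
      exact (hM0 u hu).1 (dig_zero u)
    subst hM
    have he1 : p.ev C.n k = MvPolynomial.C c0 * X ⟨x, hx⟩ + R0 := he0
    have hhom : VP.hom C.n C'.n k (p.ev C.n k) = 0 := by
      obtain ⟨a, _, ha, hz⟩ := sP_sound C C' hC hC' (k := k) VP hVP hVg isZero p .z trivial hsP
      rw [ev_of_isZero hz, ev_z, zero_add] at ha
      exact ha.symm
    have hmem := k7e_top C hC ws hw CT hCT d cl p htop k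
    refine ⟨⟨x, hx⟩ :: l, ?_, ?_⟩
    · intro v
      rcases hl1 v with h1 | h1
      · rcases hor v h1 with h3 | h3
        · exact Or.inl h3
        · right; rw [h3]; exact List.mem_cons_self
      · right; exact List.mem_cons_of_mem _ h1
    · intro i hi
      cases i with
      | zero =>
        refine ⟨c0, R0, hc0, supported_mono Set.subset_union_left hR0, ?_, ?_⟩
        · rw [he1] at hmem
          exact hmem
        · rw [he1] at hhom
          exact hhom
      | succ i =>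
        have hi' : i < l.length := by simpa using hi
        obtain ⟨c, q, hc, hq, hq1, hq2⟩ := hl2 i hi'
        refine ⟨c, q, hc, supported_mono ?_ hq, hq1, hq2⟩
        rintro v (hv | hv)
        · rcases hor v hv with h5 | h5
          · exact Or.inl h5
          · right
            show v ∈ (_ :: l).take (i + 1)
            rw [List.take_succ_cons, h5]; exact List.mem_cons_self
        · right
          show v ∈ (_ :: l).take (i + 1)
          rw [List.take_succ_cons]; exact List.mem_cons_of_mem _ hv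

theorem chkVU_sound (C C' : Cst) (hC : C.ok) (hC' : C'.ok) (ws : W) (hw : posOK C.n ws 0 = true)
    (CT : Tr) (hCT : wtT C.G C.sh ws CT = true) (VP : V) (hVP : VP.posOK C.n 0 = true)
    (hVg : VP.good C'.G = true) (io : L) (hio : keptOK C'.G C'.LOW C.n VP io 0 = true)
    (l : RL) (h : chkVU C.G C.LOW C.sh ws CT C'.G VP l (maskI io) = true)
    (hlen : io.len = C'.n) (ι : Fin C'.n → Fin C.n) (hι : ∀ t, (ι t : ℕ) = io.get t)
    {k : Type*} [Field k] :
    (∀ t, VP.hom C.n C'.n k (X (ι t)) = X t) ∧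
    (∀ v, X v - rename ι (VP.hom C.n C'.n k (X v)) ∈
      inI (fun v : Fin C.n => ws.get v) (tabI C.n k CT)) ∧
    ∀ g ∈ inI (fun v : Fin C.n => ws.get v) (tabI C.n k CT),
      rename ι (VP.hom C.n C'.n k g) ∈ inI (fun v : Fin C.n => ws.get v) (tabI C.n k CT) := by
  have hk : ∀ t : Fin C'.n, (VP.get (ι t)).ev C'.n k = X t := by
    intro t
    have h1 := k7e_kept C' hC' C.n VP k io 0 hio t (by rw [hlen]; exact t.2)
      (by rw [Nat.zero_add]; exact t.2)
    rw [hι t, h1]
    congr 1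
    exact Fin.ext (Nat.zero_add _)
  have hX : ∀ v : Fin C.n, VP.hom C.n C'.n k (X v) = (VP.get v).ev C'.n k := by
    intro v
    rw [V.hom, aeval_X]
  obtain ⟨l', hl1, hl2⟩ := chkVU_list (k := k) C C' hC hC' ws hw CT hCT VP hVP hVg l _ h
  have hS : ∀ v : Fin C.n, dig (maskI io) v ≠ 0 → v ∈ Set.range ι := by
    intro v hv
    obtain ⟨t, ht, he⟩ := k7e_mask io v hv
    refine ⟨⟨t, by rw [← hlen]; exact ht⟩, Fin.ext ?_⟩
    rw [hι]
    exact he
  obtain ⟨h3, h4⟩ := kept_of_top ι (fun v : Fin C.n => (VP.get v).ev C'.n k) hk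
    (inI (fun v : Fin C.n => ws.get v) (tabI C.n k CT)) l'
    (fun v => (hl1 v).imp (hS v) id)
    (fun i hi => by
      obtain ⟨c, q, hc, hq, hq1, hq2⟩ := hl2 i hi
      refine ⟨c, q, hc, supported_mono ?_ hq, hq1, hq2⟩
      rintro v (hv | hv)
      · exact Or.inl (hS v hv)
      · exact Or.inr hv)
  refine ⟨fun t => by rw [hX, hk], fun v => by rw [hX]; exact h3 v, h4⟩

theorem chkR2_c (G sh : ℕ) (ws : W) (CT : Tr) (G' : ℕ) (VP : V) (E : Tr) (j d : ℕ) (cl : CL)
    (p : P) (r : RL) (i : ℕ) :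
    chkR2 G sh ws CT G' VP E (.c j d cl p r) i =
      Bool.rec false (Bool.rec false (chkR2 G sh ws CT G' VP E r (Nat.succ i))
        (En.rec false (fun _ q => sP G' VP isZero2 p (addm 0 0 1 q .z)) (look E i)))
        (topC2 G sh ws CT d cl p) := rfl

theorem chkR_sound2 (C C' : Cst) (hC : C.ok) (hC' : C'.ok) (ws : W) (hw : posOK C.n ws 0 = true)
    (CT : Tr) (hCT : wtT C.G C.sh ws CT = true) (VP : V) (hVP : VP.posOK C.n 0 = true)
    (hVg : VP.good C'.G = true) (E : Tr) (hE : TAll (fun _ _ p => p.All (Good C'.n)) E)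
    (l : RL) (i0 : ℕ) (h : chkR2 C.G C.sh ws CT C'.G VP E l i0 = true)
    (ι : Fin C'.n → Fin C.n) {k : Type*} [Field k] (h20 : (2 : k) = 0)
    (hJ : ∀ g ∈ inI (fun v : Fin C.n => ws.get v) (tabI C.n k CT),
      rename ι (VP.hom C.n C'.n k g) ∈ inI (fun v : Fin C.n => ws.get v) (tabI C.n k CT))
    (i : ℕ) (h1 : i0 ≤ i) (h2 : i < i0 + l.len) (key : ℕ) (q : P) (hq : look E i = .some key q) :
    rename ι (q.ev C'.n k) ∈ inI (fun v : Fin C.n => ws.get v) (tabI C.n k CT) := by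
  induction l generalizing i0 with
  | e =>
    have h3 : RL.e.len = 0 := rfl
    rw [h3] at h2
    omega
  | c j d cl p r ih =>
    rw [chkR2_c] at h
    obtain ⟨htop, h⟩ := k2_brec_false h
    obtain ⟨hE1, h⟩ := k2_brec_false h
    have h3 : (RL.c j d cl p r).len = r.len + 1 := rfl
    rw [h3] at h2
    rcases Nat.eq_or_lt_of_le h1 with h4 | h4
    · subst h4
      rw [hq] at hE1
      have hE2 : sP C'.G VP isZero2 p (addm 0 0 1 q .z) = true := hE1
      have hqG := hE _ _ _ hq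
      have hg0 : Good C'.n 0 := ⟨by norm_num, fun v _ => by rw [dig_zero]; norm_num⟩
      obtain ⟨a, _, ha, hz⟩ := sP_sound C C' hC hC' (k := k) VP hVP hVg isZero2 p
        (addm 0 0 1 q .z) (all_addm hqG trivial) hE2
      have he0 : expo C'.n 0 = 0 := by
        ext v
        rw [expo_apply, dig_zero]
        rfl
      rw [ev_of_isZero2 h20 hz, ev_addm hg0 hqG, ev_z, he0] at ha
      have h5 : q.ev C'.n k = VP.hom C.n C'.n k (p.ev C.n k) := by
        have h6 : (monomial (0 : Fin C'.n →₀ ℕ) (((0 : ℕ) : k) - ((1 : ℕ) : k))) =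
            (-1 : MvPolynomial (Fin C'.n) k) := by
          rw [Nat.cast_zero, Nat.cast_one, zero_sub, map_neg]
          rfl
        rw [h6] at ha
        linear_combination ha
      rw [h5]
      obtain ⟨_, q1, hq1, hT1⟩ := topC_sound2 C hC ws hw CT hCT d cl p htop h20
      exact hJ _ (Ideal.subset_span ⟨q1, hq1, d, hT1⟩)
    · exact ih (i0 + 1) h h4 (by omega)

theorem sumMU_aux (D : Cst) (hD : D.ok) (A : ℕ) (hA : ∀ v < D.n, dig A v = 0 ∨ dig A v = 31)
    {k : Type*} [Field k] (a : P) : ∀ x0 y0 : ℕ, sumMU D.LOW A a x0 y0 = true →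
    ∃ x y : ℕ, coefU x y = true ∧ (x : k) - (y : k) = ((x0 : k) - (y0 : k)) +
      aeval (fun v : Fin D.n => if dig A v = 31 then (1 : k) else 0) (a.ev D.n k) := by
  induction a with
  | z =>
    intro x0 y0 h
    refine ⟨x0, y0, h, ?_⟩
    rw [ev_z, map_zero, add_zero]
  | t key x y r ih =>
    intro x0 y0 h
    have h' : Bool.rec (motive := fun _ => Bool) (sumMU D.LOW A r x0 y0)
      (sumMU D.LOW A r (x0 + x) (y0 + y))
      (Nat.beq (Nat.land (Nat.land key D.LOW) A) (Nat.land key D.LOW)) = true := h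
    cases hb : Nat.beq (Nat.land (Nat.land key D.LOW) A) (Nat.land key D.LOW)
    · rw [hb] at h'
      obtain ⟨X, Y, h1, h2⟩ := ih x0 y0 h'
      refine ⟨X, Y, h1, ?_⟩
      rw [h2, ev_t, map_add, aeval_monomial]
      have h3 : ¬ ∀ v < D.n, dig key v ≠ 0 → dig A v = 31 := by
        rw [← K7f.mask_iff D hD A key hA, hb]
        exact Bool.false_ne_true
      push Not at h3
      obtain ⟨v, hv, h4, h5⟩ := h3
      have h6 : ((expo D.n key).prod fun i e =>
          (if dig A i = 31 then (1 : k) else 0) ^ e) = 0 := by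
        rw [Finsupp.prod]
        apply Finset.prod_eq_zero (i := (⟨v, hv⟩ : Fin D.n))
        · rw [Finsupp.mem_support_iff, expo_apply]
          exact h4
        · rw [if_neg h5, expo_apply, zero_pow h4]
      rw [h6, mul_zero, zero_add]
    · rw [hb] at h'
      obtain ⟨X, Y, h1, h2⟩ := ih _ _ h'
      refine ⟨X, Y, h1, ?_⟩
      rw [h2, ev_t, map_add, aeval_monomial]
      have h3 := (K7f.mask_iff D hD A key hA).1 hb
      have h6 : ((expo D.n key).prod fun i e =>
          (if dig A i = 31 then (1 : k) else 0) ^ e) = 1 := by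
        rw [Finsupp.prod]
        apply Finset.prod_eq_one
        intro v hv
        rw [Finsupp.mem_support_iff, expo_apply] at hv
        rw [if_pos (h3 v v.2 hv), one_pow]
      rw [h6, mul_one]
      push_cast
      ring

theorem sumMU_sound (D : Cst) (hD : D.ok) (A : ℕ) (hA : ∀ v < D.n, dig A v = 0 ∨ dig A v = 31)
    (a : P) (h : sumMU D.LOW A a 0 0 = true)
    (k : Type*) [Field k] : a.ev D.n k ≠ 0 := by
  obtain ⟨x, y, h1, h3⟩ := sumMU_aux (k := k) D hD A hA a 0 0 h
  intro h4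
  apply coefU_sound h1 k
  rw [h3, h4, map_zero]
  simp

theorem chkA_aux2 (G : ℕ) (VP JV V0 : V) (io : L) (f0 : P) (Dt : Tr) (ND : ℕ) (l : TL) :
    ∀ (t0 j : ℕ), j < l.len → chkA2 G VP JV V0 io f0 Dt ND l t0 = true →
    ∃ cl : CL, sP G JV (fun a =>
        (fun q => Bool.rec false (Bool.rec false (inSpan2 G Dt ND cl (mulAdd f0 q .z))
          (goodP G (mulAdd f0 q .z))) (goodP G q))
          (addm 0 0 1 a (VP.get (io.get (t0 + j)))))
        (V0.get (io.get (t0 + j))) .z = true := by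
  induction l with
  | e =>
    intro t0 j hj
    exact absurd hj (Nat.not_lt_zero _)
  | c cl r ih =>
    intro t0 j hj h
    have h' : Bool.rec (motive := fun _ => Bool) false (chkA2 G VP JV V0 io f0 Dt ND r (t0 + 1))
      (sP G JV (fun a =>
        (fun q => Bool.rec false (Bool.rec false (inSpan2 G Dt ND cl (mulAdd f0 q .z))
          (goodP G (mulAdd f0 q .z))) (goodP G q)) (addm 0 0 1 a (VP.get (io.get t0))))
        (V0.get (io.get t0)) .z) = true := h
    obtain ⟨h1, h2⟩ := k4d_rec_iff.1 h'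
    cases j with
    | zero => exact ⟨cl, h1⟩
    | succ j =>
      have h3 : j + 1 < r.len + 1 := hj
      obtain ⟨cl', h4⟩ := ih (t0 + 1) j (by omega) h2
      have h5 : t0 + 1 + j = t0 + (j + 1) := by omega
      rw [h5] at h4
      exact ⟨cl', h4⟩

theorem chkA_sound2 (C C' D : Cst) (hC : C.ok) (hC' : C'.ok) (hD : D.ok) {k : Type*} [Field k] (h20 : (2 : k) = 0)
    (VP V0 : V) (hVP : VP.posOK C.n 0 = true) (hVg : VP.good C'.G = true)
    (hV0 : V0.posOK C.n 0 = true) (jv : L) (hjv : jv.len = D.n)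
    (hJp : (mkJV VP jv 0).posOK D.n 0 = true) (hJg : (mkJV VP jv 0).good C'.G = true)
    (io : L) (hlen : io.len = C'.n) (hio : ∀ t < C'.n, io.get t < C.n)
    (f0 : P) (hf0 : f0.All (Good C'.n))
    (J : Ideal (MvPolynomial (Fin C'.n) k)) (Dt : Tr) (ND : ℕ)
    (hDt : ∀ i < ND, ∀ key q, look Dt i = .some key q → q.All (Good C'.n) ∧ q.ev C'.n k ∈ J)
    (l : TL) (hl : C'.n ≤ l.len) (h : chkA2 C'.G VP (mkJV VP jv 0) V0 io f0 Dt ND l 0 = true)
    (ι : Fin C'.n → Fin C.n) (hι : ∀ t, (ι t : ℕ) = io.get t) (t : Fin C'.n) :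
    f0.ev C'.n k * (VP.hom C.n C'.n k (X (ι t)) -
      (mkJV VP jv 0).hom D.n C'.n k (V0.hom C.n D.n k (X (ι t)))) ∈ J := by
  obtain ⟨cl, h1⟩ := chkA_aux2 C'.G VP (mkJV VP jv 0) V0 io f0 Dt ND l 0 t
    (lt_of_lt_of_le t.2 hl) h
  rw [Nat.zero_add, ← hι t] at h1
  obtain ⟨a, ha, hev, hf⟩ := sP_sound D C' hD hC' (k := k) (mkJV VP jv 0) hJp hJg _ _ .z trivial h1
  obtain ⟨hg1, hf⟩ := k4d_rec_iff.1 hf
  obtain ⟨hg2, hf⟩ := k4d_rec_iff.1 hf
  have hq := goodP_sound C' hC' _ hg1
  have hmq := goodP_sound C' hC' _ hg2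
  have hmem := inSpan_sound2 C' hC' h20 J Dt ND hDt cl _ hmq hf
  rw [ev_mulAdd hf0 hq, ev_z, zero_add, ev_addm (k4d_good_zero _) ha, k4d_expo_zero, hev, ev_z,
    zero_add] at hmem
  have e1 : VP.hom C.n C'.n k (X (ι t)) = (VP.get (ι t)).ev C'.n k := by rw [V.hom, aeval_X]
  have e2 : V0.hom C.n D.n k (X (ι t)) = (V0.get (ι t)).ev D.n k := by rw [V.hom, aeval_X]
  rw [e1, e2]
  have h5 : (monomial 0 (((0 : ℕ) : k) - ((1 : ℕ) : k)) : MvPolynomial (Fin C'.n) k) = -1 := by
    rw [Nat.cast_zero, Nat.cast_one, zero_sub]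
    change MvPolynomial.C (-1) = -1
    rw [C_neg, C_1]
  rw [h5, neg_one_mul, ← sub_eq_add_neg] at hmem
  exact hmem

end Pool.Agent.Helper97.Hilb8.K
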