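import Pool.Agent.Helper97.Hilb8.L.KDefs
import Pool.Agent.Helper97.Hilb8.K.Rule
import Pool.Agent.Helper97.Hilb8.K.Elims
import Pool.Agent.Helper97.Hilb8.K.Prime

/-!
# Soundness of the kernel-evaluable checks over every field: rules, eliminations, primality
-/

namespace Pool.Agent.Helper97.Hilb8.K

open MvPolynomial

theorem coefU_sound {x y : ℕ} (h : coefU x y = true) (k : Type*) [Field k] :
    (x : k) - (y : k) ≠ 0 := by
  have h1 : (x - y) + (y - x) = 1 := Nat.eq_of_beq_eq_true h
  have h2 : x = y + 1 ∨ y = x + 1 := by omega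
  rcases h2 with h2 | h2
  · rw [h2, Nat.cast_add, Nat.cast_one, add_sub_cancel_left]
    exact one_ne_zero
  · rw [h2, Nat.cast_add, Nat.cast_one, ← sub_sub, sub_self, zero_sub]
    exact neg_ne_zero.2 one_ne_zero

theorem relGoU_t (G LOW sh : ℕ) (As : L) (Uc c k x y : ℕ) (p : P) :
    relGoU G LOW sh As Uc c (.t k x y p) =
    Bool.rec
      (Bool.rec false (Bool.rec false (Bool.rec false (relGo2 G sh As c k p)
        (supp LOW (Nat.sub k c) Uc)) (coefU x y)) (dvdk G c k))
      (relGoU G LOW sh As Uc c p) (anyL (fun a => dvdk G a k) As) := rfl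

section

variable {k : Type*} [Field k]

theorem relU_sound (C : Cst) (hC : C.ok) (κ : Fin C.n → ℕ)
    (Q : MvPolynomial (Fin C.n) k → Prop) (F : Set (Fin C.n))
    (Q0 : Q 0) (Qadd : ∀ a b, Q a → Q b → Q (a + b)) (Qmul : ∀ a b, Q b → Q (a * b))
    (Qprime : ∀ a b, Q (a * b) → Q a ∨ Q b)
    (F3 : ∀ q : MvPolynomial (Fin C.n) k, Q q → ∀ e ∈ q.support,
      (∀ e' ∈ q.support, e' ≠ e → wt κ e' < wt κ e) → ¬ ∀ v ∈ e.support, v ∈ F)
    (As : L) (hAs : ∀ a, As.Mem a → Good C.n a ∧ Q (monomial (expo C.n a) 1))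
    (Uc : ℕ) (hUc1 : ∀ v < C.n, dig Uc v ≤ 1) (hUc : ∀ v : Fin C.n, dig Uc v ≠ 0 → v ∈ F)
    (c : ℕ) (hc : Good C.n c) (hcQ : ¬ Q (monomial (expo C.n c) 1)) (p : P)
    (hp : p.All fun key => Good C.n key ∧ key / 2 ^ C.sh = wt κ (expo C.n key))
    (h : relGoU C.G C.LOW C.sh As Uc c p = true) : ¬ Q (p.ev C.n k) := by
  induction p with
  | z => exact absurd h (by simp [relGoU])
  | t kk x y p ih =>
    intro hQ
    rw [relGoU_t] at h
    obtain ⟨⟨hg, hw⟩, hp'⟩ := hp
    rw [ev_t] at hQ
    cases ha : anyL (fun a => dvdk C.G a kk) As with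
    | true =>
      rw [ha] at h
      obtain ⟨a, ha1, ha2⟩ := (anyL_iff _ _).1 ha
      obtain ⟨hag, haQ⟩ := hAs a ha1
      obtain ⟨-, -, hexp⟩ := dvdk_sound C hC hag hg ha2
      apply ih hp' h
      have h3 : p.ev C.n k = (monomial (expo C.n kk) ((x : k) - (y : k)) + p.ev C.n k) +
          (-monomial (expo C.n (kk - a)) ((x : k) - (y : k))) * monomial (expo C.n a) 1 := by
        rw [neg_mul, monomial_mul, mul_one, hexp, add_comm (expo C.n a)]
        ring
      rw [h3]
      exact Qadd _ _ hQ (Qmul _ _ haQ)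
    | false =>
      rw [ha] at h
      obtain ⟨h3, h⟩ := k2_brec_false h
      obtain ⟨h4, h⟩ := k2_brec_false h
      obtain ⟨h5, h6⟩ := k2_brec_false h
      obtain ⟨-, hg', hexp⟩ := dvdk_sound C hC hc hg h3
      obtain ⟨f, r, hf, he, hr⟩ := k4c_rel2 C hC κ Q Q0 Qadd Qmul As hAs c kk hc p hp' h6
      have hne := coefU_sound h4 k
      have hQ2 : Q (monomial (expo C.n c) 1 *
          (monomial (expo C.n (kk - c)) ((x : k) - (y : k)) + r)) := by
        have h7 : monomial (expo C.n c) 1 *
          (monomial (expo C.n (kk - c)) ((x : k) - (y : k)) + r) =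
          (monomial (expo C.n kk) ((x : k) - (y : k)) + p.ev C.n k) + (-1) * f := by
          rw [he, mul_add, monomial_mul, one_mul, hexp]
          ring
        rw [h7]
        exact Qadd _ _ hQ (Qmul _ _ hf)
      rcases Qprime _ _ hQ2 with h8 | h8
      · exact hcQ h8
      · have hwr : ∀ e ∈ r.support, wt κ e < wt κ (expo C.n (kk - c)) := by
          intro e hes
          have h9 := hr e hes
          rw [hw, hexp, GB.wt_add, GB.wt_add] at h9
          omega
        have hnr : expo C.n (kk - c) ∉ r.support := fun hes => lt_irrefl _ (hwr _ hes)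
        refine F3 _ h8 (expo C.n (kk - c)) ?_ ?_ ?_
        · rw [mem_support_iff, coeff_add, coeff_monomial, if_pos rfl,
            notMem_support_iff.1 hnr, add_zero]
          exact hne
        · intro e' he' hne'
          rcases Finset.mem_union.1 (support_add he') with h9 | h9
          · have h10 := support_monomial_subset h9
            rw [Finset.mem_singleton] at h10
            exact absurd h10 hne'
          · exact hwr _ h9
        · intro v hv
          rw [k4c_supp] at hv
          exact hUc v (supp_sound C hC hUc1 h5 v v.2 hv)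

end

theorem ruleU_sound (C : Cst) (hC : C.ok) (κ : Fin C.n → ℕ) (N : ℕ) (M T R Y : Tr)
    (hT : TabOK C.n κ N T)
    (hM : TAll (fun _ key _ => Good C.n key ∧ ∀ v < C.n, dig key v ≤ 1) M)
    {k : Type*} [Field k] (P : MvPolynomial (Fin C.n) k → Prop)
    (F : Set (Fin C.n))
    -- `P` is the membership in a prime ideal
    (P1 : ¬ P 1) (Padd : ∀ a b, P a → P b → P (a + b)) (Pmul : ∀ a b, P b → P (a * b))
    (Pprime : ∀ a b, P (a * b) → P a ∨ P b)
    -- the relations lie in `P`; their keys hold the weights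
    (hR : TAll (fun _ _ p => P (p.ev C.n k) ∧
      p.All fun key => Good C.n key ∧ key / 2 ^ C.sh = wt κ (expo C.n key)) R)
    -- `F` is a facet
    (F1 : ∀ i key p, look T i = .some key p → ¬ ∀ v : Fin C.n, dig key v ≠ 0 → v ∈ F)
    (F2 : ∀ v : Fin C.n, v ∉ F → ∃ i key p, look T i = .some key p ∧ dig key v ≠ 0 ∧
      ∀ u : Fin C.n, u ≠ v → dig key u ≠ 0 → u ∈ F)
    (F3 : ∀ q : MvPolynomial (Fin C.n) k, P q → ∀ e ∈ q.support,
      (∀ e' ∈ q.support, e' ≠ e → wt κ e' < wt κ e) → ¬ ∀ v ∈ e.support, v ∈ F)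
    -- the unit sets
    (hY : TAll (fun _ key _ => ∃ v : Fin C.n, dig key v ≠ 0 ∧ P (X v)) Y)
    (c : L) (t a b : ℕ) (h : ruleU C.G C.LOW C.sh M T R Y c t a b = true)
    (hc : litsOK c = true) : Sat (atomT C.n M P F) c := by
  by_contra hsat
  have hlit : ∀ p, c.Mem p → ¬ litT (atomT C.n M P F) p := fun p hp hl => hsat ⟨p, hp, hl⟩
  obtain ⟨Ub, Uc, As, Ds, hf, a1, a2, a3, a4, a5⟩ := parse_sound M _ c h hc
  have hM1 : ∀ v < C.n, ∀ i k q, look M i = .some k q → dig k v ≤ 1 :=
    fun v hv i k q hl => (hM i k q hl).2 v hv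
  have hUb1 : ∀ v < C.n, dig Ub v ≤ 1 := fun v hv => (a5 v (hM1 v hv)).1
  have hUc1 : ∀ v < C.n, dig Uc v ≤ 1 := fun v hv => (a5 v (hM1 v hv)).2
  -- the literals
  have hUb : ∀ v : Fin C.n, dig Ub v ≠ 0 → ¬ P (X v) := by
    intro v hv hP
    obtain ⟨p, key, q, hp, hp64, hp4, hl, hd⟩ := a1 v hv
    apply hlit p hp
    have e1 : p % 2 = 0 := by omega
    have e2 : p / 2 % 2 = 0 := by omega
    have e3 : p / 2 / 2 - 16 = (p - 64) / 4 := by omega
    unfold litT
    rw [if_pos e1]
    unfold atomT
    rw [if_pos e2, e3]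
    refine ⟨key, q, hl, ?_⟩
    have e5 : expo C.n key - Finsupp.single v 1 + Finsupp.single v 1 = expo C.n key := by
      ext u
      rw [Finsupp.add_apply, Finsupp.tsub_apply]
      by_cases huv : u = v
      · subst huv
        rw [Finsupp.single_eq_same, k4c_expo_apply]
        omega
      · rw [Finsupp.single_eq_of_ne huv]
        omega
    have e4 : (monomial (expo C.n key) (1 : k)) =
        monomial (expo C.n key - Finsupp.single v 1) 1 * X v := by
      rw [X, monomial_mul, mul_one, e5]
    rw [e4]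
    exact Pmul _ _ hP
  have hUc : ∀ v : Fin C.n, dig Uc v ≠ 0 → v ∈ F := by
    intro v hv
    obtain ⟨p, key, q, hp, hp64, hp4, hl, hd⟩ := a2 v hv
    have h3 := hlit p hp
    have e1 : ¬ p % 2 = 0 := by omega
    have e2 : ¬ p / 2 % 2 = 0 := by omega
    have e3 : p / 2 / 2 - 16 = (p - 64) / 4 := by omega
    unfold litT at h3
    rw [if_neg e1] at h3
    unfold atomT at h3
    rw [if_neg e2, e3, not_not] at h3
    obtain ⟨key', q', hl', h4⟩ := h3
    rw [hl] at hl'
    injection hl' with e4 e5
    subst e4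
    exact h4 v hd
  have hAs : ∀ x, As.Mem x → Good C.n x ∧ P (monomial (expo C.n x) 1) := by
    intro x hx
    obtain ⟨p, q, hp, hp64, hp4, hl⟩ := a3 x hx
    have h3 := hlit p hp
    have e1 : ¬ p % 2 = 0 := by omega
    have e2 : p / 2 % 2 = 0 := by omega
    have e3 : p / 2 / 2 - 16 = (p - 64) / 4 := by omega
    unfold litT at h3
    rw [if_neg e1] at h3
    unfold atomT at h3
    rw [if_pos e2, e3, not_not] at h3
    obtain ⟨key', q', hl', h4⟩ := h3
    rw [hl] at hl'
    injection hl' with e4 e5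
    subst e4
    exact ⟨(hM _ _ _ hl).1, h4⟩
  have hDs : ∀ x, Ds.Mem x → ¬ ∀ v : Fin C.n, dig x v ≠ 0 → v ∈ F := by
    intro x hx h3
    obtain ⟨p, q, hp, hp64, hp4, hl⟩ := a4 x hx
    apply hlit p hp
    have e1 : p % 2 = 0 := by omega
    have e2 : ¬ p / 2 % 2 = 0 := by omega
    have e3 : p / 2 / 2 - 16 = (p - 64) / 4 := by omega
    unfold litT
    rw [if_pos e1]
    unfold atomT
    rw [if_neg e2, e3]
    exact ⟨x, q, hl, h3⟩
  have hmon : ∀ q, P (monomial (expo C.n q) 1) → ∃ v : Fin C.n, dig q v ≠ 0 ∧ P (X v) := by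
    intro q hq
    obtain ⟨v, hv, hv2⟩ := k4c_prime_monomial P P1 Pprime _ hq
    exact ⟨v, (k4c_supp _ _ _).1 hv, hv2⟩
  have P0 : ∀ f, P f → P 0 := by
    intro f hf0
    have := Pmul 0 f hf0
    rwa [zero_mul] at this
  rcases t with _ | _ | _ | _ | _ | _ | t
  · -- t = 0
    obtain ⟨x, hx, hx2⟩ := (anyL_iff _ _).1 hf
    obtain ⟨v, hv, hv2⟩ := hmon x (hAs x hx).2
    exact hUb v (subs_sound C hC hx2 v v.2 hv) hv2
  · -- t = 1
    obtain ⟨x, hx, hx2⟩ := (anyL_iff _ _).1 hf
    refine F3 _ (hAs x hx).2 (expo C.n x) ?_ ?_ ?_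
    · rw [mem_support_iff, coeff_monomial, if_pos rfl]
      exact one_ne_zero
    · intro e' he' hne
      have h3 := support_monomial_subset he'
      rw [Finset.mem_singleton] at h3
      exact absurd h3 hne
    · intro v hv
      exact hUc v (subs_sound C hC hx2 v v.2 ((k4c_supp _ _ _).1 hv))
  · -- t = 2
    obtain ⟨x, hx, hx2⟩ := (anyL_iff _ _).1 hf
    exact hDs x hx fun v hv => hUc v (subs_sound C hC hx2 v v.2 hv)
  · -- t = 3
    cases hl : look T a with
    | none =>
      have hf' : (En.rec (motive := fun _ => Bool) false (fun k _ => subs C.LOW k Uc)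
        (look T a) : Bool) = true := hf
      rw [hl] at hf'
      exact absurd hf' (by simp)
    | some key q =>
      have hf' : (En.rec (motive := fun _ => Bool) false (fun k _ => subs C.LOW k Uc)
        (look T a) : Bool) = true := hf
      rw [hl] at hf'
      exact F1 a key q hl fun v hv => hUc v (subs_sound C hC hf' v v.2 hv)
  · -- t = 4
    obtain ⟨h3, hf⟩ := k2_brec_false hf
    obtain ⟨h4, h5⟩ := k2_brec_false hf
    have h6 : Nat.succ (32 + 5 * a) ≤ C.sh := Nat.le_of_ble_eq_true h3
    have hsh := hC.2.1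
    have ha : a < C.n := by
      rw [hsh] at h6
      omega
    have hsl : Nat.shiftLeft 1 (Nat.add 32 (Nat.mul 5 a)) = 2 ^ (32 + 5 * a) := by
      have : 1 <<< (32 + 5 * a) = 2 ^ (32 + 5 * a) := Nat.one_shiftLeft _
      exact this
    by_cases haF : (⟨a, ha⟩ : Fin C.n) ∈ F
    · obtain ⟨d, hd, hd2⟩ := (anyL_iff _ _).1 h4
      rw [hsl] at hd2
      apply hDs d hd
      intro v hv
      have h7 := subs_sound C hC hd2 v v.2 hv
      rw [k4c_dig_pow] at h7
      have h8 : (v : ℕ) = a := by
        by_contra h9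
        rw [if_neg h9] at h7
        exact h7 rfl
      have h9 : v = ⟨a, ha⟩ := Fin.ext h8
      rw [h9]
      exact haF
    · obtain ⟨i, key, p, hi, hkey, hkF⟩ := F2 _ haF
      have hkey' : dig key a ≠ 0 := hkey
      have hkey1 : dig key a ≤ 1 := (hT i key p hi).2.2.1 a ha
      have h7 : Nat.land (Nat.shiftRight key (Nat.add 32 (Nat.mul 5 a))) 1 = 1 := by
        have h8 : dig key a = 1 := by omega
        have h9 := dig_testBit key a 0
        rw [h8] at h9
        have h10 : key.testBit (32 + 5 * a) = true := by simpa using h9.symm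
        have h11 : (key >>> (32 + 5 * a)) &&& 1 = 1 := by
          rw [Nat.and_one_is_mod, Nat.shiftRight_eq_div_pow]
          rw [Nat.testBit_eq_decide_div_mod_eq] at h10
          simpa using h10
        exact h11
      obtain ⟨d, hd, hd2⟩ := k4c_maxGo _ _ _ _ h5 i key p hi h7
      apply hDs d hd
      intro v hv
      have h8 := subs_sound C hC hd2 v v.2 hv
      rw [hsl] at h8
      obtain ⟨h9, h10⟩ := k4c_dig_sub (fun v hv => by omega) hkey' v h8
      refine hkF v ?_ h10
      intro h11
      apply h9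
      rw [h11]
  · -- t = 5
    obtain ⟨h3, hf⟩ := k2_brec_false hf
    obtain ⟨h4, h5⟩ := k2_brec_false hf
    have hb : Good C.n b := (good_iff C hC _).1 (Nat.eq_of_beq_eq_true h3)
    have hbP : ¬ P (monomial (expo C.n b) 1) := by
      intro hP
      obtain ⟨v, hv, hv2⟩ := hmon b hP
      exact hUb v (supp_sound C hC hUb1 h4 v v.2 hv) hv2
    cases hl : look R a with
    | none =>
      rw [hl] at h5
      exact absurd h5 (by simp)
    | some key q =>
      rw [hl] at h5
      obtain ⟨h6, h7⟩ := hR _ _ _ hl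
      exact relU_sound C hC κ P F (P0 _ h6) Padd Pmul Pprime F3 As hAs Uc hUc1 hUc b hb hbP q
        h7 h5 h6
  · -- t = 6
    have hf' : (En.rec (motive := fun _ => Bool) false (fun k _ => subs C.LOW k Ub)
        (look Y a) : Bool) = true := hf
    cases hl : look Y a with
    | none =>
      rw [hl] at hf'
      exact absurd hf' (by simp)
    | some key q =>
      rw [hl] at hf'
      obtain ⟨v, hv, hv2⟩ := hY _ _ _ hl
      exact hUb v (subs_sound C hC hf' v v.2 hv) hv2

theorem elimGoU_z (LOW A AU s : Nat) (b : Bool) : elimGoU LOW A AU s .z b = b := rfl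

theorem elimGoU_t (LOW A AU s k x y : Nat) (r : P) (b : Bool) :
    elimGoU LOW A AU s (.t k x y r) b =
      Bool.rec
        (Bool.rec
          (Bool.rec false (Bool.rec false (Bool.rec false (elimGoU LOW A AU s r true)
            (Nat.beq (Nat.land (Nat.land (Nat.sub k (Nat.shiftLeft 1 s)) LOW) AU)
              (Nat.land (Nat.sub k (Nat.shiftLeft 1 s)) LOW)))
            (Nat.beq (Nat.land (Nat.shiftRight k s) 31) 1)) (coefU x y))
          false b)
        (elimGoU LOW A AU s r b)
        (Nat.beq (Nat.land (Nat.land k LOW) A) (Nat.land k LOW)) := rfl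

theorem elimLU_z (LOW sh : Nat) (R : Tr) (U A : Nat) : elimLU LOW sh R U .z A = Nat.beq A LOW := rfl

theorem elimLU_t (LOW sh : Nat) (R : Tr) (U st x y : Nat) (r : P) (A : Nat) :
    elimLU LOW sh R U (.t st x y r) A =
      Bool.rec false
        (En.rec false (fun _ p => Bool.rec false
            (elimLU LOW sh R U r
              (Nat.lor A (Nat.shiftLeft 31 (Nat.add 32 (Nat.mul 5 (Nat.land st 255))))))
          (elimGoU LOW A (Nat.land A U) (Nat.add 32 (Nat.mul 5 (Nat.land st 255))) p false))
          (look R (Nat.shiftRight st 8)))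
        (Nat.ble (Nat.succ (Nat.add 32 (Nat.mul 5 (Nat.land st 255)))) sh) := rfl

theorem elimsU_leaf (n LOW SQ sh N0 : Nat) (R : Tr) : elimsU n LOW SQ sh N0 R .leaf = true := rfl

theorem elimsU_node (n LOW SQ sh N0 : Nat) (R l r : Tr) (i u : Nat) (p : P) :
    elimsU n LOW SQ sh N0 R (.node l i u p r) = Bool.rec false (Bool.rec false
    (P.rec false (fun z _ _ steps _ =>
      Bool.rec false (Bool.rec false (Bool.rec false
        (elimLU LOW sh R (Nat.mul 31 (Nat.land u LOW)) steps (Nat.mul 31 (Nat.land z LOW)))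
        (Nat.beq (Nat.land u SQ) 0)) (Nat.beq (Nat.land z SQ) 0)) (Nat.ble (popc n z) N0)) p)
      (elimsU n LOW SQ sh N0 R l)) (elimsU n LOW SQ sh N0 R r) := rfl

theorem elimGoU_true (C : Cst) (hC : C.ok) {A AU s : ℕ} (k : Type*) [Field k] (p : P)
    (h : elimGoU C.LOW A AU s p true = true) :
    p.ev C.n k ∈ supported k (k4e_S C.n A) := by
  induction p with
  | z => rw [k4e_ev_z]; exact Subalgebra.zero_mem _
  | t m x y r ih =>
    rw [elimGoU_t] at h
    cases hb : Nat.beq (Nat.land (Nat.land m C.LOW) A) (Nat.land m C.LOW)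
    · rw [hb] at h
      exact absurd h (by simp)
    · rw [hb] at h
      rw [k4e_ev_t]
      exact Subalgebra.add_mem _ (k4e_mono_mem C hC k _ hb) (ih h)

theorem elimGoU_false (C : Cst) (hC : C.ok) {A U x : ℕ} (hx : x < C.n) {k : Type*} [Field k]
    (p : P)
    (h : elimGoU C.LOW A (Nat.land A U) (32 + 5 * x) p false = true) :
    ∃ (M : Fin C.n →₀ ℕ) (c : k), c ≠ 0 ∧ (∀ u ∈ M.support, dig U u ≠ 0 ∧ dig A u ≠ 0) ∧
      ∃ R ∈ supported k (k4e_S C.n A), p.ev C.n k = monomial M c * X ⟨x, hx⟩ + R := by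
  induction p with
  | z => rw [elimGoU_z] at h; exact absurd h (by simp)
  | t m a b r ih =>
    rw [elimGoU_t] at h
    cases hb : Nat.beq (Nat.land (Nat.land m C.LOW) A) (Nat.land m C.LOW)
    · rw [hb] at h
      have h : (Bool.rec (motive := fun _ => Bool) false
        (Bool.rec (motive := fun _ => Bool) false
          (Bool.rec (motive := fun _ => Bool) false
            (elimGoU C.LOW A (Nat.land A U) (32 + 5 * x) r true)
            (Nat.beq (Nat.land (Nat.land (Nat.sub m (Nat.shiftLeft 1 (32 + 5 * x))) C.LOW)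
              (Nat.land A U)) (Nat.land (Nat.sub m (Nat.shiftLeft 1 (32 + 5 * x))) C.LOW)))
          (Nat.beq (Nat.land (Nat.shiftRight m (32 + 5 * x)) 31) 1)) (coefU a b) : Bool)
            = true := h
      obtain ⟨hc, h⟩ := k2_brec_false h
      obtain ⟨hd, h⟩ := k2_brec_false h
      obtain ⟨hm, h⟩ := k2_brec_false h
      have hdig := k4e_digit hd
      have hpow : Nat.sub m (Nat.shiftLeft 1 (32 + 5 * x)) = m - 2 ^ (32 + 5 * x) := by
        have : Nat.shiftLeft 1 (32 + 5 * x) = 1 <<< (32 + 5 * x) := rfl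
        rw [this, Nat.one_shiftLeft]
        rfl
      rw [hpow] at hm
      refine ⟨expo C.n (m - 2 ^ (32 + 5 * x)), (a : k) - (b : k), coefU_sound hc k, ?_,
        r.ev C.n k, elimGoU_true C hC k r h, ?_⟩
      · intro u hu
        rw [Finsupp.mem_support_iff, expo_apply] at hu
        have h3 := k4e_allowed C hC hm u u.2 hu
        have h4 : dig (A &&& U) u ≠ 0 := h3
        rw [dig_and] at h4
        constructor
        · intro h5; rw [h5, Nat.and_zero] at h4; exact h4 rfl
        · intro h5; rw [h5, Nat.zero_and] at h4; exact h4 rfl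
      · rw [k4e_ev_t, k4e_expo hx hdig, X, monomial_mul, mul_one]
    · rw [hb] at h
      obtain ⟨M, c, hc, hM, R, hR, he⟩ := ih h
      refine ⟨M, c, hc, hM, monomial (expo C.n m) ((a : k) - (b : k)) + R,
        Subalgebra.add_mem _ (k4e_mono_mem C hC k _ hb) hR, ?_⟩
      rw [k4e_ev_t, he]
      ring

theorem elimLU_list (C : Cst) (hC : C.ok) (R : Tr) (U : ℕ) {k : Type*} [Field k]
    (Q : Ideal (MvPolynomial (Fin C.n) k)) (hR : TAll (fun _ _ p => p.ev C.n k ∈ Q) R)
    (steps : P) : ∀ A, elimLU C.LOW C.sh R U steps A = true →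
      ∃ l : List (Fin C.n), (∀ v : Fin C.n, dig A v ≠ 0 ∨ v ∈ l) ∧
        ∀ i (hi : i < l.length), ∃ (M : Fin C.n →₀ ℕ) (c : k), c ≠ 0 ∧
          (∀ u ∈ M.support, dig U u ≠ 0 ∧ (dig A u ≠ 0 ∨ u ∈ l.take i)) ∧
          ∃ R' ∈ supported k (k4e_S C.n A ∪ {v | v ∈ l.take i}),
            monomial M c * X l[i] + R' ∈ Q := by
  induction steps with
  | z =>
    intro A h
    rw [elimLU_z] at h
    have hA : A = C.LOW := Nat.eq_of_beq_eq_true h
    refine ⟨[], ?_, ?_⟩
    · intro v
      left
      obtain ⟨_, _, _, hL, _⟩ := hC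
      rw [hA, hL, k4e_dig_low C.n v v.2]
      norm_num
    · intro i hi
      exact absurd hi (by simp)
  | t st a b r ih =>
    intro A h
    rw [elimLU_t] at h
    obtain ⟨hs, h⟩ := k2_brec_false h
    have hs := Nat.le_of_ble_eq_true hs
    set x := Nat.land st 255 with hxdef
    have hs' : Nat.succ (32 + 5 * x) ≤ C.sh := hs
    have hx : x < C.n := by
      obtain ⟨_, hsh, _, _, _⟩ := hC
      rw [hsh] at hs'
      omega
    cases hl : look R (Nat.shiftRight st 8) with
    | none => rw [hl] at h; exact absurd h (by simp)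
    | some key p =>
      rw [hl] at h
      have h : (Bool.rec (motive := fun _ => Bool) false
            (elimLU C.LOW C.sh R U r (Nat.lor A (Nat.shiftLeft 31 (32 + 5 * x))))
          (elimGoU C.LOW A (Nat.land A U) (32 + 5 * x) p false) : Bool) = true := h
      obtain ⟨hgo, h⟩ := k2_brec_false h
      obtain ⟨l, hl1, hl2⟩ := ih _ h
      have hor : ∀ v : Fin C.n, dig (Nat.lor A (Nat.shiftLeft 31 (32 + 5 * x))) v ≠ 0 →
          dig A v ≠ 0 ∨ v = ⟨x, hx⟩ := by
        intro v hv
        have e : Nat.lor A (Nat.shiftLeft 31 (32 + 5 * x))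
          = A ||| Nat.shiftLeft 31 (32 + 5 * x) := rfl
        rw [e, dig_or] at hv
        by_cases h0 : dig A v = 0
        · right
          rw [h0, Nat.zero_or] at hv
          exact Fin.ext (k4e_dig_shift hv)
        · exact Or.inl h0
      obtain ⟨M0, c0, hc0, hM0, R0, hR0, he0⟩ := elimGoU_false (k := k) C hC hx p hgo
      refine ⟨⟨x, hx⟩ :: l, ?_, ?_⟩
      · intro v
        rcases hl1 v with h1 | h1
        · rcases hor v h1 with h3 | h3
          · exact Or.inl h3
          · right; rw [h3]; exact List.mem_cons_self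
        · right; exact List.mem_cons_of_mem _ h1
      · intro i hi
        cases i with
        | zero =>
          refine ⟨M0, c0, hc0, fun u hu => ⟨(hM0 u hu).1, Or.inl (hM0 u hu).2⟩, R0, ?_, ?_⟩
          · exact supported_mono Set.subset_union_left hR0
          · have h9 : p.ev C.n k ∈ Q := hR _ _ _ hl
            rw [he0] at h9
            exact h9
        | succ i =>
          have hi' : i < l.length := by simpa using hi
          obtain ⟨M, c, hc, hM, R1, hR1, he⟩ := hl2 i hi'
          refine ⟨M, c, hc, ?_, R1, ?_, ?_⟩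
          · intro u hu
            obtain ⟨h3, h4⟩ := hM u hu
            refine ⟨h3, ?_⟩
            rcases h4 with h4 | h4
            · rcases hor u h4 with h5 | h5
              · exact Or.inl h5
              · right; rw [List.take_succ_cons, h5]; exact List.mem_cons_self
            · right; rw [List.take_succ_cons]; exact List.mem_cons_of_mem _ h4
          · refine supported_mono ?_ hR1
            rintro v (hv | hv)
            · rcases hor v hv with h5 | h5
              · exact Or.inl h5
              · right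
                show v ∈ (_ :: l).take (i + 1)
                rw [List.take_succ_cons, h5]; exact List.mem_cons_self
            · right
              show v ∈ (_ :: l).take (i + 1)
              rw [List.take_succ_cons]; exact List.mem_cons_of_mem _ hv
          · exact he

theorem elimsU_sound (C : Cst) (hC : C.ok) (N0 : ℕ) (R Y : Tr)
    (hY : elimsU C.n C.LOW C.SQ C.sh N0 R Y = true) {k : Type*} [Field k]
    (Q : Ideal (MvPolynomial (Fin C.n) k))
    (hR : TAll (fun _ _ p => p.ev C.n k ∈ Q ∧ p.All fun key => Good C.n key) R) :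
    TAll (fun _ u _ => ∃ Z : Finset (Fin C.n), Z.card ≤ N0 ∧
      ∀ p : MvPolynomial (Fin C.n) k, ∃ t ∈ supported k (Z : Set (Fin C.n)),
        (∃ (b : MvPolynomial (Fin C.n) k) (M : Fin C.n →₀ ℕ), (∀ v ∈ M.support, dig u v ≠ 0) ∧
          t * b - monomial M 1 ∈ Q) ∧
        ∃ q ∈ supported k (Z : Set (Fin C.n)), t * p - q ∈ Q) Y := by
  have hR' : TAll (fun _ _ p => p.ev C.n k ∈ Q) R := fun i key p h => (hR i key p h).1
  induction Y with
  | leaf =>
    intro i key p hp
    exact absurd hp (by rw [k2_look_leaf]; simp)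
  | node l i0 u0 p0 r ihl ihr =>
    rw [elimsU_node] at hY
    obtain ⟨hr, hY⟩ := k2_brec_false hY
    obtain ⟨hl, hY⟩ := k2_brec_false hY
    intro i key p hp
    rw [k2_look_node] at hp
    cases h1 : Nat.ble i i0
    · rw [h1] at hp
      exact ihr hr i key p hp
    · rw [h1] at hp
      cases h3 : Nat.beq i0 i
      · rw [h3] at hp
        exact ihl hl i key p hp
      · rw [h3] at hp
        have hp : En.some u0 p0 = En.some key p := hp
        injection hp with e1 e2
        subst e1
        subst e2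
        cases p0 with
        | z => exact absurd hY (by simp)
        | t z a b steps =>
          have hY : (Bool.rec (motive := fun _ => Bool) false
            (Bool.rec (motive := fun _ => Bool) false
              (Bool.rec (motive := fun _ => Bool) false
              (elimLU C.LOW C.sh R (Nat.mul 31 (Nat.land u0 C.LOW)) steps
                (Nat.mul 31 (Nat.land z C.LOW)))
              (Nat.beq (Nat.land u0 C.SQ) 0)) (Nat.beq (Nat.land z C.SQ) 0))
              (Nat.ble (popc C.n z) N0) : Bool) = true := hY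
          obtain ⟨hpc, hY⟩ := k2_brec_false hY
          obtain ⟨hz, hY⟩ := k2_brec_false hY
          obtain ⟨hu, hY⟩ := k2_brec_false hY
          have hz' := (squarefree_iff C hC z).1 (Nat.eq_of_beq_eq_true hz)
          have hu' := (squarefree_iff C hC u0).1 (Nat.eq_of_beq_eq_true hu)
          have hmask : ∀ U : ℕ, (∀ v < C.n, dig U v ≤ 1) → ∀ v < C.n,
              dig (Nat.mul 31 (Nat.land U C.LOW)) v ≠ 0 → dig U v ≠ 0 := by
            intro U hU
            refine supp_sound C hC hU ?_
            have e : (Nat.mul 31 (Nat.land U C.LOW) &&& C.LOW) &&& Nat.mul 31 (Nat.land U C.LOW)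
                = Nat.mul 31 (Nat.land U C.LOW) &&& C.LOW := by
              apply Nat.eq_of_testBit_eq
              intro i
              simp only [Nat.testBit_and]
              cases (Nat.mul 31 (Nat.land U C.LOW)).testBit i <;> simp
            have hbeq : ∀ a b : ℕ, a = b → Nat.beq a b = true := fun a b h => by
              subst h; exact Nat.beq_refl a
            exact hbeq _ _ e
          obtain ⟨l, hl1, hl2⟩ := elimLU_list C hC R _ Q hR' steps _ hY
          refine ⟨Finset.univ.filter (fun v : Fin C.n => dig z v ≠ 0),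
            (k4e_card hz').trans (Nat.le_of_ble_eq_true hpc), ?_⟩
          intro q
          have hA : ∀ v : Fin C.n, dig (Nat.mul 31 (Nat.land z C.LOW)) v ≠ 0 →
              v ∈ ((Finset.univ.filter (fun v : Fin C.n => dig z v ≠ 0) : Finset (Fin C.n)) :
                Set (Fin C.n)) := by
            intro v hv
            rw [Finset.mem_coe, Finset.mem_filter]
            exact ⟨Finset.mem_univ _, hmask z hz' v v.2 hv⟩
          obtain ⟨t, ht, _, hb, P', hP', h5⟩ := elim_all' (fun _ => 0) Q (Q : Set _)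
            (Ideal.span_eq Q).symm (fun g _ => ⟨0, fun e _ => by simp [wt]⟩)
            ((Finset.univ.filter (fun v : Fin C.n => dig z v ≠ 0) : Finset (Fin C.n)) :
                Set (Fin C.n)) {v | dig u0 v ≠ 0} l
            (fun v => (hl1 v).imp (hA v) id)
            (fun i hi => by
              obtain ⟨M, c, hc, hM, R1, hR1, he⟩ := hl2 i hi
              refine ⟨M, c, hc, fun u hu1 => ⟨hmask u0 hu' u u.2 (hM u hu1).1,
                (hM u hu1).2.imp (hA u) id⟩, R1, supported_mono ?_ hR1, he⟩
              rintro v (hv | hv)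
              · exact Or.inl (hA v hv)
              · exact Or.inr hv) q
          exact ⟨t, ht, hb, P', hP', h5⟩

open K4f

theorem leU_of_checks (C : Cst) (hC : C.ok) (ws : W) (hw : posOK C.n ws 0 = true) (N : ℕ) (T : Tr)
    (hT : tabOK C.G C.SQ N ws T = true) (hN : present T N = true)
    (hrows : ∀ j < N, ∀ Lj tj, look T j = .some Lj tj →
      ∃ codes trs, row C.G C.LOW C.sh T j Lj tj j codes trs = true)
    (M R Y : Tr) (hM : msOK C.G C.SQ M = true) (hR : relsOK C.G C.sh ws T R = true)
    (N0 : ℕ) (hY : elimsU C.n C.LOW C.SQ C.sh N0 R Y = true)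
    (D : CT) (hD : chkC (ruleU C.G C.LOW C.sh M T R Y) D D = true)
    (i : ℕ) (w : J) (hi : lookC D i = .some .e w)
    {k : Type*} [Field k]
    (P : Ideal (MvPolynomial (Fin C.n) k)) [P.IsPrime]
    (hQP : ∀ i : Fin N, (look T i).ev C.n k ∈ P) (hX : ∀ v, X v ∉ P)
    (Z0 : Finset (Fin C.n)) (hZ0 : N0 ≤ Z0.card)
    (h0 : ∀ p ∈ supported k (Z0 : Set (Fin C.n)), p ∈ P → p = 0) :
    P ≤ Ideal.span (Set.range fun i : Fin N => (look T i).ev C.n k) := by
  classical
  have hTab := tab_of_check C hC ws hw N T hT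
  obtain ⟨hlead, hok, hsq⟩ := ok_of_rows (k := k) C hC _ N T hTab hN hrows
  have hRel := rels_sound C hC ws hw N T R hTab hR k
  have hall : ∀ (A B : ℕ → Prop) (p : Pool.Agent.Helper97.Hilb8.K.P), (∀ a, A a → B a) →
      p.All A → p.All B := by
    intro A B p hAB hp
    induction p with
    | z => trivial
    | t k x y r ih =>
      exact ⟨hAB _ hp.1, ih hp.2⟩
  generalize hQ : Ideal.span (Set.range fun i : Fin N => (look T i).ev C.n k) = Q at hRel ⊢
  have hQP' : Q ≤ P := by
    rw [← hQ, Ideal.span_le]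
    rintro _ ⟨j, rfl⟩
    exact hQP j
  have hEl := elimsU_sound (k := k) C hC N0 R Y hY Q (fun j key p h =>
    ⟨(hRel j key p h).1, hall _ _ p (fun a ha => ha.1) (hRel j key p h).2⟩)
  choose Z hZcard hZel using
    (fun a : {a : ℕ × ℕ × Pool.Agent.Helper97.Hilb8.K.P // look Y a.1 = .some a.2.1 a.2.2} =>
      hEl a.1.1 a.1.2.1 a.1.2.2 a.2)
  refine le_of_elim P Q hQP' (fun a => (Z a : Set (Fin C.n)))
    (fun a => {v : Fin C.n | dig a.1.2.1 v ≠ 0}) ?_ ?_ ?_
  · intro a
    refine indep_transfer P Z0 (Z a) ((hZcard a).trans hZ0) h0 (fun v => ?_)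
    obtain ⟨t, ht, ⟨b, m, _, htb⟩, q, hq, htq⟩ := hZel a (X v)
    refine ⟨t, ht, fun htP => ?_, q, hq, hQP' htq⟩
    apply monomial_notMem P hX m
    have h1 : t * b - (t * b - monomial m 1) ∈ P :=
      P.sub_mem (P.mul_mem_right _ htP) (hQP' htb)
    rwa [sub_sub_cancel] at h1
  · intro a p
    exact hZel a p
  · intro p hp
    obtain ⟨r, hr, hprime⟩ := exists_prime_colon Q p hp
    refine ⟨r, hr, hprime, ?_⟩
    by_contra hcon
    have hr' : r * p ∉ Ideal.span (Set.range fun i : Fin N => (look T i).ev C.n k) := by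
      rw [hQ]; exact hr
    obtain ⟨F, F1, F2, F3⟩ := exists_facet (fun v : Fin C.n => ws.get v)
      (fun i : Fin N => (look T i).ev C.n k) (fun i : Fin N => (look T i).lead C.n)
      hlead hok hsq (lt' fun v : Fin C.n => ws.get v) (lt_irrefl' _) (lt_trans' _) (lt_total' _)
      (lt_add' _) (fun a b h => Or.inl h) (r * p) hr'
    rw [hQ] at F3
    have hpresent : ∀ j key q, look T j = .some key q → j < N := fun j key q h => (hTab j key q h).1
    have hrule := ruleU_sound C hC (fun v : Fin C.n => ws.get v) N M T R Y hTab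
      (ms_sound C hC M hM) (fun q => q * (r * p) ∈ Q) F
      (by rwa [one_mul])
      (fun a b ha hb => by rw [add_mul]; exact Q.add_mem ha hb)
      (fun a b hb => by rw [mul_assoc]; exact Q.mul_mem_left _ hb)
      hprime
      (fun j key q h => ⟨Q.mul_mem_right _ (hRel j key q h).1, (hRel j key q h).2⟩)
      (by
        intro j key q hj hcon'
        refine F1 ⟨j, hpresent j key q hj⟩ ?_
        intro v hv
        refine hcon' v ?_
        have h3 : (look T j).lead C.n v ≠ 0 := hv
        rw [hj] at h3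
        exact h3)
      (by
        intro v hv
        obtain ⟨j, hj1, hj2⟩ := F2 v hv
        cases hj : look T j with
        | none =>
          exfalso
          apply hj1
          have h3 : (look T (j : ℕ)).lead C.n v = 0 := by rw [hj]; rfl
          exact h3
        | some key q =>
          have hL : ∀ u : Fin C.n, (look T (j : ℕ)).lead C.n u = dig key u := by
            intro u; rw [hj]; rfl
          refine ⟨j, key, q, hj, ?_, ?_⟩
          · rw [← hL]; exact hj1
          · intro u hu hu'
            exact hj2 u hu (by rw [← hL] at hu'; exact hu'))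
      (fun q hq e he he' => F3 q hq e he (fun e' h1 h2 => Or.inl (he' e' h1 h2)))
      (by
        intro j key q hj
        by_contra hcon'
        apply hcon
        refine ⟨⟨(j, key, q), hj⟩, ?_⟩
        intro u hu hu'
        exact hcon' ⟨u, hu, hu'⟩)
    have hD' : chkC (fun c t a b => (ruleU C.G C.LOW C.sh M T R Y c t a b) && litsOK c) D D
        = true := chk_congr _ _ D (fun c t a b h1 h3 => by simp [h1, h3]) D hD
    have hfin := sat_of_chk (fun c t a b => (ruleU C.G C.LOW C.sh M T R Y c t a b) && litsOK c) D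
      (atomT C.n M (fun q : MvPolynomial (Fin C.n) k => q * (r * p) ∈ Q) F)
      (fun c t a b h => by
        rw [Bool.and_eq_true] at h
        exact hrule c t a b h.1 h.2) hD' i .e w hi
    obtain ⟨p', hp', _⟩ := hfin
    exact hp'

end Pool.Agent.Helper97.Hilb8.K
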